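import Pool.Agent.Ray.Circle3

/-!
# The `L⁴` estimate for the extension operator of the circle
-/

open MeasureTheory Set Filter Real
open scoped ENNReal NNReal Topology

namespace Pool.Agent.Ray

open Pool.Agent.Restr

/-- The one-dimensional majorant. -/
noncomputable def mj (ε a : ℝ) : ℝ := (1 + a ^ 2) ^ (-((1 + ε) / 2) : ℝ)

theorem mj_nonneg (ε a : ℝ) : 0 ≤ mj ε a := by
  unfold mj
  positivity

theorem integrable_mj {ε : ℝ} (hε : 0 < ε) : Integrable (mj ε) := by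
  have h := integrable_rpow_neg_one_add_norm_sq (μ := (volume : Measure ℝ)) (r := 1 + ε)
    (E := ℝ) (by simp [hε])
  refine h.congr (Eventually.of_forall fun a => ?_)
  unfold mj
  simp only [Real.norm_eq_abs, sq_abs]
  congr 1
  ring

theorem gw_weight {ε δ : ℝ} (hε : 0 < ε) (hε1 : ε ≤ 1) (hδ : 0 < δ) (hδ1 : δ ≤ 1) (z : ℝ × ℝ) :
    gw δ z * (1 + (z.1 ^ 2 + z.2 ^ 2)) ^ ε ≤ Real.exp 1 * δ ^ (-ε) := by
  set r : ℝ := z.1 ^ 2 + z.2 ^ 2 with hr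
  have hr0 : 0 ≤ r := by positivity
  have h1 : gw δ z = Real.exp (-(δ * r)) := by
    unfold gw
    rw [← Real.exp_add]
    congr 1
    rw [hr]
    ring
  have h2 : (1 + r) ^ ε ≤ δ ^ (-ε) * (1 + δ * r) ^ ε := by
    rw [Real.rpow_neg hδ.le, ← Real.inv_rpow hδ.le, ← Real.mul_rpow (by positivity) (by positivity)]
    refine Real.rpow_le_rpow (by positivity) ?_ hε.le
    have : δ⁻¹ * (1 + δ * r) = δ⁻¹ + r := by
      field_simp
    rw [this]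
    have h3 : 1 ≤ δ⁻¹ := (one_le_inv₀ hδ).2 hδ1
    linarith
  have h3 : (1 + δ * r) ^ ε ≤ Real.exp 1 * Real.exp (δ * r) := by
    have e0 : 1 ≤ 1 + δ * r := by
      have := mul_nonneg hδ.le hr0
      linarith
    calc (1 + δ * r) ^ ε ≤ (1 + δ * r) ^ (1 : ℝ) := Real.rpow_le_rpow_of_exponent_le e0 hε1
      _ = 1 + δ * r := Real.rpow_one _
      _ ≤ Real.exp (δ * r) := by
          have := Real.add_one_le_exp (δ * r)
          linarith
      _ ≤ Real.exp 1 * Real.exp (δ * r) := by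
          have := Real.exp_pos (δ * r)
          have h4 : 1 ≤ Real.exp 1 := Real.one_le_exp (by norm_num)
          nlinarith
  calc gw δ z * (1 + r) ^ ε ≤ Real.exp (-(δ * r)) * (δ ^ (-ε) * (Real.exp 1 *
        Real.exp (δ * r))) := by
        rw [h1]
        have := Real.exp_pos (-(δ * r))
        have h5 : 0 ≤ δ ^ (-ε) := by positivity
        gcongr
        exact h2.trans (by gcongr)
    _ = Real.exp 1 * δ ^ (-ε) * (Real.exp (-(δ * r)) * Real.exp (δ * r)) := by ring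
    _ = _ := by
        rw [← Real.exp_add, neg_add_cancel, Real.exp_zero, mul_one]

theorem mj_weight {ε : ℝ} (hε : 0 < ε) (z : ℝ × ℝ) :
    (1 + (z.1 ^ 2 + z.2 ^ 2)) ^ (-(1 + ε)) ≤ mj ε z.1 * mj ε z.2 := by
  unfold mj
  rw [← Real.mul_rpow (by positivity) (by positivity)]
  have h1 : (1 + (z.1 ^ 2 + z.2 ^ 2)) ^ (-(1 + ε)) =
      ((1 + (z.1 ^ 2 + z.2 ^ 2)) ^ (2 : ℝ)) ^ (-((1 + ε) / 2)) := by
    rw [← Real.rpow_mul (by positivity)]
    congr 1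
    ring
  rw [h1]
  refine Real.rpow_le_rpow_of_nonpos (by positivity) ?_ (by linarith)
  rw [show (2 : ℝ) = ((2 : ℕ) : ℝ) by norm_num, Real.rpow_natCast]
  nlinarith [sq_nonneg z.1, sq_nonneg z.2, mul_nonneg (sq_nonneg z.1) (sq_nonneg z.2),
    sq_nonneg (z.1 ^ 2), sq_nonneg (z.2 ^ 2)]

theorem Lam_le {ε : ℝ} (hε : 0 < ε) (hε1 : ε ≤ 1) : ∃ C : ℝ, 0 < C ∧ ∀ δ : ℝ, 0 < δ → δ ≤ 1 →
    Lam δ 0 ≤ ENNReal.ofReal (C * δ ^ (-ε)) := by
  set I1 : ℝ := ∫ a, mj ε a with hI1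
  have hI0 : 0 ≤ I1 := integral_nonneg (mj_nonneg ε)
  set C0 : ℝ := 2 * (4 * (1 + π)) ^ 4 * Real.exp 1 with hC0
  have hC0p : 0 < C0 := by positivity
  refine ⟨C0 * (I1 * I1) + 1, by positivity, fun δ hδ hδ1 => ?_⟩
  have hpt : ∀ z : ℝ × ℝ, gw δ z * ‖J z‖ ^ 4 ≤ C0 * δ ^ (-ε) * (mj ε z.1 * mj ε z.2) := by
    intro z
    have hp : 0 < 1 + (z.1 ^ 2 + z.2 ^ 2) := by positivity
    have h1 := J_bound z
    have h2 := gw_weight hε hε1 hδ hδ1 z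
    have h3 := mj_weight hε z
    have hg := gw_nonneg δ z
    set r := z.1 ^ 2 + z.2 ^ 2 with hr
    have e1 : (1 + r) ^ ε * (1 + r) ^ (-(1 + ε)) * (1 + r) = 1 := by
      rw [← Real.rpow_add hp, show ε + -(1 + ε) = -1 by ring, Real.rpow_neg_one,
        inv_mul_cancel₀ hp.ne']
    calc gw δ z * ‖J z‖ ^ 4 = gw δ z * ‖J z‖ ^ 4 * ((1 + r) ^ ε * (1 + r) ^ (-(1 + ε)) *
          (1 + r)) := by rw [e1, mul_one]
      _ = (gw δ z * (1 + r) ^ ε) * (‖J z‖ ^ 4 * (1 + r)) * (1 + r) ^ (-(1 + ε)) := by ring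
      _ ≤ (Real.exp 1 * δ ^ (-ε)) * (2 * (4 * (1 + π)) ^ 4) * (mj ε z.1 * mj ε z.2) := by
          gcongr
      _ = _ := by
          rw [hC0]
          ring
  have hi : Integrable (fun z : ℝ × ℝ => mj ε z.1 * mj ε z.2) := by
    have h := (integrable_mj hε).mul_prod (integrable_mj hε)
    rw [← Measure.volume_eq_prod] at h
    exact h
  have hIz : ∫ z : ℝ × ℝ, mj ε z.1 * mj ε z.2 = I1 * I1 := by
    rw [Measure.volume_eq_prod, integral_prod_mul]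
  have h := Lam_mul hδ
  have h2 : Lam δ 0 * ENNReal.ofReal (2 * π) ≤ ENNReal.ofReal (C0 * δ ^ (-ε) * (I1 * I1)) := by
    rw [h]
    calc ∫⁻ z, ENNReal.ofReal (gw δ z * ‖J z‖ ^ 4)
        ≤ ∫⁻ z : ℝ × ℝ, ENNReal.ofReal (C0 * δ ^ (-ε) * (mj ε z.1 * mj ε z.2)) :=
          lintegral_mono fun z => ENNReal.ofReal_le_ofReal (hpt z)
      _ = ENNReal.ofReal (∫ z : ℝ × ℝ, C0 * δ ^ (-ε) * (mj ε z.1 * mj ε z.2)) := by
          rw [ofReal_integral_eq_lintegral_ofReal (hi.const_mul _)]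
          exact Eventually.of_forall fun z => mul_nonneg (by positivity)
            (mul_nonneg (mj_nonneg _ _) (mj_nonneg _ _))
      _ = _ := by rw [integral_const_mul, hIz]
  have h3 : (1 : ℝ≥0∞) ≤ ENNReal.ofReal (2 * π) := by
    rw [← ENNReal.ofReal_one]
    apply ENNReal.ofReal_le_ofReal
    linarith [Real.pi_gt_three]
  calc Lam δ 0 = Lam δ 0 * 1 := (mul_one _).symm
    _ ≤ Lam δ 0 * ENNReal.ofReal (2 * π) := by gcongr
    _ ≤ _ := h2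
    _ ≤ _ := by
        apply ENNReal.ofReal_le_ofReal
        have : 0 ≤ δ ^ (-ε) := by positivity
        nlinarith

theorem measurable_U {F : ℝ → ℂ} (hF : Measurable F) : Measurable (U F) := by
  unfold U
  have : StronglyMeasurable (fun z : ℝ × ℝ => ∫ ω, u (z.1 * cos (2 * ω) + z.2 * sin (2 * ω)) *
      F ω ∂μc) := by
    apply StronglyMeasurable.integral_prod_right
      (f := fun (z : ℝ × ℝ) (ω : ℝ) => u (z.1 * cos (2 * ω) + z.2 * sin (2 * ω)) * F ω)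
    apply Measurable.stronglyMeasurable
    exact (measurable_u.comp (by fun_prop)).mul (hF.comp measurable_snd)
  exact this.measurable

/-- The `L⁴` estimate for the circle on the disc of radius `√M`. -/
theorem circle_L4 {ε : ℝ} (hε : 0 < ε) (hε1 : ε ≤ 1) : ∃ C : ℝ, 0 < C ∧
    ∀ F : ℝ → ℂ, Measurable F → ∀ M : ℝ, 1 ≤ M →
    ∫⁻ z in {z : ℝ × ℝ | z.1 ^ 2 + z.2 ^ 2 ≤ M}, ‖U F z‖ₑ ^ 4 ≤
      ENNReal.ofReal (C * M ^ ε) * ∫⁻ ω, ‖F ω‖ₑ ^ 4 ∂μc := by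
  obtain ⟨C, hC, h⟩ := Lam_le hε hε1
  refine ⟨Real.exp 1 * C, by positivity, fun F hF M hM => ?_⟩
  have hM0 : 0 < M := by linarith
  set δ : ℝ := M⁻¹ with hδ
  have hδ0 : 0 < δ := by positivity
  have hδ1 : δ ≤ 1 := inv_le_one_of_one_le₀ hM
  have hset : MeasurableSet {z : ℝ × ℝ | z.1 ^ 2 + z.2 ^ 2 ≤ M} :=
    measurableSet_le (by fun_prop) measurable_const
  have hw : ∀ z ∈ {z : ℝ × ℝ | z.1 ^ 2 + z.2 ^ 2 ≤ M},
      ‖U F z‖ₑ ^ 4 ≤ ENNReal.ofReal (Real.exp 1) * (‖U F z‖ₑ ^ 4 * ENNReal.ofReal (gw δ z)) := by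
    intro z hz
    have h1 : gw δ z = Real.exp (-(δ * (z.1 ^ 2 + z.2 ^ 2))) := by
      unfold gw
      rw [← Real.exp_add]
      congr 1
      ring
    have h2 : δ * (z.1 ^ 2 + z.2 ^ 2) ≤ 1 := by
      rw [hδ, inv_mul_le_iff₀ hM0, mul_one]
      exact hz
    have h3 : 1 ≤ Real.exp 1 * gw δ z := by
      rw [h1, ← Real.exp_add]
      apply Real.one_le_exp
      linarith
    calc ‖U F z‖ₑ ^ 4 = ‖U F z‖ₑ ^ 4 * 1 := (mul_one _).symm
      _ ≤ ‖U F z‖ₑ ^ 4 * ENNReal.ofReal (Real.exp 1 * gw δ z) := by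
          gcongr
          rw [← ENNReal.ofReal_one]
          exact ENNReal.ofReal_le_ofReal h3
      _ = _ := by
          rw [ENNReal.ofReal_mul (Real.exp_pos _).le]
          ring
  have hmw : Measurable (fun z => ‖U F z‖ₑ ^ 4 * ENNReal.ofReal (gw δ z)) :=
    ((measurable_U hF).enorm.pow_const 4).mul (continuous_gw δ).measurable.ennreal_ofReal
  calc ∫⁻ z in {z : ℝ × ℝ | z.1 ^ 2 + z.2 ^ 2 ≤ M}, ‖U F z‖ₑ ^ 4
      ≤ ∫⁻ z in {z : ℝ × ℝ | z.1 ^ 2 + z.2 ^ 2 ≤ M},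
        ENNReal.ofReal (Real.exp 1) * (‖U F z‖ₑ ^ 4 * ENNReal.ofReal (gw δ z)) :=
        setLIntegral_mono (hmw.const_mul _) hw
    _ ≤ ∫⁻ z, ENNReal.ofReal (Real.exp 1) * (‖U F z‖ₑ ^ 4 * ENNReal.ofReal (gw δ z)) :=
        setLIntegral_le_lintegral _ _
    _ = ENNReal.ofReal (Real.exp 1) * ∫⁻ z, ‖U F z‖ₑ ^ 4 * ENNReal.ofReal (gw δ z) :=
        lintegral_const_mul _ hmw
    _ ≤ ENNReal.ofReal (Real.exp 1) * (Lam δ 0 * ∫⁻ ω, ‖F ω‖ₑ ^ 4 ∂μc) := by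
        gcongr
        exact U_four hF hδ0
    _ ≤ ENNReal.ofReal (Real.exp 1) * (ENNReal.ofReal (C * δ ^ (-ε)) *
        ∫⁻ ω, ‖F ω‖ₑ ^ 4 ∂μc) := by
        gcongr
        exact h δ hδ0 hδ1
    _ = _ := by
        rw [← mul_assoc, ← ENNReal.ofReal_mul (Real.exp_pos _).le]
        congr 2
        rw [hδ, Real.inv_rpow hM0.le, Real.rpow_neg hM0.le, inv_inv]
        ring

end Pool.Agent.Ray
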