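import Pool.Agent.Ray.Kern2
import Pool.Agent.Ray.Circle4

/-!
# The amplitude
-/

open MeasureTheory Set Filter Real
open scoped ENNReal NNReal Topology

namespace Pool.Agent.Ray

open Pool.Agent.Restr

theorem pow4_le {α : Type*} [MeasurableSpace α] (ν : Measure α) {f : α → ℝ≥0∞}
    (hf : AEMeasurable f ν) : (∫⁻ x, f x ∂ν) ^ 4 ≤ ν univ ^ 3 * ∫⁻ x, f x ^ 4 ∂ν := by
  have hpq : (4 : ℝ).HolderConjugate (4 / 3) := by
    rw [Real.holderConjugate_iff]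
    norm_num
  have h := ENNReal.lintegral_mul_le_Lp_mul_Lq ν hpq hf
    (aemeasurable_const : AEMeasurable (fun _ : α => (1 : ℝ≥0∞)) ν)
  have e1 : ∫⁻ a, (f * (fun _ => (1 : ℝ≥0∞) : α → ℝ≥0∞)) a ∂ν = ∫⁻ x, f x ∂ν := by
    refine lintegral_congr fun x => ?_
    simp
  have e2 : ∫⁻ _ : α, (1 : ℝ≥0∞) ^ (4 / 3 : ℝ) ∂ν = ν univ := by simp
  have e3 : ∫⁻ a, f a ^ (4 : ℝ) ∂ν = ∫⁻ a, f a ^ 4 ∂ν := by
    refine lintegral_congr fun x => ?_
    rw [show (4 : ℝ) = ((4 : ℕ) : ℝ) by norm_num, ENNReal.rpow_natCast]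
  rw [e1, e2, e3] at h
  calc (∫⁻ x, f x ∂ν) ^ 4 ≤ ((∫⁻ a, f a ^ 4 ∂ν) ^ (1 / 4 : ℝ) * ν univ ^ (1 / (4 / 3) : ℝ)) ^ 4 := by
        gcongr
    _ = _ := by
        rw [mul_pow, ← ENNReal.rpow_natCast (_ ^ (1 / 4 : ℝ)), ← ENNReal.rpow_mul,
          ← ENNReal.rpow_natCast (_ ^ (1 / (4 / 3) : ℝ)), ← ENNReal.rpow_mul, mul_comm]
        norm_num

theorem young4 {k g : ℝ → ℝ≥0∞} (hk : Measurable k) (hg : Measurable g) :
    ∫⁻ v, (∫⁻ r, k (v - r) * g r) ^ 4 ≤ (∫⁻ s, k s) ^ 4 * ∫⁻ r, g r ^ 4 := by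
  have h1 : ∀ v, (∫⁻ r, k (v - r) * g r) ^ 4 ≤ (∫⁻ s, k s) ^ 3 * ∫⁻ r, k (v - r) * g r ^ 4 := by
    intro v
    have hkv : Measurable (fun r => k (v - r)) := hk.comp (measurable_const.sub measurable_id)
    have h := pow4_le (volume.withDensity fun r => k (v - r)) hg.aemeasurable
    rw [lintegral_withDensity_eq_lintegral_mul _ hkv hg,
      lintegral_withDensity_eq_lintegral_mul _ hkv (hg.pow_const 4),
      withDensity_apply _ MeasurableSet.univ, Measure.restrict_univ,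
      lintegral_sub_left_eq_self k v] at h
    exact h
  have hm : Measurable (Function.uncurry fun v r : ℝ => k (v - r) * g r ^ 4) :=
    (hk.comp (measurable_fst.sub measurable_snd)).mul ((hg.comp measurable_snd).pow_const 4)
  calc ∫⁻ v, (∫⁻ r, k (v - r) * g r) ^ 4
      ≤ ∫⁻ v, (∫⁻ s, k s) ^ 3 * ∫⁻ r, k (v - r) * g r ^ 4 := lintegral_mono h1
    _ = (∫⁻ s, k s) ^ 3 * ∫⁻ v, ∫⁻ r, k (v - r) * g r ^ 4 := by
        rw [lintegral_const_mul]
        exact hm.lintegral_prod_right'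
    _ = (∫⁻ s, k s) ^ 3 * ∫⁻ r, ∫⁻ v, k (v - r) * g r ^ 4 := by
        rw [lintegral_lintegral_swap hm.aemeasurable]
    _ = (∫⁻ s, k s) ^ 3 * ∫⁻ r, (∫⁻ s, k s) * g r ^ 4 := by
        congr 1
        refine lintegral_congr fun r => ?_
        have hkr : Measurable (fun v => k (v - r)) := hk.comp (measurable_id.sub measurable_const)
        rw [lintegral_mul_const _ hkr, lintegral_sub_right_eq_self k r]
    _ = _ := by
        rw [lintegral_const_mul _ (hg.pow_const 4), ← mul_assoc, ← pow_succ]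

/-- Admissible densities in polar coordinates. -/
structure Adm (g : ℝ × ℝ → ℂ) : Prop where
  meas : Measurable g
  bdd : ∃ M : ℝ, ∀ p, ‖g p‖ ≤ M
  supp : ∀ r ω, r ∉ Icc (3 / 8 : ℝ) (17 / 8) → g (r, ω) = 0

theorem Adm.slice {g : ℝ × ℝ → ℂ} (h : Adm g) (ω : ℝ) : Integrable (fun r => g (r, ω)) := by
  obtain ⟨M, hM⟩ := h.bdd
  have h1 : IntegrableOn (fun r => g (r, ω)) (Icc (3 / 8 : ℝ) (17 / 8)) :=
    Measure.integrableOn_of_bounded (by simp)
      (h.meas.comp (by fun_prop : Measurable fun r : ℝ => (r, ω))).aestronglyMeasurable (M := M)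
      (Eventually.of_forall fun r => hM _)
  rwa [integrableOn_iff_integrable_of_support_subset] at h1
  intro r hr
  by_contra hn
  exact hr (h.supp r ω hn)

/-- The amplitude with kernel `φ`. -/
noncomputable def Hf (φ : ℝ → ℝ) (τ N : ℝ) (g : ℝ × ℝ → ℂ) (v ω : ℝ) : ℂ :=
  ∫ r, g (r, ω) * kk φ τ (N * (v - r))

theorem measurable_Hf {φ : ℝ → ℝ} (hφ : Bmp φ) (τ N : ℝ) {g : ℝ × ℝ → ℂ} (hg : Adm g) :
    Measurable (fun p : ℝ × ℝ => Hf φ τ N g p.1 p.2) := by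
  have hk := continuous_kk hφ τ
  have : StronglyMeasurable (fun p : ℝ × ℝ => ∫ r, g (r, p.2) * kk φ τ (N * (p.1 - r))) := by
    apply StronglyMeasurable.integral_prod_right
      (f := fun (p : ℝ × ℝ) (r : ℝ) => g (r, p.2) * kk φ τ (N * (p.1 - r)))
    apply Measurable.stronglyMeasurable
    refine (hg.meas.comp (by fun_prop)).mul ?_
    exact hk.measurable.comp (by fun_prop)
  exact this.measurable

/-- a uniform bound -/
theorem Hf_bound {φ : ℝ → ℝ} (hφ : Bmp φ) {τ : ℝ} (hτ : τ ≠ 0) (N : ℝ) {g : ℝ × ℝ → ℂ}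
    (hg : Adm g) : ∃ B : ℝ, ∀ v ω, ‖Hf φ τ N g v ω‖ ≤ B := by
  obtain ⟨M, hM⟩ := hg.bdd
  have hM0 : 0 ≤ M := (norm_nonneg _).trans (hM (0, 0))
  set D := 2 * |τ| ^ (-(1 / 2) : ℝ) * ∫ s, |deriv φ s| with hD
  have hD0 : 0 ≤ D := by
    have : 0 ≤ ∫ s, |deriv φ s| := integral_nonneg fun s => abs_nonneg _
    positivity
  refine ⟨∫ r, (Icc (3 / 8 : ℝ) (17 / 8)).indicator (fun _ => M * D) r, fun v ω => ?_⟩
  unfold Hf
  refine norm_integral_le_of_norm_le ?_ (Eventually.of_forall fun r => ?_)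
  · exact (integrableOn_const (by simp)).integrable_indicator measurableSet_Icc
  · by_cases hr : r ∈ Icc (3 / 8 : ℝ) (17 / 8)
    · rw [indicator_of_mem hr, norm_mul]
      exact mul_le_mul (hM _) (norm_kk_le hφ hτ _) (norm_nonneg _) hM0
    · rw [indicator_of_notMem hr, hg.supp r ω hr, zero_mul, norm_zero]

theorem hasDerivAt_Hf {φ : ℝ → ℝ} (hφ : Bmp φ) {τ : ℝ} (hτ : τ ≠ 0) (N : ℝ) {g : ℝ × ℝ → ℂ}
    (hg : Adm g) (v ω : ℝ) :
    HasDerivAt (fun v => Hf φ τ N g v ω) (N * Hf (deriv φ) τ N g v ω) v := by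
  have hs := hg.slice ω
  have hd := hφ.deriv
  have hk := continuous_kk hφ τ
  have hkd := continuous_kk hd τ
  have hgm : Measurable (fun r => g (r, ω)) := hg.meas.comp (by fun_prop)
  set D := 2 * |τ| ^ (-(1 / 2) : ℝ) * ∫ s, |deriv (deriv φ) s| with hD
  have key := hasDerivAt_integral_of_dominated_loc_of_deriv_le (μ := (volume : Measure ℝ))
    (F := fun (v r : ℝ) => g (r, ω) * kk φ τ (N * (v - r)))
    (F' := fun (v r : ℝ) => g (r, ω) * (N * kk (deriv φ) τ (N * (v - r))))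
    (x₀ := v) (s := univ) (bound := fun r => ‖g (r, ω)‖ * (|N| * D)) univ_mem
    (Eventually.of_forall fun x => (hgm.mul (hk.measurable.comp
      (by fun_prop))).aestronglyMeasurable)
    (hs.mul_bdd (c := 2 * |τ| ^ (-(1 / 2) : ℝ) * ∫ s, |deriv φ s|)
      (hk.measurable.comp (by fun_prop)).aestronglyMeasurable
      (Eventually.of_forall fun r => norm_kk_le hφ hτ _))
    (hgm.mul (measurable_const.mul (hkd.measurable.comp (by fun_prop)))).aestronglyMeasurable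
    (Eventually.of_forall fun r x _ => by
      rw [norm_mul, norm_mul, Complex.norm_real, Real.norm_eq_abs]
      gcongr
      exact norm_kk_le hd hτ _)
    (hs.norm.mul_const _)
    (Eventually.of_forall fun r x _ => by
      have h1 : HasDerivAt (fun x : ℝ => N * (x - r)) N x := by
        have := ((hasDerivAt_id x).sub_const r).const_mul N
        simpa using this
      have h2 := (hasDerivAt_kk hφ τ (N * (x - r))).scomp x h1
      have h3 := h2.const_mul (g (r, ω))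
      refine h3.congr_deriv ?_
      rw [Complex.real_smul])
  have := key.2
  unfold Hf
  refine this.congr_deriv ?_
  rw [← integral_const_mul]
  refine integral_congr_ae (Eventually.of_forall fun r => ?_)
  simp only
  ring

theorem lintegral_kernel {C τ N : ℝ} (hC : 0 < C) (hτ : τ ≠ 0) (hN : 0 < N) :
    ∫⁻ w : ℝ, ENNReal.ofReal (C * |τ| ^ (-(1 / 2) : ℝ) * (1 + (N * w) ^ 2)⁻¹) =
      ENNReal.ofReal (C * π * (N⁻¹ * |τ| ^ (-(1 / 2) : ℝ))) := by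
  have hτ0 : 0 < |τ| := abs_pos.2 hτ
  have h1 : Integrable (fun w : ℝ => (1 + (N * w) ^ 2)⁻¹) :=
    integrable_inv_one_add_sq.comp_mul_left' hN.ne'
  have h2 : ∫ w : ℝ, (1 + (N * w) ^ 2)⁻¹ = N⁻¹ * π := by
    have := Measure.integral_comp_mul_left (fun x : ℝ => (1 + x ^ 2)⁻¹) N
    rw [this, integral_univ_inv_one_add_sq, smul_eq_mul, abs_of_pos (by positivity)]
  rw [← ofReal_integral_eq_lintegral_ofReal (h1.const_mul _)
    (Eventually.of_forall fun w => by positivity), integral_const_mul, h2]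
  congr 1
  ring

/-- `L⁴` bound for the amplitude. -/
theorem Hf_L4 {φ : ℝ → ℝ} (hφ : Bmp φ) : ∃ C : ℝ, 0 < C ∧ ∀ τ : ℝ, 1 ≤ |τ| → ∀ N : ℝ, 0 < N →
    ∀ g : ℝ × ℝ → ℂ, Adm g → ∀ ω : ℝ,
    ∫⁻ v, ‖Hf φ τ N g v ω‖ₑ ^ 4 ≤ ENNReal.ofReal ((C * (N⁻¹ * |τ| ^ (-(1 / 2) : ℝ))) ^ 4) *
      ∫⁻ r, ‖g (r, ω)‖ₑ ^ 4 := by
  obtain ⟨C, hC, hb⟩ := kk_bounds hφ
  refine ⟨C * π, by positivity, fun τ hτ N hN g hg ω => ?_⟩
  have hτ0 : 0 < |τ| := by linarith
  have hτn : τ ≠ 0 := abs_pos.1 hτ0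
  have hgm : Measurable (fun r => ‖g (r, ω)‖ₑ) := (hg.meas.comp (by fun_prop)).enorm
  have hkm : Measurable (fun w : ℝ =>
      ENNReal.ofReal (C * |τ| ^ (-(1 / 2) : ℝ) * (1 + (N * w) ^ 2)⁻¹)) := by fun_prop
  have h1 : ∀ v, ‖Hf φ τ N g v ω‖ₑ ≤ ∫⁻ r,
      ENNReal.ofReal (C * |τ| ^ (-(1 / 2) : ℝ) * (1 + (N * (v - r)) ^ 2)⁻¹) * ‖g (r, ω)‖ₑ := by
    intro v
    unfold Hf
    refine (enorm_integral_le_lintegral_enorm _).trans (lintegral_mono fun r => ?_)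
    rw [enorm_mul, mul_comm]
    gcongr
    rw [← ofReal_norm]
    exact ENNReal.ofReal_le_ofReal (hb τ hτ _).1
  calc ∫⁻ v, ‖Hf φ τ N g v ω‖ₑ ^ 4
      ≤ ∫⁻ v, (∫⁻ r, ENNReal.ofReal (C * |τ| ^ (-(1 / 2) : ℝ) * (1 + (N * (v - r)) ^ 2)⁻¹) *
        ‖g (r, ω)‖ₑ) ^ 4 := by
        refine lintegral_mono fun v => ?_
        gcongr
        exact h1 v
    _ ≤ _ := young4 hkm hgm
    _ = _ := by
        rw [lintegral_kernel hC hτn hN, ← ENNReal.ofReal_pow (by positivity)]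

end Pool.Agent.Ray
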