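import Pool.Agent.Ray.Amp1

/-!
# Freezing the amplitude on small squares
-/

open MeasureTheory Set Filter Real
open scoped ENNReal NNReal Topology

namespace Pool.Agent.Ray

open Pool.Agent.Restr

theorem ftc1 {F F' : ℝ → ℂ} (hF : ∀ y, HasDerivAt F (F' y) y) (hc : Continuous F') {δ : ℝ}
    (hδ : 0 < δ) : F 0 = (δ : ℂ)⁻¹ * ∫ y in (0 : ℝ)..δ, (F y - ((δ - y : ℝ) : ℂ) * F' y) := by
  have hFc : Continuous F := by
    rw [continuous_iff_continuousAt]
    exact fun y => (hF y).continuousAt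
  have hder : ∀ y ∈ uIcc 0 δ, HasDerivAt (fun y : ℝ => -(((δ - y : ℝ) : ℂ) * F y))
      (F y - ((δ - y : ℝ) : ℂ) * F' y) y := by
    intro y _
    have d1 : HasDerivAt (fun y : ℝ => ((δ - y : ℝ) : ℂ)) (-1) y := by
      have := ((hasDerivAt_id y).const_sub δ).ofReal_comp
      simpa using this
    have := (d1.fun_mul (hF y)).fun_neg
    refine this.congr_deriv ?_
    ring
  have hcont : Continuous (fun y : ℝ => F y - ((δ - y : ℝ) : ℂ) * F' y) := by fun_prop
  rw [intervalIntegral.integral_eq_sub_of_hasDerivAt hder (hcont.intervalIntegrable _ _)]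
  have hδC : (δ : ℂ) ≠ 0 := by exact_mod_cast hδ.ne'
  simp only [sub_self, sub_zero, Complex.ofReal_zero, zero_mul, neg_zero, zero_sub, neg_neg]
  rw [← mul_assoc, inv_mul_cancel₀ hδC, one_mul]

/-- the two-variable integrand -/
noncomputable def G2 (H H' H'' : ℝ → ℂ) (c s v δ y₁ y₂ : ℝ) : ℂ :=
  H (v + c * y₁ + s * y₂) - ((δ - y₁ : ℝ) : ℂ) * (c * H' (v + c * y₁ + s * y₂)) -
    ((δ - y₂ : ℝ) : ℂ) * (s * H' (v + c * y₁ + s * y₂)) +
    ((δ - y₁ : ℝ) : ℂ) * ((δ - y₂ : ℝ) : ℂ) * (c * s * H'' (v + c * y₁ + s * y₂))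

theorem ftc2 {H H' H'' : ℝ → ℂ} (h1 : ∀ y, HasDerivAt H (H' y) y)
    (h2 : ∀ y, HasDerivAt H' (H'' y) y) (hc : Continuous H'') {δ : ℝ} (hδ : 0 < δ) (c s v : ℝ) :
    H v = (δ : ℂ)⁻¹ * ∫ y₁ in (0 : ℝ)..δ, (δ : ℂ)⁻¹ * ∫ y₂ in (0 : ℝ)..δ,
      G2 H H' H'' c s v δ y₁ y₂ := by
  have hHc : Continuous H := by
    rw [continuous_iff_continuousAt]
    exact fun y => (h1 y).continuousAt
  have hHc' : Continuous H' := by
    rw [continuous_iff_continuousAt]
    exact fun y => (h2 y).continuousAt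
  have e1 : ∀ y₁ : ℝ, H (v + c * y₁) = (δ : ℂ)⁻¹ * ∫ y₂ in (0 : ℝ)..δ,
      (H (v + c * y₁ + s * y₂) - ((δ - y₂ : ℝ) : ℂ) * (s * H' (v + c * y₁ + s * y₂))) := by
    intro y₁
    have hd : ∀ y : ℝ, HasDerivAt (fun y => H (v + c * y₁ + s * y))
        (s * H' (v + c * y₁ + s * y)) y := by
      intro y
      have l : HasDerivAt (fun y : ℝ => v + c * y₁ + s * y) s y := by
        have := ((hasDerivAt_id y).const_mul s).const_add (v + c * y₁)
        simpa using this
      have := (h1 (v + c * y₁ + s * y)).scomp y l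
      refine this.congr_deriv ?_
      rw [Complex.real_smul]
    have := ftc1 (F := fun y => H (v + c * y₁ + s * y)) hd (by fun_prop) hδ
    simpa using this
  have e2 : ∀ y₁ : ℝ, H' (v + c * y₁) = (δ : ℂ)⁻¹ * ∫ y₂ in (0 : ℝ)..δ,
      (H' (v + c * y₁ + s * y₂) - ((δ - y₂ : ℝ) : ℂ) * (s * H'' (v + c * y₁ + s * y₂))) := by
    intro y₁
    have hd : ∀ y : ℝ, HasDerivAt (fun y => H' (v + c * y₁ + s * y))
        (s * H'' (v + c * y₁ + s * y)) y := by
      intro y
      have l : HasDerivAt (fun y : ℝ => v + c * y₁ + s * y) s y := by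
        have := ((hasDerivAt_id y).const_mul s).const_add (v + c * y₁)
        simpa using this
      have := (h2 (v + c * y₁ + s * y)).scomp y l
      refine this.congr_deriv ?_
      rw [Complex.real_smul]
    have := ftc1 (F := fun y => H' (v + c * y₁ + s * y)) hd (by fun_prop) hδ
    simpa using this
  have e0 : H v = (δ : ℂ)⁻¹ * ∫ y₁ in (0 : ℝ)..δ,
      (H (v + c * y₁) - ((δ - y₁ : ℝ) : ℂ) * (c * H' (v + c * y₁))) := by
    have hd : ∀ y : ℝ, HasDerivAt (fun y => H (v + c * y)) (c * H' (v + c * y)) y := by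
      intro y
      have l : HasDerivAt (fun y : ℝ => v + c * y) c y := by
        have := ((hasDerivAt_id y).const_mul c).const_add v
        simpa using this
      have := (h1 (v + c * y)).scomp y l
      refine this.congr_deriv ?_
      rw [Complex.real_smul]
    have := ftc1 (F := fun y => H (v + c * y)) hd (by fun_prop) hδ
    simpa using this
  rw [e0]
  congr 1
  refine intervalIntegral.integral_congr fun y₁ _ => ?_
  rw [e1 y₁, e2 y₁]
  have i1 : IntervalIntegrable (fun y₂ : ℝ => H (v + c * y₁ + s * y₂) -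
      ((δ - y₂ : ℝ) : ℂ) * (s * H' (v + c * y₁ + s * y₂))) volume 0 δ := by
    apply Continuous.intervalIntegrable
    fun_prop
  have i2 : IntervalIntegrable (fun y₂ : ℝ => ((δ - y₁ : ℝ) : ℂ) * (c *
      (H' (v + c * y₁ + s * y₂) - ((δ - y₂ : ℝ) : ℂ) * (s * H'' (v + c * y₁ + s * y₂)))))
      volume 0 δ := by
    apply Continuous.intervalIntegrable
    fun_prop
  have : ((δ - y₁ : ℝ) : ℂ) * (c * ((δ : ℂ)⁻¹ * ∫ y₂ in (0 : ℝ)..δ,
      (H' (v + c * y₁ + s * y₂) - ((δ - y₂ : ℝ) : ℂ) * (s * H'' (v + c * y₁ + s * y₂))))) =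
      (δ : ℂ)⁻¹ * ∫ y₂ in (0 : ℝ)..δ, ((δ - y₁ : ℝ) : ℂ) * (c *
      (H' (v + c * y₁ + s * y₂) - ((δ - y₂ : ℝ) : ℂ) * (s * H'' (v + c * y₁ + s * y₂)))) := by
    rw [intervalIntegral.integral_const_mul, intervalIntegral.integral_const_mul]
    ring
  rw [this, ← mul_sub, ← intervalIntegral.integral_sub i1 i2]
  congr 1
  refine intervalIntegral.integral_congr fun y₂ _ => ?_
  simp only [G2]
  ring

/-- The small square. -/
noncomputable def μs (δ : ℝ) : Measure (ℝ × ℝ) := volume.restrict (Ioc 0 δ ×ˢ Ioc 0 δ)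

instance (δ : ℝ) : IsFiniteMeasure (μs δ) := by
  unfold μs
  refine ⟨?_⟩
  rw [Measure.restrict_apply MeasurableSet.univ, univ_inter, Measure.volume_eq_prod,
    Measure.prod_prod, Real.volume_Ioc]
  exact ENNReal.mul_lt_top ENNReal.ofReal_lt_top ENNReal.ofReal_lt_top

theorem μs_univ {δ : ℝ} (hδ : 0 < δ) : μs δ univ = ENNReal.ofReal (δ ^ 2) := by
  unfold μs
  rw [Measure.restrict_apply MeasurableSet.univ, univ_inter, Measure.volume_eq_prod,
    Measure.prod_prod, Real.volume_Ioc, sub_zero, ← ENNReal.ofReal_mul hδ.le, sq]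

theorem ftc2_set {H H' H'' : ℝ → ℂ} (h1 : ∀ y, HasDerivAt H (H' y) y)
    (h2 : ∀ y, HasDerivAt H' (H'' y) y) (hc : Continuous H'') {δ : ℝ} (hδ : 0 < δ) (c s v : ℝ) :
    H v = ((δ : ℂ)⁻¹) ^ 2 * ∫ y : ℝ × ℝ, G2 H H' H'' c s v δ y.1 y.2 ∂(μs δ) := by
  have hHc : Continuous H := by
    rw [continuous_iff_continuousAt]
    exact fun y => (h1 y).continuousAt
  have hHc' : Continuous H' := by
    rw [continuous_iff_continuousAt]
    exact fun y => (h2 y).continuousAt
  have hG : Continuous (fun y : ℝ × ℝ => G2 H H' H'' c s v δ y.1 y.2) := by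
    unfold G2
    fun_prop
  have hint : Integrable (fun y : ℝ × ℝ => G2 H H' H'' c s v δ y.1 y.2) (μs δ) := by
    have h := hG.continuousOn (s := Icc 0 δ ×ˢ Icc 0 δ) |>.integrableOn_compact
      (μ := (volume : Measure (ℝ × ℝ))) (isCompact_Icc.prod isCompact_Icc)
    exact h.mono_set (prod_mono Ioc_subset_Icc_self Ioc_subset_Icc_self)
  have e := ftc2 h1 h2 hc hδ c s v
  rw [e]
  have hprod : μs δ = (volume.restrict (Ioc 0 δ)).prod (volume.restrict (Ioc 0 δ)) := by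
    unfold μs
    rw [Measure.prod_restrict, ← Measure.volume_eq_prod]
  rw [hprod] at hint ⊢
  rw [integral_prod _ hint]
  simp only [intervalIntegral.integral_of_le hδ.le]
  rw [integral_const_mul]
  ring

end Pool.Agent.Ray
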