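import Pool.Agent.Ray.Amp2

/-!
# Pointwise bound of the oscillatory integral by averages over a small square
-/

open MeasureTheory Set Filter Real
open scoped ENNReal NNReal Topology

namespace Pool.Agent.Ray

open Pool.Agent.Restr

/-- the four kernels -/
noncomputable def ph (θ : ℝ → ℝ) (j : Fin 4) : ℝ → ℝ :=
  if j = 0 then θ else if j = 3 then deriv (deriv θ) else deriv θ

theorem ph_bmp {θ : ℝ → ℝ} (hθ : Bmp θ) (j : Fin 4) : Bmp (ph θ j) := by
  unfold ph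
  split_ifs
  · exact hθ
  · exact hθ.deriv.deriv
  · exact hθ.deriv

/-- the four angular multipliers -/
noncomputable def mm (j : Fin 4) (ω : ℝ) : ℝ :=
  if j = 0 then 1 else if j = 1 then cos ω else if j = 2 then sin ω else cos ω * sin ω

theorem continuous_mm (j : Fin 4) : Continuous (mm j) := by
  unfold mm
  split_ifs <;> fun_prop

theorem mm_le (j : Fin 4) (ω : ℝ) : |mm j ω| ≤ 1 := by
  unfold mm
  split_ifs
  · simp
  · exact Real.abs_cos_le_one ω
  · exact Real.abs_sin_le_one ω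
  · rw [abs_mul]
    exact mul_le_one₀ (Real.abs_cos_le_one ω) (abs_nonneg _) (Real.abs_sin_le_one ω)

/-- the four coefficients -/
noncomputable def ca (N : ℝ) (j : Fin 4) (y : ℝ × ℝ) : ℝ :=
  if j = 0 then 1 else if j = 1 then -(1 - N * y.1) else if j = 2 then -(1 - N * y.2) else
    (1 - N * y.1) * (1 - N * y.2)

theorem continuous_ca (N : ℝ) (j : Fin 4) : Continuous (ca N j) := by
  unfold ca
  split_ifs <;> fun_prop

theorem ca_le {N : ℝ} (hN : 0 < N) (j : Fin 4) {y : ℝ × ℝ}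
    (hy : y ∈ Ioc 0 N⁻¹ ×ˢ Ioc (0 : ℝ) N⁻¹) : |ca N j y| ≤ 1 := by
  have h : ∀ a : ℝ, a ∈ Ioc 0 N⁻¹ → |1 - N * a| ≤ 1 := by
    intro a ha
    have h1 : N * a ≤ 1 := by
      have := mul_le_mul_of_nonneg_left ha.2 hN.le
      rwa [mul_inv_cancel₀ hN.ne'] at this
    have h2 : 0 ≤ N * a := mul_nonneg hN.le ha.1.le
    rw [abs_le]
    constructor <;> linarith
  unfold ca
  split_ifs
  · simp
  · rw [abs_neg]
    exact h _ hy.1
  · rw [abs_neg]
    exact h _ hy.2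
  · rw [abs_mul]
    exact mul_le_one₀ (h _ hy.1) (abs_nonneg _) (h _ hy.2)

/-- the amplitude pieces as functions of the angle -/
noncomputable def Aj (θ : ℝ → ℝ) (τ N : ℝ) (g : ℝ × ℝ → ℂ) (j : Fin 4) (X : ℝ × ℝ) (ω : ℝ) : ℂ :=
  (mm j ω : ℂ) * Hf (ph θ j) τ N g (X.1 * cos ω + X.2 * sin ω) ω

theorem measurable_Aj {θ : ℝ → ℝ} (hθ : Bmp θ) (τ N : ℝ) {g : ℝ × ℝ → ℂ} (hg : Adm g)
    (j : Fin 4) : Measurable (fun p : (ℝ × ℝ) × ℝ => Aj θ τ N g j p.1 p.2) := by
  have h1 := measurable_Hf (ph_bmp hθ j) τ N hg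
  have h2 := continuous_mm j
  unfold Aj
  refine Measurable.mul ?_ (h1.comp (by fun_prop : Measurable fun p : (ℝ × ℝ) × ℝ =>
    (p.1.1 * cos p.2 + p.1.2 * sin p.2, p.2)))
  exact (Complex.continuous_ofReal.comp (h2.comp continuous_snd)).measurable

theorem measurable_Aj' {θ : ℝ → ℝ} (hθ : Bmp θ) (τ N : ℝ) {g : ℝ × ℝ → ℂ} (hg : Adm g)
    (j : Fin 4) {α : Type*} [MeasurableSpace α] {F : α → ℝ × ℝ} {G : α → ℝ} (hF : Measurable F)
    (hG : Measurable G) : Measurable (fun a => Aj θ τ N g j (F a) (G a)) := by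
  have h := (measurable_Aj hθ τ N hg j).comp (hF.prodMk hG)
  exact h

theorem Aj_bound {θ : ℝ → ℝ} (hθ : Bmp θ) {τ : ℝ} (hτ : τ ≠ 0) (N : ℝ) {g : ℝ × ℝ → ℂ}
    (hg : Adm g) : ∃ B : ℝ, ∀ j X ω, ‖Aj θ τ N g j X ω‖ ≤ B := by
  choose B hB using fun j => Hf_bound (ph_bmp hθ j) hτ N hg
  refine ⟨∑ j, |B j|, fun j X ω => ?_⟩
  unfold Aj
  rw [norm_mul, Complex.norm_real, Real.norm_eq_abs]
  calc |mm j ω| * ‖Hf (ph θ j) τ N g (X.1 * cos ω + X.2 * sin ω) ω‖ ≤ 1 * |B j| :=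
        mul_le_mul (mm_le j ω) ((hB j _ _).trans (le_abs_self _)) (norm_nonneg _) zero_le_one
    _ = |B j| := one_mul _
    _ ≤ _ := Finset.single_le_sum (f := fun j => |B j|) (fun i _ => abs_nonneg _)
        (Finset.mem_univ j)

/-- The representation of the frozen amplitude. -/
theorem Hf_eq {θ : ℝ → ℝ} (hθ : Bmp θ) {τ : ℝ} (hτ : τ ≠ 0) {N : ℝ} (hN : 0 < N)
    {g : ℝ × ℝ → ℂ} (hg : Adm g) (X : ℝ × ℝ) (ω : ℝ) :
    Hf θ τ N g (X.1 * cos ω + X.2 * sin ω) ω = (N : ℂ) ^ 2 * ∫ y : ℝ × ℝ,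
      ∑ j, (ca N j y : ℂ) * Aj θ τ N g j (X + y) ω ∂(μs N⁻¹) := by
  have hd := hθ.deriv
  have hdd := hd.deriv
  have hNC : (N : ℂ) ≠ 0 := by exact_mod_cast hN.ne'
  set H : ℝ → ℂ := fun v => Hf θ τ N g v ω with hH
  set H' : ℝ → ℂ := fun v => N * Hf (deriv θ) τ N g v ω with hH'
  set H'' : ℝ → ℂ := fun v => N * (N * Hf (deriv (deriv θ)) τ N g v ω) with hH''
  have h1 : ∀ y, HasDerivAt H (H' y) y := fun y => hasDerivAt_Hf hθ hτ N hg y ω
  have h2 : ∀ y, HasDerivAt H' (H'' y) y := fun y =>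
    (hasDerivAt_Hf hd hτ N hg y ω).const_mul _
  have h3 : Continuous H'' := by
    have : Continuous (fun v => Hf (deriv (deriv θ)) τ N g v ω) := by
      rw [continuous_iff_continuousAt]
      exact fun y => (hasDerivAt_Hf hdd hτ N hg y ω).continuousAt
    fun_prop
  have e := ftc2_set h1 h2 h3 (inv_pos.2 hN) (cos ω) (sin ω) (X.1 * cos ω + X.2 * sin ω)
  have e0 : H (X.1 * cos ω + X.2 * sin ω) = Hf θ τ N g (X.1 * cos ω + X.2 * sin ω) ω := rfl
  rw [← e0, e]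
  have eN : (((N⁻¹ : ℝ) : ℂ)⁻¹) = (N : ℂ) := by push_cast; rw [inv_inv]
  rw [eN]
  congr 1
  refine integral_congr_ae (Eventually.of_forall fun y => ?_)
  simp only
  unfold G2
  have ev : X.1 * cos ω + X.2 * sin ω + cos ω * y.1 + sin ω * y.2 =
      (X + y).1 * cos ω + (X + y).2 * sin ω := by
    simp only [Prod.fst_add, Prod.snd_add]
    ring
  rw [ev, hH, hH', hH'']
  simp only [Fin.sum_univ_four, Aj, mm, ca, ph]
  have n1 : (1 : Fin 4) ≠ 0 := by decide
  have n2 : (2 : Fin 4) ≠ 0 := by decide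
  have n3 : (3 : Fin 4) ≠ 0 := by decide
  have n4 : (1 : Fin 4) ≠ 3 := by decide
  have n5 : (2 : Fin 4) ≠ 3 := by decide
  have n6 : (2 : Fin 4) ≠ 1 := by decide
  have n7 : (3 : Fin 4) ≠ 1 := by decide
  have n8 : (3 : Fin 4) ≠ 2 := by decide
  simp only [n1, n2, n3, n4, n5, n6, n7, n8, if_true, if_false]
  push_cast
  have hI : (N : ℂ) * (N : ℂ)⁻¹ = 1 := mul_inv_cancel₀ hNC
  generalize Hf θ τ N g ((X + y).1 * cos ω + (X + y).2 * sin ω) ω = a
  generalize Hf (deriv θ) τ N g ((X + y).1 * cos ω + (X + y).2 * sin ω) ω = b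
  generalize Hf (deriv (deriv θ)) τ N g ((X + y).1 * cos ω + (X + y).2 * sin ω) ω = d
  generalize Complex.cos ω = c
  generalize Complex.sin ω = s
  field_simp
  ring

theorem enorm_U_le {θ : ℝ → ℝ} (hθ : Bmp θ) {τ : ℝ} (hτ : τ ≠ 0) {N : ℝ} (hN : 0 < N)
    {g : ℝ × ℝ → ℂ} (hg : Adm g) (X z : ℝ × ℝ) :
    ‖U (fun ω => Hf θ τ N g (X.1 * cos ω + X.2 * sin ω) ω) z‖ₑ ≤
      ENNReal.ofReal (N ^ 2) * ∫⁻ y, ∑ j, ‖U (Aj θ τ N g j (X + y)) z‖ₑ ∂(μs N⁻¹) := by
  obtain ⟨B, hB⟩ := Aj_bound hθ hτ N hg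
  have hB0 : 0 ≤ B := (norm_nonneg _).trans (hB 0 0 0)
  set E : ℝ → ℂ := fun ω => u (z.1 * cos (2 * ω) + z.2 * sin (2 * ω)) with hE
  have hEc : Continuous E := continuous_u.comp (by fun_prop)
  have hEn : ∀ ω, ‖E ω‖ = 1 := fun ω => norm_u _
  have hmeas : Measurable (fun p : ℝ × (ℝ × ℝ) =>
      E p.1 * ∑ j, (ca N j p.2 : ℂ) * Aj θ τ N g j (X + p.2) p.1) := by
    have m0 : Measurable (fun p : ℝ × (ℝ × ℝ) => E p.1) := hEc.measurable.comp measurable_fst
    have m1 : ∀ j : Fin 4, Measurable (fun p : ℝ × (ℝ × ℝ) =>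
        (ca N j p.2 : ℂ) * Aj θ τ N g j (X + p.2) p.1) := by
      intro j
      have a1 : Measurable (fun p : ℝ × (ℝ × ℝ) => (ca N j p.2 : ℂ)) :=
        (Complex.continuous_ofReal.comp ((continuous_ca N j).comp continuous_snd)).measurable
      have a2 : Measurable (fun p : ℝ × (ℝ × ℝ) => Aj θ τ N g j (X + p.2) p.1) :=
        measurable_Aj' hθ τ N hg j (measurable_snd.const_add X) measurable_fst
      exact a1.mul a2
    have m2 : Measurable (fun p : ℝ × (ℝ × ℝ) =>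
        ∑ j, (ca N j p.2 : ℂ) * Aj θ τ N g j (X + p.2) p.1) :=
      Finset.measurable_fun_sum _ fun j _ => m1 j
    exact m0.mul m2
  have hN1 := inv_pos.2 hN
  have hae : ∀ᵐ y ∂(μs N⁻¹), ∀ j, |ca N j y| ≤ 1 := by
    unfold μs
    rw [ae_restrict_iff' (measurableSet_Ioc.prod measurableSet_Ioc)]
    exact Eventually.of_forall fun y hy j => ca_le hN j hy
  have hint : Integrable (Function.uncurry fun (ω : ℝ) (y : ℝ × ℝ) =>
      E ω * ∑ j, (ca N j y : ℂ) * Aj θ τ N g j (X + y) ω) (μc.prod (μs N⁻¹)) := by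
    refine Integrable.of_bound hmeas.aestronglyMeasurable (4 * B) ?_
    have h2 : ∀ᵐ p : ℝ × (ℝ × ℝ) ∂(μc.prod (μs N⁻¹)), ∀ j, |ca N j p.2| ≤ 1 :=
      Measure.quasiMeasurePreserving_snd.ae hae
    filter_upwards [h2] with p hp
    simp only [Function.uncurry]
    rw [norm_mul, hEn, one_mul]
    refine (norm_sum_le _ _).trans ?_
    calc ∑ j, ‖(ca N j p.2 : ℂ) * Aj θ τ N g j (X + p.2) p.1‖ ≤ ∑ _j : Fin 4, B := by
          refine Finset.sum_le_sum fun j _ => ?_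
          rw [norm_mul, Complex.norm_real, Real.norm_eq_abs]
          calc |ca N j p.2| * ‖Aj θ τ N g j (X + p.2) p.1‖ ≤ 1 * B :=
                mul_le_mul (hp j) (hB _ _ _) (norm_nonneg _) zero_le_one
            _ = B := one_mul B
      _ = 4 * B := by simp
  have key : U (fun ω => Hf θ τ N g (X.1 * cos ω + X.2 * sin ω) ω) z =
      (N : ℂ) ^ 2 * ∫ y, ∑ j, (ca N j y : ℂ) * U (Aj θ τ N g j (X + y)) z ∂(μs N⁻¹) := by
    have e1 : U (fun ω => Hf θ τ N g (X.1 * cos ω + X.2 * sin ω) ω) z =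
        (N : ℂ) ^ 2 * ∫ ω, ∫ y, E ω * ∑ j, (ca N j y : ℂ) * Aj θ τ N g j (X + y) ω
          ∂(μs N⁻¹) ∂μc := by
      unfold U
      rw [← integral_const_mul]
      refine integral_congr_ae (Eventually.of_forall fun ω => ?_)
      simp only
      rw [Hf_eq hθ hτ hN hg, integral_const_mul]
      simp only [hE]
      ring
    rw [e1, integral_integral_swap hint]
    congr 1
    refine integral_congr_ae (Eventually.of_forall fun y => ?_)
    simp only
    unfold U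
    rw [← integral_congr_ae (Eventually.of_forall fun ω => (Finset.mul_sum _ _ _).symm)]
    rw [integral_finsetSum]
    · refine Finset.sum_congr rfl fun j _ => ?_
      rw [← integral_const_mul]
      refine integral_congr_ae (Eventually.of_forall fun ω => ?_)
      simp only [hE]
      ring
    · intro j _
      refine Integrable.of_bound (C := |ca N j y| * B) ?_ (Eventually.of_forall fun ω => ?_)
      · have m1 : Measurable (fun ω => Aj θ τ N g j (X + y) ω) :=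
          measurable_Aj' hθ τ N hg j measurable_const measurable_id
        exact (hEc.measurable.mul (measurable_const.mul m1)).aestronglyMeasurable
      · rw [norm_mul, hEn, one_mul, norm_mul, Complex.norm_real, Real.norm_eq_abs]
        gcongr
        exact hB _ _ _
  rw [key, enorm_mul]
  have eN : ‖(N : ℂ) ^ 2‖ₑ = ENNReal.ofReal (N ^ 2) := by
    rw [← ofReal_norm, norm_pow, Complex.norm_real, Real.norm_eq_abs, sq_abs]
  rw [eN]
  gcongr
  refine (enorm_integral_le_lintegral_enorm _).trans ?_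
  refine lintegral_mono_ae ?_
  filter_upwards [hae] with y hy
  refine (enorm_sum_le _ _).trans (Finset.sum_le_sum fun j _ => ?_)
  rw [enorm_mul]
  calc ‖(ca N j y : ℂ)‖ₑ * ‖U (Aj θ τ N g j (X + y)) z‖ₑ ≤ 1 * ‖U (Aj θ τ N g j (X + y)) z‖ₑ := by
        gcongr
        rw [← ofReal_norm, Complex.norm_real, Real.norm_eq_abs, ← ENNReal.ofReal_one]
        exact ENNReal.ofReal_le_ofReal (hy j)
    _ = _ := one_mul _

end Pool.Agent.Ray
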