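import Mathlib

/-!
# The change of variables by the complex square
-/

open MeasureTheory Set Filter Real
open scoped ENNReal NNReal Topology

namespace Pool.Agent.Ray

/-- complex square times `c` -/
def sqm (c : ℝ) (Y : ℝ × ℝ) : ℝ × ℝ := (c * (Y.1 ^ 2 - Y.2 ^ 2), c * (2 * Y.1 * Y.2))

theorem continuous_sqm (c : ℝ) : Continuous (sqm c) := by
  unfold sqm
  fun_prop

/-- its derivative -/
noncomputable def dsqm (c : ℝ) (Y : ℝ × ℝ) : ℝ × ℝ →L[ℝ] ℝ × ℝ :=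
  (Matrix.toLin (Module.Basis.finTwoProd ℝ) (Module.Basis.finTwoProd ℝ)
    !![c * (2 * Y.1), -(c * (2 * Y.2)); c * (2 * Y.2), c * (2 * Y.1)]).toContinuousLinearMap

theorem hasFDerivAt_sqm (c : ℝ) (Y : ℝ × ℝ) : HasFDerivAt (sqm c) (dsqm c Y) Y := by
  unfold dsqm
  rw [Matrix.toLin_finTwoProd_toContinuousLinearMap]
  have h1 : HasFDerivAt (fun Y : ℝ × ℝ => Y.1) (ContinuousLinearMap.fst ℝ ℝ ℝ) Y := hasFDerivAt_fst
  have h2 : HasFDerivAt (fun Y : ℝ × ℝ => Y.2) (ContinuousLinearMap.snd ℝ ℝ ℝ) Y := hasFDerivAt_snd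
  have k1 := ((h1.mul h1).sub (h2.mul h2)).const_mul c
  have k2 := ((h1.mul h2).const_mul 2).const_mul c
  have k := k1.prodMk k2
  unfold sqm
  refine (k.congr_fderiv ?_).congr_of_eventuallyEq (Eventually.of_forall fun x => ?_)
  · ext <;> simp <;> first | ring1 | (left; ring1)
  · simp only [Pi.sub_apply, Pi.mul_apply]
    ext
    · simp only
      ring
    · simp only
      ring

theorem det_dsqm (c : ℝ) (Y : ℝ × ℝ) : (dsqm c Y).det = 4 * c ^ 2 * (Y.1 ^ 2 + Y.2 ^ 2) := by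
  unfold dsqm
  simp only [LinearMap.det_toContinuousLinearMap, LinearMap.det_toLin, Matrix.det_fin_two_of]
  ring

theorem injOn_sqm {c : ℝ} (hc : c ≠ 0) : InjOn (sqm c) {Y : ℝ × ℝ | 0 < Y.1} := by
  intro Y hY Z hZ h
  simp only [mem_ofPred_eq] at hY hZ
  unfold sqm at h
  rw [Prod.mk.injEq] at h
  obtain ⟨h1, h2⟩ := h
  have e1 := mul_left_cancel₀ hc h1
  have e2 := mul_left_cancel₀ hc h2
  have e3 : Y.1 * Y.2 = Z.1 * Z.2 := by linarith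
  have e4 : (Y.1 ^ 2 - Z.1 ^ 2) * (Y.1 ^ 2 + Z.2 ^ 2) = 0 := by
    have : Y.1 ^ 2 * Y.2 ^ 2 = Z.1 ^ 2 * Z.2 ^ 2 := by
      calc Y.1 ^ 2 * Y.2 ^ 2 = (Y.1 * Y.2) ^ 2 := by ring
        _ = (Z.1 * Z.2) ^ 2 := by rw [e3]
        _ = _ := by ring
    nlinarith
  have e5 : Y.1 ^ 2 = Z.1 ^ 2 := by
    rcases mul_eq_zero.1 e4 with h5 | h5
    · linarith
    · nlinarith [sq_nonneg Y.1, sq_nonneg Z.2, mul_pos hY hY]
  have e6 : Y.1 = Z.1 := by
    nlinarith [mul_pos hY hZ]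
  have e7 : Y.2 = Z.2 := by
    rw [e6] at e3
    exact mul_left_cancel₀ hZ.ne' e3
  exact Prod.ext e6 e7

theorem cov_half {c : ℝ} (hc : c ≠ 0) (G : ℝ × ℝ → ℝ≥0∞) :
    ∫⁻ Y in {Y : ℝ × ℝ | 0 < Y.1}, ENNReal.ofReal (4 * c ^ 2 * (Y.1 ^ 2 + Y.2 ^ 2)) * G (sqm c Y) ≤
      ∫⁻ z, G z := by
  have hs : MeasurableSet {Y : ℝ × ℝ | 0 < Y.1} := measurableSet_lt measurable_const measurable_fst
  have h := lintegral_image_eq_lintegral_abs_det_fderiv_mul volume hs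
    (fun Y _ => (hasFDerivAt_sqm c Y).hasFDerivWithinAt) (injOn_sqm hc) G
  have e : ∫⁻ Y in {Y : ℝ × ℝ | 0 < Y.1}, ENNReal.ofReal (4 * c ^ 2 * (Y.1 ^ 2 + Y.2 ^ 2)) *
      G (sqm c Y) = ∫⁻ x in {Y : ℝ × ℝ | 0 < Y.1}, ENNReal.ofReal |(dsqm c x).det| *
      G (sqm c x) := by
    refine lintegral_congr fun Y => ?_
    rw [det_dsqm, abs_of_nonneg (by positivity)]
  rw [e, ← h]
  exact setLIntegral_le_lintegral _ _

theorem cov_sq {c : ℝ} (hc : c ≠ 0) {G : ℝ × ℝ → ℝ≥0∞} (hG : Measurable G) :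
    ∫⁻ Y : ℝ × ℝ, ENNReal.ofReal (4 * c ^ 2 * (Y.1 ^ 2 + Y.2 ^ 2)) * G (sqm c Y) ≤
      2 * ∫⁻ z, G z := by
  set F : ℝ × ℝ → ℝ≥0∞ := fun Y => ENNReal.ofReal (4 * c ^ 2 * (Y.1 ^ 2 + Y.2 ^ 2)) *
    G (sqm c Y) with hF
  have hFm : Measurable F :=
    (by fun_prop : Measurable fun Y : ℝ × ℝ => ENNReal.ofReal
      (4 * c ^ 2 * (Y.1 ^ 2 + Y.2 ^ 2))).mul (hG.comp (continuous_sqm c).measurable)
  have hs : MeasurableSet {Y : ℝ × ℝ | 0 < Y.1} := measurableSet_lt measurable_const measurable_fst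
  have hneg : ∀ Y, F (-Y) = F Y := by
    intro Y
    simp only [hF, sqm, Prod.fst_neg, Prod.snd_neg]
    ring_nf
  have h1 := lintegral_add_compl F hs (μ := volume)
  have h2 : ∫⁻ Y in {Y : ℝ × ℝ | 0 < Y.1}ᶜ, F Y = ∫⁻ Y in {Y : ℝ × ℝ | 0 < Y.1}, F Y := by
    have e1 : ∫⁻ Y in {Y : ℝ × ℝ | 0 < Y.1}ᶜ, F Y = ∫⁻ Y in {Y : ℝ × ℝ | Y.1 < 0}, F Y := by
      refine setLIntegral_congr ?_
      have hz : volume {Y : ℝ × ℝ | Y.1 = 0} = 0 := by
        have : {Y : ℝ × ℝ | Y.1 = 0} = ({0} : Set ℝ) ×ˢ univ := by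
          ext Y
          simp
        rw [this, Measure.volume_eq_prod, Measure.prod_prod]
        simp
      refine (ae_eq_set).2 ⟨?_, ?_⟩
      · refine measure_mono_null ?_ hz
        rintro Y ⟨hY1, hY2⟩
        simp only [mem_compl_iff, mem_ofPred_eq, not_lt] at hY1 hY2 ⊢
        linarith
      · have : {Y : ℝ × ℝ | Y.1 < 0} \ {Y : ℝ × ℝ | 0 < Y.1}ᶜ = ∅ := by
          ext Y
          simp only [Set.mem_sdiff, mem_compl_iff, mem_ofPred_eq, mem_empty_iff_false, iff_false,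
            not_and, not_not]
          intro h
          exact not_lt.2 h.le
        rw [this]
        simp
    rw [e1]
    have e2 : ∫⁻ Y in {Y : ℝ × ℝ | Y.1 < 0}, F Y =
        ∫⁻ Y, ({Y : ℝ × ℝ | 0 < Y.1}.indicator F) (-Y) := by
      rw [← lintegral_indicator (measurableSet_lt measurable_fst measurable_const)]
      refine lintegral_congr fun Y => ?_
      by_cases h : Y.1 < 0
      · rw [indicator_of_mem (show Y ∈ {Y : ℝ × ℝ | Y.1 < 0} from h),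
          indicator_of_mem (show -Y ∈ {Y : ℝ × ℝ | 0 < Y.1} by simpa using h), hneg]
      · rw [indicator_of_notMem (show Y ∉ {Y : ℝ × ℝ | Y.1 < 0} from h),
          indicator_of_notMem (show -Y ∉ {Y : ℝ × ℝ | 0 < Y.1} by simpa using h)]
    rw [e2, lintegral_neg_eq_self, lintegral_indicator hs]
  rw [← h1, h2, ← two_mul]
  exact mul_le_mul' le_rfl (cov_half hc G)

end Pool.Agent.Ray
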