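import Pool.Agent.Ray.Amp3
import Pool.Agent.Ray.Cov

/-!
# The fourth power bound for fixed time, away from the centre
-/

open MeasureTheory Set Filter Real
open scoped ENNReal NNReal Topology

namespace Pool.Agent.Ray

open Pool.Agent.Restr

theorem measurable_UA {θ : ℝ → ℝ} (hθ : Bmp θ) (τ N : ℝ) {g : ℝ × ℝ → ℂ} (hg : Adm g)
    (j : Fin 4) : Measurable (fun w : (ℝ × ℝ) × (ℝ × ℝ) => U (Aj θ τ N g j w.1) w.2) := by
  unfold U
  have : StronglyMeasurable (fun w : (ℝ × ℝ) × (ℝ × ℝ) =>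
      ∫ ω, u (w.2.1 * cos (2 * ω) + w.2.2 * sin (2 * ω)) * Aj θ τ N g j w.1 ω ∂μc) := by
    apply StronglyMeasurable.integral_prod_right
      (f := fun (w : (ℝ × ℝ) × (ℝ × ℝ)) (ω : ℝ) =>
        u (w.2.1 * cos (2 * ω) + w.2.2 * sin (2 * ω)) * Aj θ τ N g j w.1 ω)
    apply Measurable.stronglyMeasurable
    exact (measurable_u.comp (by fun_prop)).mul
      (measurable_Aj' hθ τ N hg j (by fun_prop) measurable_snd)
  exact this.measurable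

theorem measurable_UA' {θ : ℝ → ℝ} (hθ : Bmp θ) (τ N : ℝ) {g : ℝ × ℝ → ℂ} (hg : Adm g)
    (j : Fin 4) {α : Type*} [MeasurableSpace α] {F G : α → ℝ × ℝ} (hF : Measurable F)
    (hG : Measurable G) : Measurable (fun a => ‖U (Aj θ τ N g j (F a)) (G a)‖ₑ ^ 4) :=
  (((measurable_UA hθ τ N hg j).comp (hF.prodMk hG)).enorm).pow_const 4

theorem sum4_pow (a : Fin 4 → ℝ≥0∞) : (∑ j, a j) ^ 4 ≤ 64 * ∑ j, a j ^ 4 := by
  have h := ENNReal.rpow_sum_le_const_mul_sum_rpow Finset.univ a (p := 4) (by norm_num)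
  have e : ∀ x : ℝ≥0∞, x ^ (4 : ℝ) = x ^ 4 := by
    intro x
    rw [show (4 : ℝ) = ((4 : ℕ) : ℝ) by norm_num, ENNReal.rpow_natCast]
  simp only [e, Finset.card_univ, Fintype.card_fin] at h
  refine h.trans (le_of_eq ?_)
  congr 1
  rw [show (4 : ℝ) - 1 = ((3 : ℕ) : ℝ) by norm_num, ENNReal.rpow_natCast]
  norm_num

/-- pointwise fourth power bound -/
theorem point4 {θ : ℝ → ℝ} (hθ : Bmp θ) {τ : ℝ} (hτ : τ ≠ 0) {N : ℝ} (hN : 0 < N)
    {g : ℝ × ℝ → ℂ} (hg : Adm g) (X z : ℝ × ℝ) :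
    ‖U (fun ω => Hf θ τ N g (X.1 * cos ω + X.2 * sin ω) ω) z‖ₑ ^ 4 ≤
      ENNReal.ofReal (64 * N ^ 2) * ∑ j, ∫⁻ y, ‖U (Aj θ τ N g j (X + y)) z‖ₑ ^ 4 ∂(μs N⁻¹) := by
  have h1 := enorm_U_le hθ hτ hN hg X z
  have hm : ∀ j, Measurable (fun y : ℝ × ℝ => ‖U (Aj θ τ N g j (X + y)) z‖ₑ) := fun j =>
    ((measurable_UA hθ τ N hg j).comp ((measurable_id.const_add X).prodMk measurable_const)).enorm
  have hms : Measurable (fun y : ℝ × ℝ => ∑ j, ‖U (Aj θ τ N g j (X + y)) z‖ₑ) :=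
    Finset.measurable_fun_sum _ fun j _ => hm j
  have h2 := pow4_le (μs N⁻¹) hms.aemeasurable
  rw [μs_univ (inv_pos.2 hN)] at h2
  calc ‖U (fun ω => Hf θ τ N g (X.1 * cos ω + X.2 * sin ω) ω) z‖ₑ ^ 4
      ≤ (ENNReal.ofReal (N ^ 2) * ∫⁻ y, ∑ j, ‖U (Aj θ τ N g j (X + y)) z‖ₑ ∂(μs N⁻¹)) ^ 4 := by
        gcongr
    _ = ENNReal.ofReal (N ^ 2) ^ 4 *
        (∫⁻ y, ∑ j, ‖U (Aj θ τ N g j (X + y)) z‖ₑ ∂(μs N⁻¹)) ^ 4 := mul_pow _ _ _
    _ ≤ ENNReal.ofReal (N ^ 2) ^ 4 * (ENNReal.ofReal (N⁻¹ ^ 2) ^ 3 *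
        ∫⁻ y, 64 * ∑ j, ‖U (Aj θ τ N g j (X + y)) z‖ₑ ^ 4 ∂(μs N⁻¹)) := by
        gcongr
        refine h2.trans ?_
        gcongr
        exact sum4_pow _
    _ = _ := by
        rw [lintegral_const_mul _ (Finset.measurable_fun_sum _ fun j _ => (hm j).pow_const 4),
          lintegral_finsetSum _ (fun j _ => (hm j).pow_const 4), ← mul_assoc, ← mul_assoc]
        congr 1
        rw [← ENNReal.ofReal_pow (by positivity), ← ENNReal.ofReal_pow (by positivity),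
          ← ENNReal.ofReal_mul (by positivity), show (64 : ℝ≥0∞) = ENNReal.ofReal 64 by norm_num,
          ← ENNReal.ofReal_mul (by positivity)]
        congr 1
        field_simp

end Pool.Agent.Ray
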