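import Pool.Agent.Ray.Amp4
import Pool.Agent.Restr.Trunc

/-!
# The fourth power bound for fixed time, away from the centre: integration
-/

open MeasureTheory Set Filter Real
open scoped ENNReal NNReal Topology

namespace Pool.Agent.Ray

open Pool.Agent.Restr

theorem far_geom {X y : ℝ × ℝ} {N : ℝ} (hN : 64 ≤ N)
    (hy : y ∈ Ioc 0 N⁻¹ ×ˢ Ioc (0 : ℝ) N⁻¹)
    (h : 1 / 64 ≤ (X - y).1 ^ 2 + (X - y).2 ^ 2) :
    1 / 256 ≤ X.1 ^ 2 + X.2 ^ 2 ∧ X.1 ^ 2 + X.2 ^ 2 ≤ 3 * ((X - y).1 ^ 2 + (X - y).2 ^ 2) ∧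
      (X - y).1 ^ 2 + (X - y).2 ^ 2 ≤ 4 * (X.1 ^ 2 + X.2 ^ 2) := by
  have hN1 : N⁻¹ ≤ 1 / 64 := by
    rw [one_div]
    exact inv_anti₀ (by norm_num) hN
  have h1 : y.1 ^ 2 ≤ 1 / 4096 := by
    have a1 := hy.1.1
    have a2 := hy.1.2.trans hN1
    nlinarith
  have h2 : y.2 ^ 2 ≤ 1 / 4096 := by
    have a1 := hy.2.1
    have a2 := hy.2.2.trans hN1
    nlinarith
  simp only [Prod.fst_sub, Prod.snd_sub] at h ⊢
  have k1 : (X.1 - y.1) ^ 2 ≤ 2 * X.1 ^ 2 + 2 * y.1 ^ 2 := by nlinarith [sq_nonneg (X.1 + y.1)]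
  have k2 : (X.2 - y.2) ^ 2 ≤ 2 * X.2 ^ 2 + 2 * y.2 ^ 2 := by nlinarith [sq_nonneg (X.2 + y.2)]
  have k3 : X.1 ^ 2 ≤ 2 * (X.1 - y.1) ^ 2 + 2 * y.1 ^ 2 := by
    nlinarith [sq_nonneg (X.1 - y.1 - y.1)]
  have k4 : X.2 ^ 2 ≤ 2 * (X.2 - y.2) ^ 2 + 2 * y.2 ^ 2 := by
    nlinarith [sq_nonneg (X.2 - y.2 - y.2)]
  refine ⟨?_, ?_, ?_⟩ <;> linarith

/-- the region away from the centre -/
def farS : Set (ℝ × ℝ) := {Y : ℝ × ℝ | 1 / 64 ≤ Y.1 ^ 2 + Y.2 ^ 2}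

theorem measurableSet_farS : MeasurableSet farS :=
  measurableSet_le measurable_const (by fun_prop)

/-- the weight -/
noncomputable def wt (ε c C ρ : ℝ) : ℝ≥0∞ :=
  if 1 / 256 ≤ ρ then ENNReal.ofReal (3 / (2 * c ^ 2 * ρ) * (C * ((512 * |c| * ρ) ^ 2) ^ ε)) else 0

theorem measurable_wt (ε c C : ℝ) : Measurable (wt ε c C) := by
  unfold wt
  refine Measurable.ite (measurableSet_le measurable_const measurable_id) ?_ measurable_const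
  fun_prop

theorem inner_far {C ε : ℝ} (hC : 0 < C)
    (hcirc : ∀ F : ℝ → ℂ, Measurable F → ∀ M : ℝ, 1 ≤ M →
      ∫⁻ z in {z : ℝ × ℝ | z.1 ^ 2 + z.2 ^ 2 ≤ M}, ‖U F z‖ₑ ^ 4 ≤
        ENNReal.ofReal (C * M ^ ε) * ∫⁻ ω, ‖F ω‖ₑ ^ 4 ∂μc)
    {F : ℝ → ℂ} (hF : Measurable F) {c : ℝ} (hc : 1 / 2 ≤ |c|) {N : ℝ} (hN : 64 ≤ N)
    (X : ℝ × ℝ) :
    ∫⁻ y, farS.indicator (fun Y => ‖U F (sqm c Y)‖ₑ ^ 4) (X - y) ∂(μs N⁻¹) ≤
      wt ε c C (X.1 ^ 2 + X.2 ^ 2) * ∫⁻ ω, ‖F ω‖ₑ ^ 4 ∂μc := by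
  have hc0 : 0 < |c| := by linarith
  have hcn : c ≠ 0 := abs_pos.1 hc0
  have hc2 : 0 < c ^ 2 := by positivity
  set ρ := X.1 ^ 2 + X.2 ^ 2 with hρ
  have hms : MeasurableSet (Ioc 0 N⁻¹ ×ˢ Ioc (0 : ℝ) N⁻¹) :=
    measurableSet_Ioc.prod measurableSet_Ioc
  unfold wt
  split_ifs with hρ1
  · have hρ0 : 0 < ρ := by linarith
    set M : ℝ := (512 * |c| * ρ) ^ 2 with hM
    have hM1 : 1 ≤ M := by
      have h1 : 1 ≤ 512 * |c| * ρ := by nlinarith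
      rw [hM]
      exact one_le_pow₀ h1
    set G : ℝ × ℝ → ℝ≥0∞ := {z : ℝ × ℝ | z.1 ^ 2 + z.2 ^ 2 ≤ M}.indicator
      (fun z => ‖U F z‖ₑ ^ 4) with hG
    have hset : MeasurableSet {z : ℝ × ℝ | z.1 ^ 2 + z.2 ^ 2 ≤ M} :=
      measurableSet_le (by fun_prop) measurable_const
    have hGm : Measurable G := ((measurable_U hF).enorm.pow_const 4).indicator hset
    set K : ℝ × ℝ → ℝ≥0∞ := fun Y => ENNReal.ofReal (3 / (4 * c ^ 2 * ρ)) *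
      (ENNReal.ofReal (4 * c ^ 2 * (Y.1 ^ 2 + Y.2 ^ 2)) * G (sqm c Y)) with hK
    have h1 : ∀ y ∈ Ioc 0 N⁻¹ ×ˢ Ioc (0 : ℝ) N⁻¹,
        farS.indicator (fun Y => ‖U F (sqm c Y)‖ₑ ^ 4) (X - y) ≤ K (X - y) := by
      intro y hy
      by_cases hf : X - y ∈ farS
      · obtain ⟨g1, g2, g3⟩ := far_geom hN hy hf
        rw [indicator_of_mem hf]
        set R := (X - y).1 ^ 2 + (X - y).2 ^ 2 with hR
        have hR0 : 0 ≤ R := by positivity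
        have e1 : G (sqm c (X - y)) = ‖U F (sqm c (X - y))‖ₑ ^ 4 := by
          rw [hG, indicator_of_mem]
          simp only [mem_ofPred_eq, sqm]
          have : (c * ((X - y).1 ^ 2 - (X - y).2 ^ 2)) ^ 2 + (c * (2 * (X - y).1 * (X - y).2)) ^ 2 =
              c ^ 2 * R ^ 2 := by rw [hR]; ring
          rw [this, hM, mul_pow, mul_pow, sq_abs]
          have hR2 : R ^ 2 ≤ (4 * ρ) ^ 2 := by gcongr
          nlinarith [mul_le_mul_of_nonneg_left hR2 hc2.le, mul_nonneg hc2.le (sq_nonneg ρ)]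
        rw [hK]
        simp only
        rw [e1, ← mul_assoc, ← ENNReal.ofReal_mul (by positivity)]
        have e2 : (1 : ℝ) ≤ 3 / (4 * c ^ 2 * ρ) * (4 * c ^ 2 * R) := by
          rw [div_mul_eq_mul_div, le_div_iff₀ (by positivity)]
          have : c ^ 2 * ρ ≤ c ^ 2 * (3 * R) := by gcongr
          linarith
        calc ‖U F (sqm c (X - y))‖ₑ ^ 4 = ENNReal.ofReal 1 * ‖U F (sqm c (X - y))‖ₑ ^ 4 := by
              rw [ENNReal.ofReal_one, one_mul]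
          _ ≤ _ := by gcongr
      · rw [indicator_of_notMem hf]
        exact bot_le
    have hcK : Measurable (fun Y : ℝ × ℝ => ENNReal.ofReal (4 * c ^ 2 * (Y.1 ^ 2 + Y.2 ^ 2)) *
        G (sqm c Y)) :=
      (by fun_prop : Measurable fun Y : ℝ × ℝ => ENNReal.ofReal
        (4 * c ^ 2 * (Y.1 ^ 2 + Y.2 ^ 2))).mul (hGm.comp (continuous_sqm c).measurable)
    calc ∫⁻ y, farS.indicator (fun Y => ‖U F (sqm c Y)‖ₑ ^ 4) (X - y) ∂(μs N⁻¹)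
        ≤ ∫⁻ y, K (X - y) ∂(μs N⁻¹) := setLIntegral_mono' hms h1
      _ ≤ ∫⁻ y, K (X - y) := setLIntegral_le_lintegral _ _
      _ = ∫⁻ Y, K Y := lintegral_sub_left_eq_self K X
      _ = ENNReal.ofReal (3 / (4 * c ^ 2 * ρ)) *
          ∫⁻ Y : ℝ × ℝ, (ENNReal.ofReal (4 * c ^ 2 * (Y.1 ^ 2 + Y.2 ^ 2)) * G (sqm c Y)) :=
          lintegral_const_mul _ hcK
      _ ≤ ENNReal.ofReal (3 / (4 * c ^ 2 * ρ)) * (2 * ∫⁻ z, G z) := by
          gcongr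
          exact cov_sq hcn hGm
      _ ≤ ENNReal.ofReal (3 / (4 * c ^ 2 * ρ)) * (2 *
          (ENNReal.ofReal (C * M ^ ε) * ∫⁻ ω, ‖F ω‖ₑ ^ 4 ∂μc)) := by
          gcongr
          rw [hG, lintegral_indicator hset]
          exact hcirc F hF M hM1
      _ = _ := by
          rw [show (2 : ℝ≥0∞) = ENNReal.ofReal 2 by norm_num, ← mul_assoc, ← mul_assoc,
            ← ENNReal.ofReal_mul (by positivity), ← ENNReal.ofReal_mul (by positivity)]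
          congr 2
          field_simp
          ring
  · have h1 : ∫⁻ y, farS.indicator (fun Y => ‖U F (sqm c Y)‖ₑ ^ 4) (X - y) ∂(μs N⁻¹) = 0 := by
      have : ∫⁻ y, farS.indicator (fun Y => ‖U F (sqm c Y)‖ₑ ^ 4) (X - y) ∂(μs N⁻¹) ≤
          ∫⁻ _ : ℝ × ℝ, 0 ∂(μs N⁻¹) := by
        refine setLIntegral_mono' hms fun y hy => ?_
        by_cases hf : X - y ∈ farS
        · obtain ⟨g1, _, _⟩ := far_geom hN hy hf
          exact absurd g1 hρ1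
        · rw [indicator_of_notMem hf]
      rw [lintegral_zero] at this
      exact le_antisymm this bot_le
    rw [h1]
    exact bot_le

/-- the oscillatory integral at fixed time -/
noncomputable def Ph (θ : ℝ → ℝ) (τ N c : ℝ) (g : ℝ × ℝ → ℂ) (X : ℝ × ℝ) : ℂ :=
  U (fun ω => Hf θ τ N g (X.1 * cos ω + X.2 * sin ω) ω) (sqm c X)

theorem far_step {C ε : ℝ} (hC : 0 < C)
    (hcirc : ∀ F : ℝ → ℂ, Measurable F → ∀ M : ℝ, 1 ≤ M →
      ∫⁻ z in {z : ℝ × ℝ | z.1 ^ 2 + z.2 ^ 2 ≤ M}, ‖U F z‖ₑ ^ 4 ≤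
        ENNReal.ofReal (C * M ^ ε) * ∫⁻ ω, ‖F ω‖ₑ ^ 4 ∂μc)
    {θ : ℝ → ℝ} (hθ : Bmp θ) {τ : ℝ} (hτ : τ ≠ 0) {c : ℝ} (hc : 1 / 2 ≤ |c|) {N : ℝ}
    (hN : 64 ≤ N) {g : ℝ × ℝ → ℂ} (hg : Adm g) :
    ∫⁻ X, farS.indicator (fun X => ‖Ph θ τ N c g X‖ₑ ^ 4) X ≤
      ENNReal.ofReal (64 * N ^ 2) * ∑ j, ∫⁻ X : ℝ × ℝ, wt ε c C (X.1 ^ 2 + X.2 ^ 2) *
        ∫⁻ ω, ‖Aj θ τ N g j X ω‖ₑ ^ 4 ∂μc := by
  have hN0 : 0 < N := by linarith
  set G : Fin 4 → ℝ × ℝ → ℝ × ℝ → ℝ≥0∞ := fun j Z Y =>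
    farS.indicator (fun Y => ‖U (Aj θ τ N g j Z) (sqm c Y)‖ₑ ^ 4) Y with hG
  have hGm : ∀ j, Measurable (fun w : (ℝ × ℝ) × (ℝ × ℝ) => G j w.1 w.2) := by
    intro j
    have h1 : Measurable (fun w : (ℝ × ℝ) × (ℝ × ℝ) =>
        ‖U (Aj θ τ N g j w.1) (sqm c w.2)‖ₑ ^ 4) :=
      measurable_UA' hθ τ N hg j measurable_fst ((continuous_sqm c).measurable.comp measurable_snd)
    have h2 : MeasurableSet {w : (ℝ × ℝ) × (ℝ × ℝ) | w.2 ∈ farS} :=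
      measurable_snd measurableSet_farS
    have h3 := h1.indicator h2
    have e : (fun w : (ℝ × ℝ) × (ℝ × ℝ) => G j w.1 w.2) =
        {w : (ℝ × ℝ) × (ℝ × ℝ) | w.2 ∈ farS}.indicator (fun w : (ℝ × ℝ) × (ℝ × ℝ) =>
        ‖U (Aj θ τ N g j w.1) (sqm c w.2)‖ₑ ^ 4) := by
      funext w
      simp only [hG]
      by_cases hw : w.2 ∈ farS
      · rw [indicator_of_mem hw, indicator_of_mem (show w ∈
          {w : (ℝ × ℝ) × (ℝ × ℝ) | w.2 ∈ farS} from hw)]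
      · rw [indicator_of_notMem hw, indicator_of_notMem (show w ∉
          {w : (ℝ × ℝ) × (ℝ × ℝ) | w.2 ∈ farS} from hw)]
    rw [e]
    exact h3
  have hGm' : ∀ j {α : Type} [MeasurableSpace α] {F H : α → ℝ × ℝ}, Measurable F →
      Measurable H → Measurable (fun a => G j (F a) (H a)) := by
    intro j α _ F H hF hH
    exact (hGm j).comp (hF.prodMk hH)
  have h1 : ∀ X, farS.indicator (fun X => ‖Ph θ τ N c g X‖ₑ ^ 4) X ≤
      ENNReal.ofReal (64 * N ^ 2) * ∑ j, ∫⁻ y, G j (X + y) X ∂(μs N⁻¹) := by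
    intro X
    by_cases hX : X ∈ farS
    · rw [indicator_of_mem hX]
      refine (point4 hθ hτ hN0 hg X (sqm c X)).trans (le_of_eq ?_)
      congr 1
      refine Finset.sum_congr rfl fun j _ => lintegral_congr fun y => ?_
      rw [hG]
      simp only
      rw [indicator_of_mem hX]
    · rw [indicator_of_notMem hX]
      exact bot_le
  have h2 : ∀ j, ∫⁻ X, ∫⁻ y, G j (X + y) X ∂(μs N⁻¹) ≤
      ∫⁻ X : ℝ × ℝ, wt ε c C (X.1 ^ 2 + X.2 ^ 2) * ∫⁻ ω, ‖Aj θ τ N g j X ω‖ₑ ^ 4 ∂μc := by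
    intro j
    calc ∫⁻ X, ∫⁻ y, G j (X + y) X ∂(μs N⁻¹) = ∫⁻ y, (∫⁻ X, G j (X + y) X) ∂(μs N⁻¹) :=
          lintegral_lintegral_swap (hGm' j (measurable_fst.add measurable_snd)
            measurable_fst).aemeasurable
      _ = ∫⁻ y, (∫⁻ Z, G j Z (Z - y)) ∂(μs N⁻¹) := by
          refine lintegral_congr fun y => ?_
          rw [← lintegral_add_right_eq_self (fun Z => G j Z (Z - y)) y]
          refine lintegral_congr fun X => ?_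
          rw [add_sub_cancel_right]
      _ = ∫⁻ Z, ∫⁻ y, G j Z (Z - y) ∂(μs N⁻¹) :=
          lintegral_lintegral_swap (hGm' j measurable_snd
            (measurable_snd.sub measurable_fst)).aemeasurable
      _ ≤ _ := by
          refine lintegral_mono fun Z => ?_
          exact inner_far hC hcirc (measurable_Aj' hθ τ N hg j measurable_const measurable_id)
            hc hN Z
  calc ∫⁻ X, farS.indicator (fun X => ‖Ph θ τ N c g X‖ₑ ^ 4) X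
      ≤ ∫⁻ X, ENNReal.ofReal (64 * N ^ 2) * ∑ j, ∫⁻ y, G j (X + y) X ∂(μs N⁻¹) :=
        lintegral_mono h1
    _ = ENNReal.ofReal (64 * N ^ 2) * ∑ j, ∫⁻ X, ∫⁻ y, G j (X + y) X ∂(μs N⁻¹) := by
        have hm : ∀ j, Measurable (fun X => ∫⁻ y, G j (X + y) X ∂(μs N⁻¹)) := by
          intro j
          exact (hGm' j (measurable_fst.add measurable_snd) measurable_fst :
            Measurable fun p : (ℝ × ℝ) × (ℝ × ℝ) => G j (p.1 + p.2) p.1).lintegral_prod_right'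
        rw [lintegral_const_mul _ (Finset.measurable_fun_sum _ fun j _ => hm j),
          lintegral_finsetSum _ (fun j _ => hm j)]
    _ ≤ _ := by
        exact mul_le_mul' le_rfl (Finset.sum_le_sum fun j _ => h2 j)

end Pool.Agent.Ray
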