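import Pool.Agent.Ray.Amp5

/-!
# The fourth power bound for fixed time, away from the centre: conclusion
-/

open MeasureTheory Set Filter Real
open scoped ENNReal NNReal Topology

namespace Pool.Agent.Ray

open Pool.Agent.Restr

theorem lintegral_rotate (ω : ℝ) {H : ℝ × ℝ → ℝ≥0∞} (hH : Measurable H) :
    ∫⁻ X, H X = ∫⁻ v, ∫⁻ s, H (cos ω * v - sin ω * s, sin ω * v + cos ω * s) := by
  have he : (-sin ω, cos ω).1 ^ 2 + (-sin ω, cos ω).2 ^ 2 = 1 := by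
    simp only
    rw [neg_sq]
    exact Real.sin_sq_add_cos_sq ω
  have h := (mp_rot he).lintegral_comp hH
  rw [← h, Measure.volume_eq_prod, lintegral_prod]
  · refine lintegral_congr fun v => lintegral_congr fun s => ?_
    rw [rot_apply]
    congr 1
    ext
    · simp only
      ring
    · simp only
      ring
  · exact (hH.comp (continuous_rot _).measurable).aemeasurable

theorem wt_le {ε c C : ℝ} (hε8 : ε ≤ 1 / 8) (hC : 0 < C) (hc : 0 < |c|)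
    (v s : ℝ) :
    wt ε c C (v ^ 2 + s ^ 2) ≤
      ENNReal.ofReal (768 * C * |c| ^ (2 * ε - 2) * mj (1 - 4 * ε) s) := by
  unfold wt
  split_ifs with h
  · apply ENNReal.ofReal_le_ofReal
    set ρ := v ^ 2 + s ^ 2 with hρ
    have hρ0 : 0 < ρ := by linarith
    have hs : (1 + s ^ 2) / 512 ≤ ρ := by
      have : s ^ 2 ≤ ρ := by rw [hρ]; nlinarith [sq_nonneg v]
      linarith
    have h1 : ((512 * |c| * ρ) ^ 2) ^ ε = 512 ^ (2 * ε) * |c| ^ (2 * ε) * ρ ^ (2 * ε) := by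
      rw [← Real.rpow_natCast, ← Real.rpow_mul (by positivity), Real.mul_rpow (by positivity)
        hρ0.le, Real.mul_rpow (by norm_num) hc.le]
      norm_num
    have h2 : 3 / (2 * c ^ 2 * ρ) * (C * ((512 * |c| * ρ) ^ 2) ^ ε) =
        3 / 2 * C * 512 ^ (2 * ε) * |c| ^ (2 * ε - 2) * ρ ^ (2 * ε - 1) := by
      rw [h1, Real.rpow_sub hc, Real.rpow_sub hρ0, Real.rpow_one]
      have : |c| ^ (2 : ℝ) = c ^ 2 := by
        rw [show (2 : ℝ) = ((2 : ℕ) : ℝ) by norm_num, Real.rpow_natCast, sq_abs]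
      rw [this]
      have hc2 : c ^ 2 ≠ 0 := by
        rw [← sq_abs]
        positivity
      field_simp
    have h3 : ρ ^ (2 * ε - 1) ≤ 512 ^ (1 - 2 * ε) * mj (1 - 4 * ε) s := by
      calc ρ ^ (2 * ε - 1) ≤ ((1 + s ^ 2) / 512) ^ (2 * ε - 1) :=
            Real.rpow_le_rpow_of_nonpos (by positivity) hs (by linarith)
        _ = 512 ^ (1 - 2 * ε) * mj (1 - 4 * ε) s := by
            unfold mj
            rw [Real.div_rpow (by positivity) (by norm_num), div_eq_mul_inv,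
              ← Real.rpow_neg (by norm_num), mul_comm]
            congr 1
            · congr 1
              ring
            · congr 1
              ring
    rw [h2]
    calc 3 / 2 * C * 512 ^ (2 * ε) * |c| ^ (2 * ε - 2) * ρ ^ (2 * ε - 1)
        ≤ 3 / 2 * C * 512 ^ (2 * ε) * |c| ^ (2 * ε - 2) *
          (512 ^ (1 - 2 * ε) * mj (1 - 4 * ε) s) := by
          gcongr
      _ = 3 / 2 * C * (512 ^ (2 * ε) * 512 ^ (1 - 2 * ε)) * |c| ^ (2 * ε - 2) *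
          mj (1 - 4 * ε) s := by ring
      _ = _ := by
          rw [← Real.rpow_add (by norm_num), show 2 * ε + (1 - 2 * ε) = (1 : ℝ) by ring,
            Real.rpow_one]
          ring
  · exact bot_le

theorem enorm_Aj_le (θ : ℝ → ℝ) (τ N : ℝ) (g : ℝ × ℝ → ℂ) (j : Fin 4) (X : ℝ × ℝ) (ω : ℝ) :
    ‖Aj θ τ N g j X ω‖ₑ ≤ ‖Hf (ph θ j) τ N g (X.1 * cos ω + X.2 * sin ω) ω‖ₑ := by
  unfold Aj
  rw [enorm_mul]
  calc ‖((mm j ω : ℝ) : ℂ)‖ₑ * ‖Hf (ph θ j) τ N g (X.1 * cos ω + X.2 * sin ω) ω‖ₑ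
      ≤ 1 * ‖Hf (ph θ j) τ N g (X.1 * cos ω + X.2 * sin ω) ω‖ₑ := by
        gcongr
        rw [← ofReal_norm, Complex.norm_real, Real.norm_eq_abs, ← ENNReal.ofReal_one]
        exact ENNReal.ofReal_le_ofReal (mm_le j ω)
    _ = _ := one_mul _

theorem rot_step {ε c C : ℝ} (hε8 : ε ≤ 1 / 8) (hC : 0 < C) (hc : 0 < |c|)
    {θ : ℝ → ℝ} (hθ : Bmp θ) (τ N : ℝ) {g : ℝ × ℝ → ℂ} (hg : Adm g) (j : Fin 4) :
    ∫⁻ X : ℝ × ℝ, wt ε c C (X.1 ^ 2 + X.2 ^ 2) * ∫⁻ ω, ‖Aj θ τ N g j X ω‖ₑ ^ 4 ∂μc ≤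
      ENNReal.ofReal (768 * C * |c| ^ (2 * ε - 2) * ∫ s, mj (1 - 4 * ε) s) *
        ∫⁻ ω, (∫⁻ v, ‖Hf (ph θ j) τ N g v ω‖ₑ ^ 4) ∂μc := by
  have hHm := measurable_Hf (ph_bmp hθ j) τ N hg
  have hHm' : ∀ {α : Type} [MeasurableSpace α] {F G : α → ℝ}, Measurable F → Measurable G →
      Measurable (fun a => ‖Hf (ph θ j) τ N g (F a) (G a)‖ₑ ^ 4) := by
    intro α _ F G hF hG
    exact (hHm.comp (hF.prodMk hG)).enorm.pow_const 4
  have hwm : ∀ {α : Type} [MeasurableSpace α] {F : α → ℝ}, Measurable F →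
      Measurable (fun a => wt ε c C (F a)) := by
    intro α _ F hF
    exact (measurable_wt ε c C).comp hF
  have hmj : Integrable (mj (1 - 4 * ε)) := integrable_mj (by linarith)
  have hws : ∀ v : ℝ, ∫⁻ s, wt ε c C (v ^ 2 + s ^ 2) ≤
      ENNReal.ofReal (768 * C * |c| ^ (2 * ε - 2) * ∫ s, mj (1 - 4 * ε) s) := by
    intro v
    calc ∫⁻ s, wt ε c C (v ^ 2 + s ^ 2)
        ≤ ∫⁻ s, ENNReal.ofReal (768 * C * |c| ^ (2 * ε - 2) * mj (1 - 4 * ε) s) :=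
          lintegral_mono fun s => wt_le hε8 hC hc v s
      _ = _ := by
          rw [← ofReal_integral_eq_lintegral_ofReal (hmj.const_mul _)
            (Eventually.of_forall fun s => by
              have := mj_nonneg (1 - 4 * ε) s
              positivity), integral_const_mul]
  calc ∫⁻ X : ℝ × ℝ, wt ε c C (X.1 ^ 2 + X.2 ^ 2) * ∫⁻ ω, ‖Aj θ τ N g j X ω‖ₑ ^ 4 ∂μc
      ≤ ∫⁻ X : ℝ × ℝ, ∫⁻ ω, wt ε c C (X.1 ^ 2 + X.2 ^ 2) *
        ‖Hf (ph θ j) τ N g (X.1 * cos ω + X.2 * sin ω) ω‖ₑ ^ 4 ∂μc := by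
        refine lintegral_mono fun X => ?_
        dsimp only
        rw [lintegral_const_mul _ (hHm' (by fun_prop) (by fun_prop))]
        gcongr
        exact enorm_Aj_le θ τ N g j X _
    _ = ∫⁻ ω, (∫⁻ X : ℝ × ℝ, wt ε c C (X.1 ^ 2 + X.2 ^ 2) *
        ‖Hf (ph θ j) τ N g (X.1 * cos ω + X.2 * sin ω) ω‖ₑ ^ 4) ∂μc :=
        lintegral_lintegral_swap ((hwm (by fun_prop)).mul
          (hHm' (by fun_prop) (by fun_prop))).aemeasurable
    _ ≤ ∫⁻ ω, (ENNReal.ofReal (768 * C * |c| ^ (2 * ε - 2) * ∫ s, mj (1 - 4 * ε) s) *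
        ∫⁻ v, ‖Hf (ph θ j) τ N g v ω‖ₑ ^ 4) ∂μc := by
        refine lintegral_mono fun ω => ?_
        have e0 := lintegral_rotate ω (H := fun X : ℝ × ℝ => wt ε c C (X.1 ^ 2 + X.2 ^ 2) *
          ‖Hf (ph θ j) τ N g (X.1 * cos ω + X.2 * sin ω) ω‖ₑ ^ 4)
          ((hwm (by fun_prop)).mul (hHm' (by fun_prop) (by fun_prop)))
        dsimp only at e0 ⊢
        rw [e0]
        have e1 : ∀ v s : ℝ, (cos ω * v - sin ω * s) ^ 2 + (sin ω * v + cos ω * s) ^ 2 =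
            v ^ 2 + s ^ 2 := by
          intro v s
          have := Real.sin_sq_add_cos_sq ω
          calc (cos ω * v - sin ω * s) ^ 2 + (sin ω * v + cos ω * s) ^ 2
              = (sin ω ^ 2 + cos ω ^ 2) * (v ^ 2 + s ^ 2) := by ring
            _ = _ := by rw [this, one_mul]
        have e2 : ∀ v s : ℝ, (cos ω * v - sin ω * s) * cos ω + (sin ω * v + cos ω * s) * sin ω =
            v := by
          intro v s
          have := Real.sin_sq_add_cos_sq ω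
          calc (cos ω * v - sin ω * s) * cos ω + (sin ω * v + cos ω * s) * sin ω
              = (sin ω ^ 2 + cos ω ^ 2) * v := by ring
            _ = _ := by rw [this, one_mul]
        simp only [e1, e2]
        rw [← lintegral_const_mul _ (hHm' (F := fun v => v) (G := fun _ => ω) measurable_id
          measurable_const)]
        refine lintegral_mono fun v => ?_
        dsimp only
        rw [lintegral_mul_const _ (hwm (by fun_prop))]
        gcongr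
        exact hws v
    _ = _ := by
        rw [lintegral_const_mul]
        exact (hHm' measurable_snd measurable_fst).lintegral_prod_right'

theorem scale_id {t N : ℝ} (hN : 0 < N) (ht : t ≠ 0) :
    N⁻¹ * |t / N ^ 2| ^ (-(1 / 2) : ℝ) = |t| ^ (-(1 / 2) : ℝ) := by
  have ht0 : 0 < |t| := abs_pos.2 ht
  rw [abs_div, abs_of_pos (by positivity : 0 < N ^ 2), Real.div_rpow ht0.le (by positivity)]
  have : (N ^ 2) ^ (-(1 / 2) : ℝ) = N⁻¹ := by
    rw [← Real.rpow_natCast, ← Real.rpow_mul hN.le]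
    norm_num
    rw [Real.rpow_neg_one]
  rw [this]
  field_simp

theorem far_L4 {θ : ℝ → ℝ} (hθ : Bmp θ) {ε : ℝ} (hε : 0 < ε) (hε8 : ε ≤ 1 / 8) :
    ∃ C : ℝ, 0 < C ∧ ∀ N : ℝ, 64 ≤ N → ∀ t : ℝ, N ^ 2 ≤ |t| → ∀ g : ℝ × ℝ → ℂ, Adm g →
    ∫⁻ X, farS.indicator (fun X => ‖Ph θ (t / N ^ 2) N (-(t / 2)) g X‖ₑ ^ 4) X ≤
      ENNReal.ofReal (C * (N ^ 2 * |t| ^ (2 * ε - 4))) *
        ∫⁻ ω, (∫⁻ r, ‖g (r, ω)‖ₑ ^ 4) ∂μc := by
  obtain ⟨C1, hC1, hcirc⟩ := circle_L4 hε (by linarith)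
  choose D hD0 hD using fun j => Hf_L4 (ph_bmp hθ j)
  have hmj : Integrable (mj (1 - 4 * ε)) := integrable_mj (by linarith)
  set I := ∫ s, mj (1 - 4 * ε) s with hI
  have hI0 : 0 ≤ I := integral_nonneg fun s => mj_nonneg _ s
  refine ⟨64 * (768 * C1 * 4 * I) * (∑ j, D j ^ 4) + 1, ?_, fun N hN t ht g hg => ?_⟩
  · have : 0 ≤ ∑ j, D j ^ 4 := Finset.sum_nonneg fun j _ => by
      have := hD0 j
      positivity
    positivity
  have hN0 : 0 < N := by linarith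
  have ht1 : 1 ≤ |t| := by nlinarith
  have ht0 : 0 < |t| := by linarith
  have htn : t ≠ 0 := abs_pos.1 ht0
  have hτ1 : 1 ≤ |t / N ^ 2| := by
    rw [abs_div, abs_of_pos (by positivity : 0 < N ^ 2), le_div_iff₀ (by positivity), one_mul]
    exact ht
  have hτn : t / N ^ 2 ≠ 0 := by positivity
  have hc : |-(t / 2)| = |t| / 2 := by
    rw [abs_neg, abs_div]
    norm_num
  have hc1 : 1 / 2 ≤ |-(t / 2)| := by
    rw [hc]
    linarith
  have hc0 : 0 < |-(t / 2)| := by linarith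
  have h1 := far_step hC1 hcirc hθ hτn hc1 hN hg
  refine h1.trans ?_
  have h2 : ∀ j, ∫⁻ X : ℝ × ℝ, wt ε (-(t / 2)) C1 (X.1 ^ 2 + X.2 ^ 2) *
      ∫⁻ ω, ‖Aj θ (t / N ^ 2) N g j X ω‖ₑ ^ 4 ∂μc ≤
      ENNReal.ofReal (768 * C1 * 4 * I * (D j ^ 4) * |t| ^ (2 * ε - 4)) *
        ∫⁻ ω, (∫⁻ r, ‖g (r, ω)‖ₑ ^ 4) ∂μc := by
    intro j
    refine (rot_step hε8 hC1 hc0 hθ (t / N ^ 2) N hg j).trans ?_
    have h3 : ∀ ω, ∫⁻ v, ‖Hf (ph θ j) (t / N ^ 2) N g v ω‖ₑ ^ 4 ≤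
        ENNReal.ofReal (D j ^ 4 * |t| ^ (-2 : ℝ)) * ∫⁻ r, ‖g (r, ω)‖ₑ ^ 4 := by
      intro ω
      have h4 := hD j (t / N ^ 2) hτ1 N hN0 g hg ω
      rw [scale_id hN0 htn, mul_pow] at h4
      have e : (|t| ^ (-(1 / 2) : ℝ)) ^ 4 = |t| ^ (-2 : ℝ) := by
        rw [← Real.rpow_natCast, ← Real.rpow_mul ht0.le]
        norm_num
      rw [e] at h4
      exact h4
    have hgm : Measurable (fun ω => ∫⁻ r, ‖g (r, ω)‖ₑ ^ 4) :=
      ((hg.meas.comp measurable_swap).enorm.pow_const 4 :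
        Measurable fun p : ℝ × ℝ => ‖g (p.2, p.1)‖ₑ ^ 4).lintegral_prod_right'
    have hDj := hD0 j
    calc ENNReal.ofReal (768 * C1 * |-(t / 2)| ^ (2 * ε - 2) * I) *
          ∫⁻ ω, (∫⁻ v, ‖Hf (ph θ j) (t / N ^ 2) N g v ω‖ₑ ^ 4) ∂μc
        ≤ ENNReal.ofReal (768 * C1 * (4 * |t| ^ (2 * ε - 2)) * I) *
          ∫⁻ ω, (ENNReal.ofReal (D j ^ 4 * |t| ^ (-2 : ℝ)) * ∫⁻ r, ‖g (r, ω)‖ₑ ^ 4) ∂μc := by
          refine mul_le_mul' (ENNReal.ofReal_le_ofReal ?_) (lintegral_mono fun ω => h3 ω)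
          have h5 : |-(t / 2)| ^ (2 * ε - 2) ≤ 4 * |t| ^ (2 * ε - 2) := by
            rw [hc, Real.div_rpow ht0.le (by norm_num), div_eq_mul_inv,
              ← Real.rpow_neg (by norm_num), mul_comm]
            gcongr
            calc (2 : ℝ) ^ (-(2 * ε - 2)) ≤ 2 ^ (2 : ℝ) :=
                  Real.rpow_le_rpow_of_exponent_le (by norm_num) (by linarith)
              _ = 4 := by norm_num
          gcongr
      _ = _ := by
          rw [lintegral_const_mul _ hgm, ← mul_assoc, ← ENNReal.ofReal_mul (by positivity)]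
          congr 2
          rw [show 2 * ε - 4 = (2 * ε - 2) + (-2 : ℝ) by ring, Real.rpow_add ht0]
          ring
  calc ENNReal.ofReal (64 * N ^ 2) * ∑ j, ∫⁻ X : ℝ × ℝ,
        wt ε (-(t / 2)) C1 (X.1 ^ 2 + X.2 ^ 2) *
        ∫⁻ ω, ‖Aj θ (t / N ^ 2) N g j X ω‖ₑ ^ 4 ∂μc
      ≤ ENNReal.ofReal (64 * N ^ 2) * ∑ j, ENNReal.ofReal (768 * C1 * 4 * I * (D j ^ 4) *
        |t| ^ (2 * ε - 4)) * ∫⁻ ω, (∫⁻ r, ‖g (r, ω)‖ₑ ^ 4) ∂μc :=
        mul_le_mul' le_rfl (Finset.sum_le_sum fun j _ => h2 j)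
    _ = ENNReal.ofReal (64 * N ^ 2 * ∑ j, 768 * C1 * 4 * I * (D j ^ 4) *
        |t| ^ (2 * ε - 4)) * ∫⁻ ω, (∫⁻ r, ‖g (r, ω)‖ₑ ^ 4) ∂μc := by
        rw [← Finset.sum_mul, ← ENNReal.ofReal_sum_of_nonneg, ← mul_assoc,
          ← ENNReal.ofReal_mul (by positivity)]
        intro j _
        have := hD0 j
        positivity
    _ ≤ _ := by
        refine mul_le_mul' (ENNReal.ofReal_le_ofReal ?_) le_rfl
        rw [← Finset.sum_mul, ← Finset.mul_sum]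
        have h6 : 0 ≤ N ^ 2 * |t| ^ (2 * ε - 4) := by positivity
        calc 64 * N ^ 2 * (768 * C1 * 4 * I * (∑ j, D j ^ 4) * |t| ^ (2 * ε - 4))
            = 64 * (768 * C1 * 4 * I) * (∑ j, D j ^ 4) * (N ^ 2 * |t| ^ (2 * ε - 4)) := by ring
          _ ≤ _ := by
              rw [add_mul, one_mul]
              linarith

end Pool.Agent.Ray
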