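import Pool.Agent.Ray.Amp6

/-!
# The fourth power bound for fixed time: near the centre, and the total
-/

open MeasureTheory Set Filter Real
open scoped ENNReal NNReal Topology

namespace Pool.Agent.Ray

open Pool.Agent.Restr

theorem μc_univ : μc univ = ENNReal.ofReal (2 * π) := by
  unfold μc
  rw [Measure.restrict_apply MeasurableSet.univ, univ_inter, Real.volume_Ioc]
  congr 1
  ring

/-- the product measure on (radius, angle), in the order used here -/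
theorem pow4_polar {g : ℝ × ℝ → ℂ} (hg : Adm g) :
    (∫⁻ ω, (∫⁻ r, ‖g (r, ω)‖ₑ) ∂μc) ^ 4 ≤
      ENNReal.ofReal ((2 * π) ^ 3 * 8) * ∫⁻ ω, (∫⁻ r, ‖g (r, ω)‖ₑ ^ 4) ∂μc := by
  have hgm : Measurable (fun p : ℝ × ℝ => ‖g (p.2, p.1)‖ₑ) := (hg.meas.comp measurable_swap).enorm
  have hsl : ∀ ω, Measurable (fun r => ‖g (r, ω)‖ₑ) := fun ω =>
    (hg.meas.comp (by fun_prop : Measurable fun r : ℝ => (r, ω))).enorm
  have h1 : ∀ ω, (∫⁻ r, ‖g (r, ω)‖ₑ) ^ 4 ≤ ENNReal.ofReal 8 * ∫⁻ r, ‖g (r, ω)‖ₑ ^ 4 := by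
    intro ω
    have e : ∫⁻ r, ‖g (r, ω)‖ₑ = ∫⁻ r in Icc (3 / 8 : ℝ) (17 / 8), ‖g (r, ω)‖ₑ := by
      rw [← lintegral_indicator measurableSet_Icc]
      refine lintegral_congr fun r => ?_
      by_cases hr : r ∈ Icc (3 / 8 : ℝ) (17 / 8)
      · rw [indicator_of_mem hr]
      · rw [indicator_of_notMem hr, hg.supp r ω hr, enorm_zero]
    rw [e]
    refine (pow4_le _ (hsl ω).aemeasurable.restrict).trans ?_
    rw [Measure.restrict_apply MeasurableSet.univ, univ_inter, Real.volume_Icc,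
      ← ENNReal.ofReal_pow (by norm_num)]
    gcongr
    · norm_num
    · exact Measure.restrict_le_self
  have hm1 : Measurable (fun ω => ∫⁻ r, ‖g (r, ω)‖ₑ) := hgm.lintegral_prod_right'
  have hm2 : Measurable (fun ω => ∫⁻ r, ‖g (r, ω)‖ₑ ^ 4) :=
    (hgm.pow_const 4).lintegral_prod_right'
  calc (∫⁻ ω, (∫⁻ r, ‖g (r, ω)‖ₑ) ∂μc) ^ 4
      ≤ μc univ ^ 3 * ∫⁻ ω, (∫⁻ r, ‖g (r, ω)‖ₑ) ^ 4 ∂μc := pow4_le _ hm1.aemeasurable
    _ ≤ μc univ ^ 3 * ∫⁻ ω, (ENNReal.ofReal 8 * ∫⁻ r, ‖g (r, ω)‖ₑ ^ 4) ∂μc := by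
        gcongr with ω
        exact h1 ω
    _ = _ := by
        rw [lintegral_const_mul _ hm2, μc_univ, ← mul_assoc,
          ← ENNReal.ofReal_pow (by positivity), ← ENNReal.ofReal_mul (by positivity)]

theorem near_point {θ : ℝ → ℝ} (hθ : Bmp θ) : ∃ C : ℝ, 0 < C ∧ ∀ N : ℝ, 64 ≤ N →
    ∀ t : ℝ, N ^ 2 ≤ |t| → ∀ g : ℝ × ℝ → ℂ, Adm g → ∀ c : ℝ, ∀ X : ℝ × ℝ, X ∉ farS →
    ‖Ph θ (t / N ^ 2) N c g X‖ₑ ≤ ENNReal.ofReal (C * |t|⁻¹) *
      ∫⁻ ω, (∫⁻ r, ‖g (r, ω)‖ₑ) ∂μc := by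
  obtain ⟨C, hC, hb⟩ := kk_bounds hθ
  refine ⟨16 * C, by positivity, fun N hN t ht g hg c X hX => ?_⟩
  have hN0 : 0 < N := by linarith
  have ht1 : 1 ≤ |t| := by nlinarith
  have ht0 : 0 < |t| := by linarith
  have hτ1 : 1 ≤ |t / N ^ 2| := by
    rw [abs_div, abs_of_pos (by positivity : 0 < N ^ 2), le_div_iff₀ (by positivity), one_mul]
    exact ht
  have hX2 : X.1 ^ 2 + X.2 ^ 2 < 1 / 64 := not_le.1 hX
  have hv : ∀ ω, |X.1 * cos ω + X.2 * sin ω| ≤ 1 / 8 := by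
    intro ω
    apply abs_le_of_sq_le_sq _ (by norm_num)
    have h1 := Real.sin_sq_add_cos_sq ω
    have h2 : (X.1 * cos ω + X.2 * sin ω) ^ 2 + (X.1 * sin ω - X.2 * cos ω) ^ 2 =
        X.1 ^ 2 + X.2 ^ 2 := by
      calc (X.1 * cos ω + X.2 * sin ω) ^ 2 + (X.1 * sin ω - X.2 * cos ω) ^ 2
          = (sin ω ^ 2 + cos ω ^ 2) * (X.1 ^ 2 + X.2 ^ 2) := by ring
        _ = _ := by rw [h1, one_mul]
    nlinarith [sq_nonneg (X.1 * sin ω - X.2 * cos ω)]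
  have hHf : ∀ ω, ‖Hf θ (t / N ^ 2) N g (X.1 * cos ω + X.2 * sin ω) ω‖ₑ ≤
      ENNReal.ofReal (16 * C * |t|⁻¹) * ∫⁻ r, ‖g (r, ω)‖ₑ := by
    intro ω
    set v := X.1 * cos ω + X.2 * sin ω with hvd
    have hv' := abs_le.1 (hv ω)
    unfold Hf
    have hsl : Measurable (fun r => ‖g (r, ω)‖ₑ) :=
      (hg.meas.comp (by fun_prop : Measurable fun r : ℝ => (r, ω))).enorm
    rw [← lintegral_const_mul _ hsl]
    refine (enorm_integral_le_lintegral_enorm _).trans (lintegral_mono fun r => ?_)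
    by_cases hr : r ∈ Icc (3 / 8 : ℝ) (17 / 8)
    · rw [enorm_mul, mul_comm]
      gcongr
      rw [← ofReal_norm]
      apply ENNReal.ofReal_le_ofReal
      have h1 : 1 / 4 ≤ r - v := by linarith [hr.1, hv'.2]
      have h2 : 2 ≤ |N * (v - r)| := by
        rw [abs_mul, abs_of_pos hN0, abs_sub_comm, abs_of_pos (by linarith)]
        nlinarith
      refine ((hb _ hτ1 _).2 h2).trans ?_
      have h3 : |t| / 16 ≤ (t / N ^ 2) ^ 2 * (N * (v - r)) ^ 2 := by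
        have e1 : (t / N ^ 2) ^ 2 * (N * (v - r)) ^ 2 = |t| ^ 2 / N ^ 2 * (r - v) ^ 2 := by
          rw [sq_abs]
          field_simp
          ring
        rw [e1]
        have e2 : |t| ≤ |t| ^ 2 / N ^ 2 := by
          rw [le_div_iff₀ (by positivity)]
          calc |t| * N ^ 2 ≤ |t| * |t| := by gcongr
            _ = |t| ^ 2 := by ring
        have e3 : 1 / 16 ≤ (r - v) ^ 2 := by nlinarith
        calc |t| / 16 = |t| * (1 / 16) := by ring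
          _ ≤ |t| ^ 2 / N ^ 2 * (r - v) ^ 2 := by gcongr
      calc C * ((t / N ^ 2) ^ 2 * (N * (v - r)) ^ 2)⁻¹ ≤ C * (|t| / 16)⁻¹ := by
            gcongr
        _ = 16 * C * |t|⁻¹ := by
            rw [inv_div]
            ring
    · rw [hg.supp r ω hr, zero_mul, enorm_zero]
      exact bot_le
  unfold Ph U
  have hm1 : Measurable (fun ω => ∫⁻ r, ‖g (r, ω)‖ₑ) :=
    ((hg.meas.comp measurable_swap).enorm :
      Measurable fun p : ℝ × ℝ => ‖g (p.2, p.1)‖ₑ).lintegral_prod_right'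
  rw [← lintegral_const_mul _ hm1]
  refine (enorm_integral_le_lintegral_enorm _).trans (lintegral_mono fun ω => ?_)
  rw [enorm_mul, enorm_u, one_mul]
  exact hHf ω

/-- The fourth power bound at fixed time. -/
theorem Ph_L4 {θ : ℝ → ℝ} (hθ : Bmp θ) {ε : ℝ} (hε : 0 < ε) (hε8 : ε ≤ 1 / 8) :
    ∃ C : ℝ, 0 < C ∧ ∀ N : ℝ, 64 ≤ N → ∀ t : ℝ, N ^ 2 ≤ |t| → ∀ g : ℝ × ℝ → ℂ, Adm g →
    ∫⁻ X, ‖Ph θ (t / N ^ 2) N (-(t / 2)) g X‖ₑ ^ 4 ≤
      ENNReal.ofReal (C * (N ^ 2 * |t| ^ (2 * ε - 4))) *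
        ∫⁻ ω, (∫⁻ r, ‖g (r, ω)‖ₑ ^ 4) ∂μc := by
  obtain ⟨C1, hC1, h1⟩ := far_L4 hθ hε hε8
  obtain ⟨C2, hC2, h2⟩ := near_point hθ
  refine ⟨C1 + C2 ^ 4 * ((2 * π) ^ 3 * 8), by positivity, fun N hN t ht g hg => ?_⟩
  have hN0 : 0 < N := by linarith
  have ht1 : 1 ≤ |t| := by nlinarith
  have ht0 : 0 < |t| := by linarith
  set c := -(t / 2) with hc
  set F : ℝ × ℝ → ℝ≥0∞ := fun X => ‖Ph θ (t / N ^ 2) N c g X‖ₑ ^ 4 with hF
  set I := ∫⁻ ω, (∫⁻ r, ‖g (r, ω)‖ₑ ^ 4) ∂μc with hI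
  have hfar := h1 N hN t ht g hg
  have hnear : ∫⁻ X, farSᶜ.indicator F X ≤
      ENNReal.ofReal (C2 ^ 4 * ((2 * π) ^ 3 * 8) * |t| ^ (-4 : ℝ)) * I := by
    have hK : ∀ X, farSᶜ.indicator F X ≤ farSᶜ.indicator (fun _ =>
        ENNReal.ofReal (C2 ^ 4 * ((2 * π) ^ 3 * 8) * |t| ^ (-4 : ℝ)) * I) X := by
      intro X
      by_cases hX : X ∈ farSᶜ
      · rw [indicator_of_mem hX, indicator_of_mem hX]
        have h3 := h2 N hN t ht g hg c X hX
        calc F X ≤ (ENNReal.ofReal (C2 * |t|⁻¹) * ∫⁻ ω, (∫⁻ r, ‖g (r, ω)‖ₑ) ∂μc) ^ 4 := by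
              rw [hF]
              dsimp only
              gcongr
          _ = ENNReal.ofReal ((C2 * |t|⁻¹) ^ 4) * (∫⁻ ω, (∫⁻ r, ‖g (r, ω)‖ₑ) ∂μc) ^ 4 := by
              rw [mul_pow, ENNReal.ofReal_pow (by positivity)]
          _ ≤ ENNReal.ofReal ((C2 * |t|⁻¹) ^ 4) * (ENNReal.ofReal ((2 * π) ^ 3 * 8) * I) := by
              gcongr
              exact pow4_polar hg
          _ = _ := by
              rw [← mul_assoc, ← ENNReal.ofReal_mul (by positivity)]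
              congr 2
              have : |t| ^ (-4 : ℝ) = (|t|⁻¹) ^ 4 := by
                rw [Real.rpow_neg ht0.le, inv_pow]
                congr 1
                rw [show (4 : ℝ) = ((4 : ℕ) : ℝ) by norm_num, Real.rpow_natCast]
              rw [this]
              ring
      · rw [indicator_of_notMem hX]
        exact bot_le
    refine (lintegral_mono hK).trans ?_
    rw [lintegral_indicator measurableSet_farS.compl, setLIntegral_const]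
    calc _ ≤ ENNReal.ofReal (C2 ^ 4 * ((2 * π) ^ 3 * 8) * |t| ^ (-4 : ℝ)) * I * 1 := by
          gcongr
          have hsub : farSᶜ ⊆ Icc (-(1 / 8) : ℝ) (1 / 8) ×ˢ Icc (-(1 / 8) : ℝ) (1 / 8) := by
            intro X hX
            have hX2 : X.1 ^ 2 + X.2 ^ 2 < 1 / 64 := not_le.1 hX
            have a1 : |X.1| ≤ 1 / 8 := abs_le_of_sq_le_sq (by nlinarith [sq_nonneg X.2]) (by norm_num)
            have a2 : |X.2| ≤ 1 / 8 := abs_le_of_sq_le_sq (by nlinarith [sq_nonneg X.1]) (by norm_num)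
            exact ⟨abs_le.1 a1, abs_le.1 a2⟩
          refine (measure_mono hsub).trans ?_
          rw [Measure.volume_eq_prod, Measure.prod_prod, Real.volume_Icc,
            ← ENNReal.ofReal_mul (by norm_num), ← ENNReal.ofReal_one]
          exact ENNReal.ofReal_le_ofReal (by norm_num)
      _ = _ := mul_one _
  have hsum : ∫⁻ X, F X ≤ (∫⁻ X, farS.indicator F X) + ∫⁻ X, farSᶜ.indicator F X := by
    rw [lintegral_indicator measurableSet_farS, lintegral_indicator measurableSet_farS.compl]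
    exact (lintegral_add_compl F measurableSet_farS).ge
  refine hsum.trans ((add_le_add hfar hnear).trans ?_)
  rw [← add_mul, ← ENNReal.ofReal_add (by positivity) (by positivity)]
  gcongr
  have h5 : |t| ^ (-4 : ℝ) ≤ N ^ 2 * |t| ^ (2 * ε - 4) := by
    have a1 : |t| ^ (-4 : ℝ) ≤ |t| ^ (2 * ε - 4) :=
      Real.rpow_le_rpow_of_exponent_le ht1 (by linarith)
    have a2 : 0 < |t| ^ (2 * ε - 4) := by positivity
    have a3 : 1 ≤ N ^ 2 := by nlinarith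
    calc |t| ^ (-4 : ℝ) ≤ 1 * |t| ^ (2 * ε - 4) := by rw [one_mul]; exact a1
      _ ≤ _ := by gcongr
  have h6 : 0 ≤ C2 ^ 4 * ((2 * π) ^ 3 * 8) := by positivity
  nlinarith [mul_le_mul_of_nonneg_left h5 h6]

end Pool.Agent.Ray
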