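import Pool.Agent.Ray.Pol3

/-!
# The bounds on time blocks for smoothed densities
-/

open MeasureTheory Set Filter Real
open scoped ENNReal NNReal Topology

namespace Pool.Agent.Ray

open Pool.Agent.Restr

theorem lint_scale {f : ℝ → ℝ≥0∞} (hf : Measurable f) {a : ℝ} (ha : a ≠ 0) :
    ∫⁻ y, f y = ENNReal.ofReal |a| * ∫⁻ y, f (-(a * y)) := by
  have h := lintegral_comp_affine hf ha 0
  simp only [zero_sub] at h
  rw [h, ← mul_assoc, ← ENNReal.ofReal_mul (abs_nonneg _), ← abs_mul, mul_inv_cancel₀ ha, abs_one,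
    ENNReal.ofReal_one, one_mul]

theorem slice4 {ε : ℝ} (hε : 0 < ε) (hε8 : ε ≤ 1 / 8) :
    ∃ C : ℝ, 0 < C ∧ ∀ N : ℝ, 64 ≤ N → ∀ t : ℝ, N ^ 2 ≤ |t| → ∀ g : ℝ × ℝ → ℂ, Adm g →
    ∫⁻ b, ∫⁻ a, ‖E (toC (Sm N g)) (a, b, t)‖ₑ ^ 4 ≤
      ENNReal.ofReal (C * (N ^ 2 * |t| ^ (2 * ε - 2))) * ∫⁻ p, ‖g p‖ₑ ^ 4 ∂μp := by
  obtain ⟨C, hC, hP⟩ := Ph_L4 th_bmp hε hε8
  refine ⟨4 * C, by positivity, fun N hN t ht g hg => ?_⟩
  have hN0 : 0 < N := by linarith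
  have ht1 : 1 ≤ |t| := by nlinarith
  have ht0 : 0 < |t| := by linarith
  have htn : t ≠ 0 := abs_pos.1 ht0
  have h2t : 2 * t ≠ 0 := by positivity
  have hEm : Measurable (fun p => ‖E (toC (Sm N g)) p‖ₑ ^ 4) :=
    (measurable_E (measurable_toC (measurable_Sm N hg.meas))).enorm.pow_const 4
  have hEm' : ∀ {α : Type} [MeasurableSpace α] {F G H : α → ℝ}, Measurable F → Measurable G →
      Measurable H → Measurable (fun x => ‖E (toC (Sm N g)) (F x, G x, H x)‖ₑ ^ 4) := by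
    intro α _ F G H hF hG hH
    exact hEm.comp (hF.prodMk (hG.prodMk hH))
  have hab : Measurable (fun p : ℝ × ℝ => ‖E (toC (Sm N g)) (p.2, p.1, t)‖ₑ ^ 4) :=
    hEm' measurable_snd measurable_fst measurable_const
  have hin : Measurable (fun b => ∫⁻ a, ‖E (toC (Sm N g)) (a, b, t)‖ₑ ^ 4) :=
    hab.lintegral_prod_right'
  have e1 : ∫⁻ b, ∫⁻ a, ‖E (toC (Sm N g)) (a, b, t)‖ₑ ^ 4 =
      ENNReal.ofReal (4 * t ^ 2) * ∫⁻ X : ℝ × ℝ,
        ‖E (toC (Sm N g)) (-(2 * t * X.1), -(2 * t * X.2), t)‖ₑ ^ 4 := by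
    rw [lint_scale hin h2t]
    have e2 : ∀ y, ∫⁻ a, ‖E (toC (Sm N g)) (a, -(2 * t * y), t)‖ₑ ^ 4 =
        ENNReal.ofReal |2 * t| *
          ∫⁻ x, ‖E (toC (Sm N g)) (-(2 * t * x), -(2 * t * y), t)‖ₑ ^ 4 := by
      intro y
      exact lint_scale (hEm' measurable_id measurable_const measurable_const) h2t
    simp only [e2]
    have hm2 : Measurable (fun p : ℝ × ℝ =>
        ‖E (toC (Sm N g)) (-(2 * t * p.2), -(2 * t * p.1), t)‖ₑ ^ 4) :=
      hEm' (by fun_prop) (by fun_prop) measurable_const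
    have hm3 : Measurable (fun p : ℝ × ℝ =>
        ‖E (toC (Sm N g)) (-(2 * t * p.1), -(2 * t * p.2), t)‖ₑ ^ 4) :=
      hEm' (by fun_prop) (by fun_prop) measurable_const
    rw [lintegral_const_mul _ hm2.lintegral_prod_right', ← mul_assoc,
      ← ENNReal.ofReal_mul (abs_nonneg _), Measure.volume_eq_prod,
      lintegral_prod_symm _ hm3.aemeasurable]
    congr 2
    rw [abs_mul_abs_self]
    ring
  have e3 : ∀ X : ℝ × ℝ, ‖E (toC (Sm N g)) (-(2 * t * X.1), -(2 * t * X.2), t)‖ₑ ^ 4 =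
      ‖Ph th (t / N ^ 2) N (-(t / 2)) g X‖ₑ ^ 4 := by
    intro X
    rw [rep hg hN, enorm_mul, enorm_u, one_mul]
  rw [e1]
  simp only [e3]
  calc ENNReal.ofReal (4 * t ^ 2) * ∫⁻ X, ‖Ph th (t / N ^ 2) N (-(t / 2)) g X‖ₑ ^ 4
      ≤ ENNReal.ofReal (4 * t ^ 2) * (ENNReal.ofReal (C * (N ^ 2 * |t| ^ (2 * ε - 4))) *
        ∫⁻ ω, (∫⁻ r, ‖g (r, ω)‖ₑ ^ 4) ∂μc) := by
        gcongr
        exact hP N hN t ht g hg
    _ = _ := by
        rw [← mul_assoc, ← ENNReal.ofReal_mul (by positivity),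
          lint_μp (hg.meas.enorm.pow_const 4)]
        congr 2
        have e4 : |t| ^ (2 * ε - 2) = |t| ^ (2 * ε - 4) * t ^ 2 := by
          rw [← sq_abs t, ← Real.rpow_natCast |t| 2, ← Real.rpow_add ht0]
          congr 1
          push_cast
          ring
        rw [e4]
        ring

theorem piece4R {ε : ℝ} (hε : 0 < ε) (hε8 : ε ≤ 1 / 8) :
    ∃ C : ℝ, 0 < C ∧ ∀ (k : ℕ) (N : ℝ), 64 ≤ N → N ^ 2 ≤ (2 : ℝ) ^ k → ∀ g : ℝ × ℝ → ℂ, Adm g →
    ∫⁻ p, ‖Et (toC (Sm N g)) p‖ₑ ^ 4 ∂(Restr.Lam (Ik k)) ≤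
      ENNReal.ofReal (C * (N ^ 2 * 2 ^ ((k : ℝ) * (2 * ε - 1)))) * ∫⁻ p, ‖g p‖ₑ ^ 4 ∂μp := by
  obtain ⟨C, hC, hS⟩ := slice4 hε hε8
  refine ⟨C, hC, fun k N hN hk g hg => ?_⟩
  have hNm : Measurable (fun p => ‖E (toC (Sm N g)) p‖ₑ ^ 4) :=
    (measurable_E (measurable_toC (measurable_Sm N hg.meas))).enorm.pow_const 4
  have h := lintegral_Lam (I := Ik k) hNm
  unfold Et
  rw [h]
  have hIk : MeasurableSet (Ik k) := measurableSet_Ico
  calc ∫⁻ t in Ik k, ∫⁻ b, ∫⁻ a, ‖E (toC (Sm N g)) (a, b, t)‖ₑ ^ 4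
      ≤ ∫⁻ _ in Ik k, (ENNReal.ofReal (C * (N ^ 2 * ((2 : ℝ) ^ k) ^ (2 * ε - 2))) *
        ∫⁻ p, ‖g p‖ₑ ^ 4 ∂μp) := by
        refine setLIntegral_mono' hIk fun t ht => ?_
        have h2k : (0 : ℝ) < 2 ^ k := by positivity
        have ht1 : (2 : ℝ) ^ k ≤ t := ht.1
        have ht0 : 0 < t := by linarith
        have hta : |t| = t := abs_of_pos ht0
        refine (hS N hN t (by rw [hta]; linarith) g hg).trans ?_
        rw [hta]
        gcongr ?_ * _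
        apply ENNReal.ofReal_le_ofReal
        gcongr C * (N ^ 2 * ?_)
        exact Real.rpow_le_rpow_of_nonpos h2k ht1 (by linarith)
    _ = _ := by
        rw [setLIntegral_const, mul_comm, ← mul_assoc, volume_Ik,
          ← ENNReal.ofReal_mul (by positivity)]
        congr 2
        rw [← Real.rpow_natCast 2 k, ← Real.rpow_mul (by norm_num)]
        have e : (2 : ℝ) ^ ((k : ℝ) * (2 * ε - 1)) =
            2 ^ ((k : ℝ) * (2 * ε - 2)) * 2 ^ (k : ℝ) := by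
          rw [← Real.rpow_add (by norm_num)]
          congr 1
          ring
        rw [e]
        ring

theorem piece2R {N : ℝ} (hN : 64 ≤ N) (k : ℕ) {g : ℝ × ℝ → ℂ} (hg : Adm g) :
    ∫⁻ p, ‖Et (toC (Sm N g)) p‖ₑ ^ 2 ∂(Restr.Lam (Ik k)) ≤
      ENNReal.ofReal ((16 * π ^ 2) * 2 ^ (k : ℝ)) * ∫⁻ p, ‖g p‖ₑ ^ 2 ∂μp := by
  have hA := hg.Sm hN
  refine (block_L2 (measurable_toC hA.meas)).trans ?_
  rw [volume_Ik]
  calc ENNReal.ofReal ((2 : ℝ) ^ (k : ℝ)) * (ENNReal.ofReal (4 * Real.pi ^ 2) *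
        ∫⁻ x, ‖toC (Sm N g) x‖ₑ ^ 2)
      ≤ ENNReal.ofReal ((2 : ℝ) ^ (k : ℝ)) * (ENNReal.ofReal (4 * Real.pi ^ 2) *
        (ENNReal.ofReal 4 * ∫⁻ p, ‖g p‖ₑ ^ 2 ∂μp)) := by
        gcongr ENNReal.ofReal ((2 : ℝ) ^ (k : ℝ)) * (ENNReal.ofReal (4 * Real.pi ^ 2) * ?_)
        exact (lint_toC hA).trans (mul_le_mul' le_rfl (Sm_L2 N hg.meas))
    _ = _ := by
        rw [← mul_assoc, ← mul_assoc, ← ENNReal.ofReal_mul (by positivity),
          ← ENNReal.ofReal_mul (by positivity)]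
        congr 2
        ring

theorem Adm.indicator {g : ℝ × ℝ → ℂ} (h : Adm g) {s : Set (ℝ × ℝ)} (hs : MeasurableSet s) :
    Adm (s.indicator g) where
  meas := h.meas.indicator hs
  bdd := by
    obtain ⟨M, hM⟩ := h.bdd
    refine ⟨M, fun x => ?_⟩
    exact (norm_indicator_le_norm_self _ _).trans (hM x)
  supp := fun r ω hr => by
    by_cases hm : (r, ω) ∈ s
    · rw [indicator_of_mem hm]
      exact h.supp r ω hr
    · rw [indicator_of_notMem hm]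

theorem toC_add (G H : ℝ × ℝ → ℂ) : toC (fun p => G p + H p) = fun y => toC G y + toC H y := by
  funext y
  unfold toC
  ring

theorem toC_zero_of {G : ℝ × ℝ → ℂ} (h : Adq G) {y : ℝ × ℝ} (hy : 16 < y.1 ^ 2 + y.2 ^ 2) :
    toC G y = 0 := by
  unfold toC
  rw [polarCoord_apply]
  rw [h.supp, mul_zero]
  intro hm
  have h1 : √(y.1 ^ 2 + y.2 ^ 2) ≤ 4 := hm.2
  have h2 : √(y.1 ^ 2 + y.2 ^ 2) ^ 2 ≤ 4 ^ 2 := by gcongr
  rw [Real.sq_sqrt (by positivity)] at h2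
  linarith

theorem Adq.integrable_toC {G : ℝ × ℝ → ℂ} (h : Adq G) : Integrable (toC G) := by
  obtain ⟨M, hM⟩ := h.bdd
  have hM0 : 0 ≤ M := (norm_nonneg _).trans (hM 0)
  have hb : ∀ y, ‖toC G y‖ ≤ 4 * M := by
    intro y
    unfold toC
    rw [norm_mul, Complex.norm_real, Real.norm_eq_abs]
    by_cases hr : (polarCoord y).1 ∈ Icc (1 / 4 : ℝ) 4
    · have h0 : 0 < (polarCoord y).1 := by linarith [hr.1]
      rw [abs_of_pos (inv_pos.2 h0)]
      gcongr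
      · rw [inv_le_comm₀ h0 (by norm_num)]
        linarith [hr.1]
      · exact hM _
    · have : G (polarCoord y) = 0 := h.supp (polarCoord y).1 (polarCoord y).2 hr
      rw [this, norm_zero, mul_zero]
      positivity
  have h1 : IntegrableOn (toC G) (Icc (-4 : ℝ) 4 ×ˢ Icc (-4 : ℝ) 4) := by
    refine Measure.integrableOn_of_bounded (M := 4 * M) ?_
      (measurable_toC h.meas).aestronglyMeasurable (Eventually.of_forall fun r => hb _)
    rw [Measure.volume_eq_prod, Measure.prod_prod, Real.volume_Icc]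
    exact ENNReal.mul_ne_top ENNReal.ofReal_ne_top ENNReal.ofReal_ne_top
  rwa [integrableOn_iff_integrable_of_support_subset] at h1
  intro y hy
  by_contra hn
  apply hy
  apply toC_zero_of h
  by_contra hcon
  push Not at hcon
  apply hn
  have a1 : |y.1| ≤ 4 := abs_le_of_sq_le_sq (by nlinarith [sq_nonneg y.2]) (by norm_num)
  have a2 : |y.2| ≤ 4 := abs_le_of_sq_le_sq (by nlinarith [sq_nonneg y.1]) (by norm_num)
  exact ⟨abs_le.1 a1, abs_le.1 a2⟩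

theorem Et_toC_add {G H : ℝ × ℝ → ℂ} (hG : Adq G) (hH : Adq H) (p : ℝ × ℝ × ℝ) :
    Et (toC (fun p => G p + H p)) p = Et (toC G) p + Et (toC H) p := by
  rw [toC_add]
  exact Et_add hG.integrable_toC hH.integrable_toC p

/-- The interpolated bound for smoothed densities. -/
theorem pieceR {q : ℝ} (hq : 2 < q) (hq4 : q < 4) {ε : ℝ} (hε : 0 < ε) (hε8 : ε ≤ 1 / 8) :
    ∃ C : ℝ, 0 < C ∧ ∀ (k : ℕ) (N : ℝ), 64 ≤ N → N ^ 2 ≤ (2 : ℝ) ^ k → ∀ g : ℝ × ℝ → ℂ, Adm g →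
    ∫⁻ p, ‖Et (toC (Sm N g)) p‖ₑ ^ q ∂(Restr.Lam (Ik k)) ≤
      ENNReal.ofReal (C * (N ^ (q - 2) * 2 ^ ((k : ℝ) * (3 - q + ε * (q - 2))))) *
        ∫⁻ p, ‖g p‖ₑ ^ q ∂μp := by
  obtain ⟨C, hC, hP⟩ := piece4R hε hε8
  have hm := mq_pos hq hq4
  refine ⟨mq q * ((16 * π ^ 2) ^ ((4 - q) / 2) * C ^ ((q - 2) / 2)), by positivity,
    fun k N hN hk g hg => ?_⟩
  have hN0 : 0 < N := by linarith
  have h := marcinkiewicz (μ := μp) (m := Restr.Lam (Ik k)) Adm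
    (fun r => Et (toC (Sm N r))) (fun f hf => hf.meas)
    (fun f hf => measurable_Et (measurable_toC (measurable_Sm N hf.meas)))
    (fun f s hf hs => hf.indicator hs)
    (fun f s hf hs y => ?_) (A := (16 * π ^ 2) * 2 ^ (k : ℝ))
    (B := C * (N ^ 2 * 2 ^ ((k : ℝ) * (2 * ε - 1)))) (by positivity)
    (by positivity) (fun f hf => piece2R hN k hf)
    (fun f hf => hP k N hN hk f hf) hq hq4 hg
  · refine h.trans (le_of_eq ?_)
    congr 2
    unfold mq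
    have e1 : ((16 * π ^ 2) * 2 ^ (k : ℝ)) ^ ((4 - q) / 2) =
        (16 * π ^ 2) ^ ((4 - q) / 2) * 2 ^ ((k : ℝ) * ((4 - q) / 2)) := by
      rw [Real.mul_rpow (by positivity) (by positivity), ← Real.rpow_mul (by norm_num)]
    have e2 : (C * (N ^ 2 * 2 ^ ((k : ℝ) * (2 * ε - 1)))) ^ ((q - 2) / 2) =
        C ^ ((q - 2) / 2) * (N ^ (q - 2) * 2 ^ ((k : ℝ) * (2 * ε - 1) * ((q - 2) / 2))) := by
      rw [Real.mul_rpow hC.le (by positivity), Real.mul_rpow (by positivity) (by positivity),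
        ← Real.rpow_mul (by norm_num : (0 : ℝ) ≤ 2), ← Real.rpow_natCast, ← Real.rpow_mul hN0.le]
      congr 3
      push_cast
      ring
    have e3 : (2 : ℝ) ^ ((k : ℝ) * (3 - q + ε * (q - 2))) = 2 ^ ((k : ℝ) * ((4 - q) / 2)) *
        2 ^ ((k : ℝ) * (2 * ε - 1) * ((q - 2) / 2)) := by
      rw [← Real.rpow_add (by norm_num)]
      congr 1
      ring
    rw [e1, e2, e3]
    ring
  · have h1 := hf.indicator hs
    have h2 := hf.indicator hs.compl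
    have e : Sm N f = fun x => Sm N (s.indicator f) x + Sm N (sᶜ.indicator f) x := by
      funext x
      rw [← Sm_add N h1.meas h2.meas h1.bdd h2.bdd]
      congr 1
      funext z
      exact (congrFun (indicator_self_add_compl s f) z).symm
    change Et (toC (Sm N f)) y = _
    rw [e]
    exact Et_toC_add (h1.Sm hN) (h2.Sm hN) y

end Pool.Agent.Ray
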