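import Pool.Agent.Ray.Blk1

/-!
# Summation over the smoothing scales inside a time block
-/

open MeasureTheory Set Filter Real
open scoped ENNReal NNReal Topology

namespace Pool.Agent.Ray

open Pool.Agent.Restr

theorem holder_supp {q : ℝ} (hq : 2 ≤ q) {r : ℝ × ℝ → ℂ} (hr : Adq r) {D : ℝ≥0∞}
    (hD : ∫⁻ p, ‖r p‖ₑ ^ q ∂μp ≤ D ^ q) :
    ∫⁻ p, ‖r p‖ₑ ^ 2 ∂μp ≤ ENNReal.ofReal 24 * D ^ 2 := by
  have hq0 : 0 < q := by linarith
  set T : Set (ℝ × ℝ) := Icc (1 / 4 : ℝ) 4 ×ˢ univ with hT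
  have hTm : MeasurableSet T := measurableSet_Icc.prod MeasurableSet.univ
  have e1 : ∫⁻ p, ‖r p‖ₑ ^ 2 ∂μp = ∫⁻ p in T, ‖r p‖ₑ ^ 2 ∂μp := by
    rw [← lintegral_indicator hTm]
    refine lintegral_congr fun p => ?_
    by_cases hp : p ∈ T
    · rw [indicator_of_mem hp]
    · rw [indicator_of_notMem hp, hr.supp p.1 p.2 fun hm => hp ⟨hm, mem_univ _⟩]
      simp
  have hvol : μp T ≤ ENNReal.ofReal 24 := by
    rw [hT]
    unfold μp
    rw [Measure.prod_prod, Real.volume_Icc, μc_univ, ← ENNReal.ofReal_mul (by norm_num)]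
    apply ENNReal.ofReal_le_ofReal
    have := Real.pi_lt_d2
    norm_num at this ⊢
    linarith
  have h := ENNReal.lintegral_mul_norm_pow_le (μ := μp.restrict T) (f := fun p => ‖r p‖ₑ ^ q)
    (g := fun _ => 1) (hr.meas.enorm.pow_const q).aemeasurable aemeasurable_const (p := 2 / q)
    (q := 1 - 2 / q) (by positivity) (by
      have : 2 / q ≤ 1 := by rw [div_le_one hq0]; exact hq
      linarith) (by ring)
  have e2 : ∀ y : ℝ≥0∞, (y ^ q) ^ (2 / q) = y ^ 2 := by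
    intro y
    rw [← ENNReal.rpow_mul, mul_div_cancel₀ _ hq0.ne', ← ENNReal.rpow_natCast]
    norm_num
  simp only [e2, ENNReal.one_rpow, mul_one, lintegral_const, Measure.restrict_apply
    MeasurableSet.univ, univ_inter, one_mul] at h
  rw [e1]
  refine h.trans ?_
  have h3 : ∫⁻ p in T, ‖r p‖ₑ ^ q ∂μp ≤ D ^ q := (setLIntegral_le_lintegral _ _).trans hD
  have hex : 0 ≤ 1 - 2 / q := by
    have : 2 / q ≤ 1 := by rw [div_le_one hq0]; exact hq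
    linarith
  calc (∫⁻ p in T, ‖r p‖ₑ ^ q ∂μp) ^ (2 / q) * μp T ^ (1 - 2 / q)
      ≤ (D ^ q) ^ (2 / q) * (ENNReal.ofReal 24) ^ (1 - 2 / q) := by gcongr
    _ ≤ D ^ 2 * (ENNReal.ofReal 24) ^ (1 : ℝ) := by
        rw [e2]
        gcongr
        · rw [← ENNReal.ofReal_one]
          exact ENNReal.ofReal_le_ofReal (by norm_num)
        · have : 0 ≤ 2 / q := by positivity
          linarith
    _ = _ := by rw [ENNReal.rpow_one, mul_comm]

/-- The constant of the trivial bound. -/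
noncomputable def Ktr (q V : ℝ) : ℝ :=
  (384 * π ^ 2 * V) ^ ((4 - q) / 2) * (36864 * π ^ 4) ^ ((q - 2) / 2)

theorem trivR {q : ℝ} (hq : 2 ≤ q) (hq4 : q ≤ 4) {r : ℝ × ℝ → ℂ} (hr : Adq r) {D : ℝ≥0∞}
    (hD : ∫⁻ p, ‖r p‖ₑ ^ q ∂μp ≤ D ^ q) {I : Set ℝ} {V : ℝ} (hV : 0 ≤ V)
    (hI : volume I ≤ ENNReal.ofReal V) :
    ∫⁻ p, ‖Et (toC r) p‖ₑ ^ q ∂(Restr.Lam I) ≤ ENNReal.ofReal (Ktr q V) * D ^ q := by
  have hL2 : ∫⁻ y, ‖toC r y‖ₑ ^ 2 ≤ ENNReal.ofReal 96 * D ^ 2 := by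
    refine (lint_toC hr).trans ?_
    calc ENNReal.ofReal 4 * ∫⁻ p, ‖r p‖ₑ ^ 2 ∂μp ≤
          ENNReal.ofReal 4 * (ENNReal.ofReal 24 * D ^ 2) :=
          mul_le_mul' le_rfl (holder_supp hq hr hD)
      _ = _ := by
          rw [← mul_assoc, ← ENNReal.ofReal_mul (by norm_num)]
          norm_num
  unfold Ktr
  refine interp (measurable_Et (measurable_toC hr.meas)).enorm hq hq4 (by positivity)
    (by positivity) ?_ ?_
  · refine (block_L2 (measurable_toC hr.meas)).trans ?_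
    calc volume I * (ENNReal.ofReal (4 * π ^ 2) * ∫⁻ x, ‖toC r x‖ₑ ^ 2)
        ≤ ENNReal.ofReal V * (ENNReal.ofReal (4 * π ^ 2) * (ENNReal.ofReal 96 * D ^ 2)) := by
          gcongr
      _ = _ := by
          rw [← mul_assoc, ← mul_assoc, ← ENNReal.ofReal_mul hV,
            ← ENNReal.ofReal_mul (by positivity)]
          congr 2
          ring
  · refine (block_TS (measurable_toC hr.meas)).trans ?_
    calc ENNReal.ofReal (4 * π ^ 4) * (∫⁻ x, ‖toC r x‖ₑ ^ 2) ^ 2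
        ≤ ENNReal.ofReal (4 * π ^ 4) * (ENNReal.ofReal 96 * D ^ 2) ^ 2 := by gcongr
      _ = _ := by
          rw [mul_pow, ← ENNReal.ofReal_pow (by norm_num), ← mul_assoc,
            ← ENNReal.ofReal_mul (by positivity), ← pow_mul]
          congr 2
          ring

/-- The size of a polar density. -/
noncomputable def nm (q : ℝ) (r : ℝ × ℝ → ℂ) : ℝ≥0∞ := (∫⁻ p, ‖r p‖ₑ ^ q ∂μp) ^ (1 / q)

theorem nm_pow {q : ℝ} (hq : 0 < q) (r : ℝ × ℝ → ℂ) : (nm q r) ^ q = ∫⁻ p, ‖r p‖ₑ ^ q ∂μp := by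
  unfold nm
  rw [← ENNReal.rpow_mul, one_div_mul_cancel hq.ne', ENNReal.rpow_one]

theorem nm_sub_le {q : ℝ} (hq : 1 ≤ q) {f g : ℝ × ℝ → ℂ} (hf : Measurable f)
    (hg : Measurable g) : nm q (fun p => f p - g p) ≤ nm q f + nm q g := by
  unfold nm
  have hq0 : 0 ≤ q := by linarith
  refine le_trans ?_ (ENNReal.lintegral_Lp_add_le hf.enorm.aemeasurable hg.enorm.aemeasurable hq)
  refine ENNReal.rpow_le_rpow ?_ (by positivity)
  refine lintegral_mono fun p => ?_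
  exact ENNReal.rpow_le_rpow (enorm_sub_le) hq0

theorem nm_add_le {q : ℝ} (hq : 1 ≤ q) {f g : ℝ × ℝ → ℂ} (hf : Measurable f)
    (hg : Measurable g) : nm q (fun p => f p + g p) ≤ nm q f + nm q g := by
  unfold nm
  have hq0 : 0 ≤ q := by linarith
  refine le_trans ?_ (ENNReal.lintegral_Lp_add_le hf.enorm.aemeasurable hg.enorm.aemeasurable hq)
  refine ENNReal.rpow_le_rpow ?_ (by positivity)
  refine lintegral_mono fun p => ?_
  exact ENNReal.rpow_le_rpow (enorm_add_le _ _) hq0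

theorem nm_Sm_le {q : ℝ} (hq : 1 ≤ q) (N : ℝ) {f : ℝ × ℝ → ℂ} (hf : Measurable f) :
    nm q (Sm N f) ≤ nm q f :=
  ENNReal.rpow_le_rpow (Sm_Lq N hq hf) (by positivity)

/-- The size of the extension on a block. -/
noncomputable def Nk (q : ℝ) (k : ℕ) (r : ℝ × ℝ → ℂ) : ℝ≥0∞ :=
  (∫⁻ p, ‖Et (toC r) p‖ₑ ^ q ∂(Restr.Lam (Ik k))) ^ (1 / q)

theorem Nk_add {q : ℝ} (hq : 1 ≤ q) (k : ℕ) {f g : ℝ × ℝ → ℂ} (hf : Adq f) (hg : Adq g) :
    Nk q k (fun x => f x + g x) ≤ Nk q k f + Nk q k g := by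
  unfold Nk
  refine le_trans ?_ (ENNReal.lintegral_Lp_add_le
    (measurable_Et (measurable_toC hf.meas)).enorm.aemeasurable
    (measurable_Et (measurable_toC hg.meas)).enorm.aemeasurable hq)
  have hq0 : 0 ≤ q := by linarith
  refine ENNReal.rpow_le_rpow ?_ (by positivity)
  refine lintegral_mono fun p => ?_
  refine ENNReal.rpow_le_rpow ?_ hq0
  rw [Et_toC_add hf hg]
  exact enorm_add_le _ _

theorem Nk_le {q : ℝ} (hq : 0 < q) {k : ℕ} {r : ℝ × ℝ → ℂ} {B : ℝ} {D : ℝ≥0∞}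
    (h : ∫⁻ p, ‖Et (toC r) p‖ₑ ^ q ∂(Restr.Lam (Ik k)) ≤ ENNReal.ofReal B * D ^ q) :
    Nk q k r ≤ (ENNReal.ofReal B) ^ (1 / q) * D := by
  unfold Nk
  calc (∫⁻ p, ‖Et (toC r) p‖ₑ ^ q ∂(Restr.Lam (Ik k))) ^ (1 / q)
      ≤ (ENNReal.ofReal B * D ^ q) ^ (1 / q) := by gcongr
    _ = _ := by
        rw [ENNReal.mul_rpow_of_nonneg _ _ (by positivity), ← ENNReal.rpow_mul,
          mul_one_div_cancel hq.ne', ENNReal.rpow_one]

theorem Adq.add {f g : ℝ × ℝ → ℂ} (hf : Adq f) (hg : Adq g) : Adq (fun p => f p + g p) where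
  meas := hf.meas.add hg.meas
  bdd := by
    obtain ⟨M, hM⟩ := hf.bdd
    obtain ⟨M', hM'⟩ := hg.bdd
    exact ⟨M + M', fun p => (norm_add_le _ _).trans (add_le_add (hM p) (hM' p))⟩
  supp := fun r ω hr => by rw [hf.supp r ω hr, hg.supp r ω hr, add_zero]

theorem Adq.sub {f g : ℝ × ℝ → ℂ} (hf : Adq f) (hg : Adq g) : Adq (fun p => f p - g p) where
  meas := hf.meas.sub hg.meas
  bdd := by
    obtain ⟨M, hM⟩ := hf.bdd
    obtain ⟨M', hM'⟩ := hg.bdd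
    exact ⟨M + M', fun p => (norm_sub_le _ _).trans (add_le_add (hM p) (hM' p))⟩
  supp := fun r ω hr => by rw [hf.supp r ω hr, hg.supp r ω hr, sub_zero]

theorem Adm.sub {f g : ℝ × ℝ → ℂ} (hf : Adm f) (hg : Adm g) : Adm (fun p => f p - g p) where
  meas := hf.meas.sub hg.meas
  bdd := by
    obtain ⟨M, hM⟩ := hf.bdd
    obtain ⟨M', hM'⟩ := hg.bdd
    exact ⟨M + M', fun p => (norm_sub_le _ _).trans (add_le_add (hM p) (hM' p))⟩
  supp := fun r ω hr => by rw [hf.supp r ω hr, hg.supp r ω hr, sub_zero]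

/-- The class of polar densities with controlled smoothing errors. -/
structure HypR (q σ : ℝ) (g : ℝ × ℝ → ℂ) (D : ℝ≥0) : Prop where
  meas : Measurable g
  bdd : ∃ M : ℝ, ∀ p, ‖g p‖ ≤ M
  supp : ∀ r ω, r ∉ Icc (1 / 2 : ℝ) 2 → g (r, ω) = 0
  Lq : nm q g ≤ D
  err : ∀ n : ℕ, nm q (fun p => g p - Sm ((2 : ℝ) ^ (n + 6)) g p) ≤
    D * ENNReal.ofReal ((2 : ℝ) ^ (-(((n : ℝ) + 6) * σ)))

variable {q σ : ℝ} {g : ℝ × ℝ → ℂ} {D : ℝ≥0}

theorem HypR.adm (h : HypR q σ g D) : Adm g where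
  meas := h.meas
  bdd := h.bdd
  supp := fun r ω hr => h.supp r ω fun hm => hr ⟨by linarith [hm.1], by linarith [hm.2]⟩

theorem N64 (n : ℕ) : (64 : ℝ) ≤ 2 ^ (n + 6) := by
  calc (64 : ℝ) = 2 ^ 6 := by norm_num
    _ ≤ _ := pow_le_pow_right₀ (by norm_num) (by omega)

theorem HypR.Sadm (h : HypR q σ g D) (n : ℕ) : Adm (Sm ((2 : ℝ) ^ (n + 6)) g) where
  meas := measurable_Sm _ h.meas
  bdd := by
    obtain ⟨M, hM⟩ := h.bdd
    exact ⟨M, norm_Sm_le _ hM⟩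
  supp := fun r ω hr => Sm_supp (N64 n) h.supp r ω fun hm =>
    hr ⟨by linarith [hm.1], by linarith [hm.2]⟩

/-- differences of consecutive smoothings -/
noncomputable def hh (g : ℝ × ℝ → ℂ) (n : ℕ) (p : ℝ × ℝ) : ℂ :=
  Sm ((2 : ℝ) ^ (n + 1 + 6)) g p - Sm ((2 : ℝ) ^ (n + 6)) g p

theorem HypR.hadm (h : HypR q σ g D) (n : ℕ) : Adm (hh g n) := (h.Sadm (n + 1)).sub (h.Sadm n)

theorem HypR.nm_hh (h : HypR q σ g D) (hq : 1 ≤ q) (hσ : 0 ≤ σ) (n : ℕ) :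
    nm q (hh g n) ≤ 2 * (D * ENNReal.ofReal ((2 : ℝ) ^ (-(((n : ℝ) + 6) * σ)))) := by
  have e : hh g n = fun p => (fun p => g p - Sm ((2 : ℝ) ^ (n + 6)) g p) p -
      (fun p => g p - Sm ((2 : ℝ) ^ (n + 1 + 6)) g p) p := by
    funext p
    unfold hh
    simp only
    ring
  have m1 := h.meas.sub (h.Sadm n).meas
  have m2 := h.meas.sub (h.Sadm (n + 1)).meas
  rw [e, two_mul]
  refine (nm_sub_le hq m1 m2).trans (add_le_add (h.err n) ((h.err (n + 1)).trans ?_))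
  refine mul_le_mul' le_rfl (ENNReal.ofReal_le_ofReal
    (Real.rpow_le_rpow_of_exponent_le (by norm_num) ?_))
  push_cast
  nlinarith

/-- the remainders -/
noncomputable def ee (g : ℝ × ℝ → ℂ) (n : ℕ) (p : ℝ × ℝ) : ℂ :=
  g p - Sm ((2 : ℝ) ^ (n + 6)) (Sm ((2 : ℝ) ^ (n + 6)) g) p

theorem HypR.eadq (h : HypR q σ g D) (n : ℕ) : Adq (ee g n) :=
  h.adm.adq.sub ((h.Sadm n).Sm (N64 n))

theorem HypR.nm_ee (h : HypR q σ g D) (hq : 1 ≤ q) (n : ℕ) :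
    nm q (ee g n) ≤ 2 * (D * ENNReal.ofReal ((2 : ℝ) ^ (-(((n : ℝ) + 6) * σ)))) := by
  have m1 := h.meas.sub (h.Sadm n).meas
  have e : ee g n = fun p => (fun p => g p - Sm ((2 : ℝ) ^ (n + 6)) g p) p +
      Sm ((2 : ℝ) ^ (n + 6)) (fun p => g p - Sm ((2 : ℝ) ^ (n + 6)) g p) p := by
    funext p
    unfold ee
    simp only
    rw [Sm_sub _ h.meas (h.Sadm n).meas h.bdd (h.Sadm n).bdd]
    ring
  rw [e, two_mul]
  exact (nm_add_le hq m1 (measurable_Sm _ m1)).trans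
    (add_le_add (h.err n) ((nm_Sm_le hq _ m1).trans (h.err n)))

theorem HypR.tele (h : HypR q σ g D) (n : ℕ) :
    ee g n = fun p => (Sm ((2 : ℝ) ^ (n + 1 + 6)) (hh g n) p +
      Sm ((2 : ℝ) ^ (n + 6)) (hh g n) p) + ee g (n + 1) p := by
  obtain ⟨M, hM⟩ := h.bdd
  funext p
  unfold ee hh
  rw [Sm_sub _ (h.Sadm (n + 1)).meas (h.Sadm n).meas (h.Sadm (n + 1)).bdd (h.Sadm n).bdd,
    Sm_sub _ (h.Sadm (n + 1)).meas (h.Sadm n).meas (h.Sadm (n + 1)).bdd (h.Sadm n).bdd,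
    Sm_comm ((2 : ℝ) ^ (n + 6)) ((2 : ℝ) ^ (n + 1 + 6)) h.meas hM]
  ring

end Pool.Agent.Ray
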