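import Pool.Agent.Ray.Blk2

/-!
# The bound on a time block and the sum over the blocks
-/

open MeasureTheory Set Filter Real
open scoped ENNReal NNReal Topology

namespace Pool.Agent.Ray

open Pool.Agent.Restr

/-- numerical parameters -/
structure Par (q σ ε δ : ℝ) : Prop where
  q3 : 3 < q
  q4 : q < 4
  σ0 : 0 < σ
  σ1 : σ ≤ 1
  ε0 : 0 < ε
  ε8 : ε ≤ 1 / 8
  δ0 : 0 < δ
  δ1 : δ ≤ 1 / 2
  piece : ∀ k x : ℝ, 0 ≤ x → 2 * x ≤ k →
    x * (q - 2 - σ * q) + k * (3 - q + ε * (q - 2)) ≤ -(δ * k)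
  rem : ∀ k : ℝ, 0 ≤ k → k * ((4 - q) / 2) - (k - 1) / 2 * (σ * q) ≤ -(δ * k) + 2

theorem exists_par {q σ : ℝ} (hq : 3 < q) (hq4 : q < 4) (hσ : 4 / q - 1 < σ) (hσ1 : σ ≤ 1) :
    ∃ ε δ, Par q σ ε δ := by
  have hq0 : 0 < q := by linarith
  have hσq : 4 - q < σ * q := by
    have h1 : 4 / q < σ + 1 := by linarith
    rw [div_lt_iff₀ hq0] at h1
    linarith
  have hσ0 : 0 < σ := by
    by_contra hcon
    push Not at hcon
    nlinarith
  set δ : ℝ := min (q - 3) ((σ * q - (4 - q)) / 2) / 2 with hδ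
  have hδ0 : 0 < δ := by
    rw [hδ]
    have : 0 < min (q - 3) ((σ * q - (4 - q)) / 2) := lt_min (by linarith) (by linarith)
    linarith
  have hd1 : 2 * δ ≤ q - 3 := by
    have := min_le_left (q - 3) ((σ * q - (4 - q)) / 2)
    rw [hδ]
    linarith
  have hd2 : 2 * δ ≤ (σ * q - (4 - q)) / 2 := by
    have := min_le_right (q - 3) ((σ * q - (4 - q)) / 2)
    rw [hδ]
    linarith
  have hq2 : 0 < q - 2 := by linarith
  set ε : ℝ := min (1 / 8) (δ / (q - 2)) with hε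
  have hε0 : 0 < ε := lt_min (by norm_num) (by positivity)
  have hεδ : ε * (q - 2) ≤ δ := by
    have h1 : ε ≤ δ / (q - 2) := min_le_right _ _
    rwa [le_div_iff₀ hq2] at h1
  refine ⟨ε, δ, hq, hq4, hσ0, hσ1, hε0, min_le_left _ _, hδ0, by linarith, ?_, ?_⟩
  · intro k x hx hk
    have hk0 : 0 ≤ k := by linarith
    have h1 : k * (ε * (q - 2)) ≤ k * δ := mul_le_mul_of_nonneg_left hεδ hk0
    rcases le_or_gt (q - 2 - σ * q) 0 with ha | ha
    · have h2 : x * (q - 2 - σ * q) ≤ 0 := mul_nonpos_of_nonneg_of_nonpos hx ha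
      have h3 : k * (2 * δ) ≤ k * (q - 3) := mul_le_mul_of_nonneg_left hd1 hk0
      nlinarith
    · have h2 : x * (q - 2 - σ * q) ≤ k / 2 * (q - 2 - σ * q) :=
        mul_le_mul_of_nonneg_right (by linarith) ha.le
      have h3 : k * (2 * δ) ≤ k * ((σ * q - (4 - q)) / 2) := mul_le_mul_of_nonneg_left hd2 hk0
      nlinarith
  · intro k hk0
    have h3 : k * (2 * δ) ≤ k * ((σ * q - (4 - q)) / 2) := mul_le_mul_of_nonneg_left hd2 hk0
    have h4 : 0 ≤ k * δ := mul_nonneg hk0 hδ0.le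
    have h5 : σ * q ≤ 4 := by nlinarith
    nlinarith

theorem absorb {q : ℝ} (hq : 0 < q) {B c : ℝ} (hB : 0 ≤ B) (hc : 0 ≤ c) :
    (ENNReal.ofReal B) ^ (1 / q) * ENNReal.ofReal c = (ENNReal.ofReal (B * c ^ q)) ^ (1 / q) := by
  rw [ENNReal.ofReal_mul hB, ENNReal.mul_rpow_of_nonneg _ _ (by positivity),
    ← ENNReal.ofReal_rpow_of_nonneg hc hq.le, ← ENNReal.rpow_mul, mul_one_div_cancel hq.ne',
    ENNReal.rpow_one]

theorem rp3 (a b c : ℝ) : (2 : ℝ) ^ (a + b + c) = 2 ^ a * 2 ^ b * 2 ^ c := by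
  rw [Real.rpow_add (by norm_num), Real.rpow_add (by norm_num)]

variable {q σ ε δ : ℝ}

theorem Nk_small (P : Par q σ ε δ) {K1 : ℝ} (hK1 : 0 < K1)
    (hP : ∀ (k : ℕ) (N : ℝ), 64 ≤ N → N ^ 2 ≤ (2 : ℝ) ^ k → ∀ g : ℝ × ℝ → ℂ, Adm g →
      ∫⁻ p, ‖Et (toC (Sm N g)) p‖ₑ ^ q ∂(Restr.Lam (Ik k)) ≤
        ENNReal.ofReal (K1 * (N ^ (q - 2) * 2 ^ ((k : ℝ) * (3 - q + ε * (q - 2))))) *
          ∫⁻ p, ‖g p‖ₑ ^ q ∂μp) {k m : ℕ} (hk : 2 * (m + 6) ≤ k) {g : ℝ × ℝ → ℂ} (hg : Adm g)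
    {c : ℝ} (hc : 0 ≤ c) {D : ℝ≥0} (hD : nm q g ≤ ENNReal.ofReal c * D) {B : ℝ}
    (hB : K1 * (2 ^ (((m : ℝ) + 6) * (q - 2)) * 2 ^ ((k : ℝ) * (3 - q + ε * (q - 2)))) * c ^ q ≤ B) :
    Nk q k (Sm ((2 : ℝ) ^ (m + 6)) g) ≤ (ENNReal.ofReal B) ^ (1 / q) * D := by
  have hq0 : 0 < q := by linarith [P.q3]
  have hN : ((2 : ℝ) ^ (m + 6)) ^ 2 ≤ 2 ^ k := by
    rw [← pow_mul]
    exact pow_le_pow_right₀ (by norm_num) (by omega)
  have h1 := hP k _ (N64 m) hN g hg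
  rw [← nm_pow hq0] at h1
  have h2 := Nk_le hq0 h1
  have e : ((2 : ℝ) ^ (m + 6)) ^ (q - 2) = 2 ^ (((m : ℝ) + 6) * (q - 2)) := by
    rw [← Real.rpow_natCast, ← Real.rpow_mul (by norm_num)]
    push_cast
    rfl
  rw [e] at h2
  calc Nk q k (Sm ((2 : ℝ) ^ (m + 6)) g) ≤ _ := h2
    _ ≤ (ENNReal.ofReal (K1 * (2 ^ (((m : ℝ) + 6) * (q - 2)) *
        2 ^ ((k : ℝ) * (3 - q + ε * (q - 2)))))) ^ (1 / q) * (ENNReal.ofReal c * D) := by
        gcongr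
    _ = (ENNReal.ofReal (K1 * (2 ^ (((m : ℝ) + 6) * (q - 2)) *
        2 ^ ((k : ℝ) * (3 - q + ε * (q - 2)))) * c ^ q)) ^ (1 / q) * D := by
        rw [← mul_assoc, absorb hq0 (by positivity) hc]
    _ ≤ _ := by gcongr

/-- the constant of the trivial bound without the volume -/
noncomputable def K2 (q : ℝ) : ℝ := (384 * π ^ 2) ^ ((4 - q) / 2) * (36864 * π ^ 4) ^ ((q - 2) / 2)

theorem K2_pos (q : ℝ) : 0 < K2 q := by unfold K2; positivity

theorem Ktr_eq (q : ℝ) (k : ℕ) : Ktr q ((2 : ℝ) ^ (k : ℝ)) = K2 q * 2 ^ ((k : ℝ) * ((4 - q) / 2)) := by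
  unfold Ktr K2
  rw [Real.mul_rpow (by positivity) (by positivity), ← Real.rpow_mul (by norm_num)]
  ring

theorem Nk_triv (P : Par q σ ε δ) {k : ℕ} {r : ℝ × ℝ → ℂ} (hr : Adq r) {c : ℝ} (hc : 0 ≤ c)
    {D : ℝ≥0} (hD : nm q r ≤ ENNReal.ofReal c * D) {B : ℝ}
    (hB : K2 q * 2 ^ ((k : ℝ) * ((4 - q) / 2)) * c ^ q ≤ B) :
    Nk q k r ≤ (ENNReal.ofReal B) ^ (1 / q) * D := by
  have hq0 : 0 < q := by linarith [P.q3]
  have hK := K2_pos q
  have h1 := trivR (q := q) (by linarith [P.q3]) P.q4.le hr (D := nm q r)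
    (by rw [nm_pow hq0]) (I := Ik k) (V := (2 : ℝ) ^ (k : ℝ)) (by positivity) (volume_Ik k).le
  rw [Ktr_eq] at h1
  have h2 := Nk_le hq0 h1
  calc Nk q k r ≤ _ := h2
    _ ≤ (ENNReal.ofReal (K2 q * 2 ^ ((k : ℝ) * ((4 - q) / 2)))) ^ (1 / q) *
        (ENNReal.ofReal c * D) := by gcongr
    _ = (ENNReal.ofReal (K2 q * 2 ^ ((k : ℝ) * ((4 - q) / 2)) * c ^ q)) ^ (1 / q) * D := by
        rw [← mul_assoc, absorb hq0 (by positivity) hc]
    _ ≤ _ := by gcongr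

theorem HypR.block (P : Par q σ ε δ) : ∃ Kc : ℝ, 0 < Kc ∧ ∀ (g : ℝ × ℝ → ℂ) (D : ℝ≥0),
    HypR q σ g D → ∀ k : ℕ, Nk q k g ≤ ((k : ℝ≥0∞) + 3) *
      ((ENNReal.ofReal (Kc * 2 ^ (-(δ * k)))) ^ (1 / q) * D) := by
  obtain ⟨K1, hK1, hP⟩ := pieceR (q := q) (by linarith [P.q3]) P.q4 P.ε0 P.ε8
  have hK2 := K2_pos q
  have q3 := P.q3
  have q4 := P.q4
  have hq0 : 0 < q := by linarith
  have hq1 : 1 ≤ q := by linarith
  have hσ0 := P.σ0
  refine ⟨2 ^ (12 : ℝ) * (K1 + K2 q), by positivity, fun g D h k => ?_⟩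
  have hk0 : (0 : ℝ) ≤ k := Nat.cast_nonneg k
  set Kc : ℝ := 2 ^ (12 : ℝ) * (K1 + K2 q) with hKc
  set β : ℝ≥0∞ := (ENNReal.ofReal (Kc * 2 ^ (-(δ * k)))) ^ (1 / q) * D with hβ
  have hKa : K1 * 2 ^ (12 : ℝ) ≤ Kc := by
    rw [hKc]
    have : 0 ≤ (2 : ℝ) ^ (12 : ℝ) * K2 q := by positivity
    linarith
  have hKb : K2 q * 2 ^ (12 : ℝ) ≤ Kc := by
    rw [hKc]
    have : 0 ≤ (2 : ℝ) ^ (12 : ℝ) * K1 := by positivity
    linarith
  rcases lt_or_ge k 12 with hk | hk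
  · -- small blocks
    have h1 : Nk q k g ≤ β := by
      rw [hβ]
      refine Nk_triv P h.adm.adq (c := 1) zero_le_one (by
        rw [ENNReal.ofReal_one, one_mul]; exact h.Lq) ?_
      rw [Real.one_rpow, mul_one]
      have h2 : (2 : ℝ) ^ ((k : ℝ) * ((4 - q) / 2)) ≤ 2 ^ (12 : ℝ) * 2 ^ (-(δ * k)) := by
        rw [← Real.rpow_add (by norm_num)]
        apply Real.rpow_le_rpow_of_exponent_le (by norm_num)
        have hk' : (k : ℝ) ≤ 11 := by exact_mod_cast Nat.lt_succ_iff.1 hk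
        have h3 : (k : ℝ) * ((4 - q) / 2) ≤ 11 * (1 / 2) := by
          apply mul_le_mul hk' (by linarith) (by linarith) (by norm_num)
        have h4 : δ * k ≤ 1 / 2 * 11 := mul_le_mul P.δ1 hk' hk0 (by norm_num)
        linarith
      calc K2 q * 2 ^ ((k : ℝ) * ((4 - q) / 2)) ≤ K2 q * (2 ^ (12 : ℝ) * 2 ^ (-(δ * k))) := by
            gcongr
        _ = (K2 q * 2 ^ (12 : ℝ)) * 2 ^ (-(δ * k)) := by ring
        _ ≤ _ := by gcongr
    calc Nk q k g ≤ 1 * β := by rw [one_mul]; exact h1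
      _ ≤ _ := by
          gcongr
          have : 1 ≤ k + 3 := by omega
          exact_mod_cast this
  · -- large blocks
    obtain ⟨J, hJ1, hJ2⟩ : ∃ J : ℕ, 2 * (J + 6) ≤ k ∧ k ≤ 2 * (J + 6) + 1 :=
      ⟨k / 2 - 6, by omega, by omega⟩
    have hpiece : ∀ n m : ℕ, n ≤ m → m ≤ n + 1 → 2 * (m + 6) ≤ k →
        Nk q k (Sm ((2 : ℝ) ^ (m + 6)) (hh g n)) ≤ β := by
      intro n m hnm hmn hmk
      have hn0 : (0 : ℝ) ≤ n := Nat.cast_nonneg n
      have hmn' : (m : ℝ) ≤ n + 1 := by exact_mod_cast hmn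
      have hmk' : 2 * ((n : ℝ) + 6) ≤ k := by
        have h1 : 2 * (n + 6) ≤ k := by omega
        exact_mod_cast h1
      rw [hβ]
      refine Nk_small P hK1 hP hmk (h.hadm n) (c := 2 * 2 ^ (-(((n : ℝ) + 6) * σ)))
        (by positivity) ?_ ?_
      · refine (h.nm_hh hq1 hσ0.le n).trans (le_of_eq ?_)
        rw [ENNReal.ofReal_mul (by norm_num)]
        norm_num
        ring
      · have e1 : ((2 : ℝ) * 2 ^ (-(((n : ℝ) + 6) * σ))) ^ q =
            2 ^ (q + -(((n : ℝ) + 6) * σ) * q) := by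
          rw [Real.mul_rpow (by norm_num) (by positivity), ← Real.rpow_mul (by norm_num),
            ← Real.rpow_add (by norm_num)]
        rw [e1]
        have e2 : K1 * ((2 : ℝ) ^ (((m : ℝ) + 6) * (q - 2)) *
            2 ^ ((k : ℝ) * (3 - q + ε * (q - 2)))) * 2 ^ (q + -(((n : ℝ) + 6) * σ) * q) =
            K1 * 2 ^ (((m : ℝ) + 6) * (q - 2) + (k : ℝ) * (3 - q + ε * (q - 2)) +
              (q + -(((n : ℝ) + 6) * σ) * q)) := by
          rw [rp3]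
          ring
        rw [e2]
        have h3 := P.piece k ((n : ℝ) + 6) (by linarith) hmk'
        have h4 : ((m : ℝ) + 6) * (q - 2) + (k : ℝ) * (3 - q + ε * (q - 2)) +
              (q + -(((n : ℝ) + 6) * σ) * q) ≤ 12 + -(δ * k) := by
          have h5 : ((m : ℝ) + 6) * (q - 2) ≤ ((n : ℝ) + 7) * (q - 2) :=
            mul_le_mul_of_nonneg_right (by linarith) (by linarith)
          nlinarith
        calc K1 * (2 : ℝ) ^ (((m : ℝ) + 6) * (q - 2) + (k : ℝ) * (3 - q + ε * (q - 2)) +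
              (q + -(((n : ℝ) + 6) * σ) * q)) ≤ K1 * 2 ^ (12 + -(δ * k)) := by
              gcongr
              norm_num
          _ = (K1 * 2 ^ (12 : ℝ)) * 2 ^ (-(δ * k)) := by
              rw [Real.rpow_add (by norm_num)]
              ring
          _ ≤ _ := by gcongr
    have hbase : Nk q k (Sm ((2 : ℝ) ^ (0 + 6)) (Sm ((2 : ℝ) ^ (0 + 6)) g)) ≤ β := by
      rw [hβ]
      refine Nk_small P hK1 hP (by omega) (h.Sadm 0) (c := 1) zero_le_one ?_ ?_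
      · rw [ENNReal.ofReal_one, one_mul]
        exact (nm_Sm_le hq1 _ h.meas).trans h.Lq
      · rw [Real.one_rpow, mul_one]
        have h3 := P.piece k 0 le_rfl (by linarith)
        rw [zero_mul, zero_add] at h3
        rw [← Real.rpow_add (by norm_num)]
        calc K1 * (2 : ℝ) ^ ((((0 : ℕ) : ℝ) + 6) * (q - 2) + (k : ℝ) * (3 - q + ε * (q - 2)))
            ≤ K1 * 2 ^ (12 + -(δ * k)) := by
              refine mul_le_mul_of_nonneg_left
                (Real.rpow_le_rpow_of_exponent_le (by norm_num) ?_) hK1.le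
              push_cast
              linarith
          _ = (K1 * 2 ^ (12 : ℝ)) * 2 ^ (-(δ * k)) := by
              rw [Real.rpow_add (by norm_num)]
              ring
          _ ≤ _ := by gcongr
    have hrem : Nk q k (ee g J) ≤ β := by
      rw [hβ]
      have hJ2' : ((k : ℝ) - 1) / 2 ≤ (J : ℝ) + 6 := by
        have : (k : ℝ) ≤ 2 * ((J : ℝ) + 6) + 1 := by exact_mod_cast hJ2
        linarith
      refine Nk_triv P (h.eadq J) (c := 2 * 2 ^ (-(((J : ℝ) + 6) * σ)))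
        (by positivity) ?_ ?_
      · refine (h.nm_ee hq1 J).trans (le_of_eq ?_)
        rw [ENNReal.ofReal_mul (by norm_num)]
        norm_num
        ring
      · have e1 : ((2 : ℝ) * 2 ^ (-(((J : ℝ) + 6) * σ))) ^ q =
            2 ^ (q + -(((J : ℝ) + 6) * σ) * q) := by
          rw [Real.mul_rpow (by norm_num) (by positivity), ← Real.rpow_mul (by norm_num),
            ← Real.rpow_add (by norm_num)]
        rw [e1, mul_assoc, ← Real.rpow_add (by norm_num)]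
        have h3 := P.rem k hk0
        have h4 : (k : ℝ) * ((4 - q) / 2) + (q + -(((J : ℝ) + 6) * σ) * q) ≤ 12 + -(δ * k) := by
          have h5 : ((k : ℝ) - 1) / 2 * (σ * q) ≤ ((J : ℝ) + 6) * (σ * q) :=
            mul_le_mul_of_nonneg_right hJ2' (by positivity)
          nlinarith
        calc K2 q * (2 : ℝ) ^ ((k : ℝ) * ((4 - q) / 2) + (q + -(((J : ℝ) + 6) * σ) * q))
            ≤ K2 q * 2 ^ (12 + -(δ * k)) := by
              gcongr
              norm_num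
          _ = (K2 q * 2 ^ (12 : ℝ)) * 2 ^ (-(δ * k)) := by
              rw [Real.rpow_add (by norm_num)]
              ring
          _ ≤ _ := by gcongr
    have hind : ∀ n, n ≤ J → Nk q k (ee g 0) ≤ (2 * (n : ℝ≥0∞)) * β + Nk q k (ee g n) := by
      intro n
      induction n with
      | zero => intro _; simp
      | succ n ih =>
        intro hn
        refine (ih (by omega)).trans ?_
        have h1 := h.tele n
        have hA1 : Adq (Sm ((2 : ℝ) ^ (n + 1 + 6)) (hh g n)) := (h.hadm n).Sm (N64 (n + 1))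
        have hA2 : Adq (Sm ((2 : ℝ) ^ (n + 6)) (hh g n)) := (h.hadm n).Sm (N64 n)
        have h2 : Nk q k (ee g n) ≤ (β + β) + Nk q k (ee g (n + 1)) := by
          rw [h1]
          refine (Nk_add hq1 k (hA1.add hA2) (h.eadq (n + 1))).trans ?_
          gcongr
          refine (Nk_add hq1 k hA1 hA2).trans ?_
          exact add_le_add (hpiece n (n + 1) (by omega) le_rfl (by omega))
            (hpiece n n le_rfl (by omega) (by omega))
        calc (2 * (n : ℝ≥0∞)) * β + Nk q k (ee g n)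
            ≤ (2 * (n : ℝ≥0∞)) * β + ((β + β) + Nk q k (ee g (n + 1))) := by gcongr
          _ = _ := by push_cast; ring
    have hsplit : g = fun p => Sm ((2 : ℝ) ^ (0 + 6)) (Sm ((2 : ℝ) ^ (0 + 6)) g) p + ee g 0 p := by
      funext p
      unfold ee
      ring
    calc Nk q k g = Nk q k (fun p => Sm ((2 : ℝ) ^ (0 + 6)) (Sm ((2 : ℝ) ^ (0 + 6)) g) p +
          ee g 0 p) := by rw [← hsplit]
      _ ≤ Nk q k (Sm ((2 : ℝ) ^ (0 + 6)) (Sm ((2 : ℝ) ^ (0 + 6)) g)) + Nk q k (ee g 0) :=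
          Nk_add hq1 k ((h.Sadm 0).Sm (N64 0)) (h.eadq 0)
      _ ≤ β + ((2 * (J : ℝ≥0∞)) * β + β) :=
          add_le_add hbase ((hind J le_rfl).trans (by gcongr))
      _ = (2 * (J : ℝ≥0∞) + 2) * β := by ring
      _ ≤ _ := by
          gcongr ?_ * _
          have : 2 * J + 2 ≤ k + 3 := by omega
          exact_mod_cast this

theorem HypR.block_pow (P : Par q σ ε δ) : ∃ Kc : ℝ, 0 < Kc ∧ ∀ (g : ℝ × ℝ → ℂ) (D : ℝ≥0),
    HypR q σ g D → ∀ k : ℕ, ∫⁻ p, ‖Et (toC g) p‖ₑ ^ q ∂(Restr.Lam (Ik k)) ≤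
      ENNReal.ofReal (((k : ℝ) + 3) ^ 4 * (Kc * 2 ^ (-(δ * k)))) * (D : ℝ≥0∞) ^ q := by
  obtain ⟨Kc, hKc, hB⟩ := HypR.block P
  refine ⟨Kc, hKc, fun g D h k => ?_⟩
  have hq4 := P.q4
  have hq0 : 0 < q := by linarith [P.q3]
  have h1 := hB g D h k
  have e1 : ∀ y : ℝ≥0∞, (y ^ (1 / q)) ^ q = y := by
    intro y
    rw [← ENNReal.rpow_mul, one_div, inv_mul_cancel₀ hq0.ne', ENNReal.rpow_one]
  have h2 : ∫⁻ p, ‖Et (toC g) p‖ₑ ^ q ∂(Restr.Lam (Ik k)) ≤ (((k : ℝ≥0∞) + 3) *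
      ((ENNReal.ofReal (Kc * 2 ^ (-(δ * k)))) ^ (1 / q) * D)) ^ q := by
    calc ∫⁻ p, ‖Et (toC g) p‖ₑ ^ q ∂(Restr.Lam (Ik k)) = (Nk q k g) ^ q := (e1 _).symm
      _ ≤ _ := by gcongr
  refine h2.trans ?_
  rw [ENNReal.mul_rpow_of_nonneg _ _ hq0.le, ENNReal.mul_rpow_of_nonneg _ _ hq0.le, e1,
    ENNReal.ofReal_mul (p := ((k : ℝ) + 3) ^ 4) (by positivity),
    mul_assoc (ENNReal.ofReal (((k : ℝ) + 3) ^ 4))]
  gcongr ?_ * _
  have h3 : (1 : ℝ≥0∞) ≤ (k : ℝ≥0∞) + 3 := by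
    have : 1 ≤ k + 3 := by omega
    exact_mod_cast this
  calc ((k : ℝ≥0∞) + 3) ^ q ≤ ((k : ℝ≥0∞) + 3) ^ (4 : ℝ) :=
        ENNReal.rpow_le_rpow_of_exponent_le h3 hq4.le
    _ = ((k : ℝ≥0∞) + 3) ^ 4 := by
        rw [show (4 : ℝ) = ((4 : ℕ) : ℝ) by norm_num, ENNReal.rpow_natCast]
    _ = ENNReal.ofReal (((k : ℝ) + 3) ^ 4) := by
        rw [ENNReal.ofReal_pow (by positivity)]
        congr 1
        rw [ENNReal.ofReal_add (by positivity) (by norm_num), ENNReal.ofReal_natCast]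
        norm_num

theorem summable_bl {δ : ℝ} (hδ : 0 < δ) (Kc : ℝ) :
    Summable fun k : ℕ => ((k : ℝ) + 3) ^ 4 * (Kc * 2 ^ (-(δ * (k : ℝ)))) := by
  set ρ : ℝ := (2 : ℝ) ^ (-δ) with hρ
  have hρ0 : 0 < ρ := by positivity
  have hρ1 : ρ < 1 := Real.rpow_lt_one_of_one_lt_of_neg (by norm_num) (by linarith)
  have h1 : Summable fun n : ℕ => (n : ℝ) ^ 4 * ρ ^ n :=
    summable_pow_mul_geometric_of_norm_lt_one 4 (by
      rw [Real.norm_of_nonneg hρ0.le]; exact hρ1)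
  have h2 := ((summable_nat_add_iff 3).2 h1).mul_right (Kc * (ρ ^ 3)⁻¹)
  refine h2.congr fun k => ?_
  have e1 : (2 : ℝ) ^ (-(δ * (k : ℝ))) = ρ ^ k := by
    rw [hρ, ← Real.rpow_natCast (_ ^ _) k, ← Real.rpow_mul (by norm_num)]
    congr 1
    ring
  rw [e1]
  push_cast
  rw [pow_add]
  field_simp

theorem exists_posR (P : Par q σ ε δ) : ∃ C : ℝ≥0,
    ∀ (g : ℝ × ℝ → ℂ) (D : ℝ≥0), HypR q σ g D →
      ∫⁻ t in Ici (0 : ℝ), gsl q (toC g) t ≤ C * (D : ℝ≥0∞) ^ q := by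
  obtain ⟨Kc, hKc, hB⟩ := HypR.block_pow P
  have hq := P.q3
  have hq4 := P.q4
  have hq0 : 0 < q := by linarith
  set c : ℕ → ℝ := fun k => ((k : ℝ) + 3) ^ 4 * (Kc * 2 ^ (-(δ * (k : ℝ)))) with hc
  have hc0 : ∀ k, 0 ≤ c k := fun k => by positivity
  refine ⟨(Ktr q 1).toNNReal + (∑' k, c k).toNNReal, fun g D h => ?_⟩
  have hmeas : Measurable (toC g) := measurable_toC h.meas
  have hlarge : ∫⁻ t in Ici (1 : ℝ), gsl q (toC g) t ≤
      ENNReal.ofReal (∑' k, c k) * (D : ℝ≥0∞) ^ q := by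
    calc ∫⁻ t in Ici (1 : ℝ), gsl q (toC g) t ≤ ∫⁻ t in ⋃ k, Ik k, gsl q (toC g) t :=
          lintegral_mono_set Ici_subset
      _ ≤ ∑' k, ∫⁻ t in Ik k, gsl q (toC g) t := lintegral_iUnion_le _ _
      _ ≤ ∑' k, ENNReal.ofReal (c k) * (D : ℝ≥0∞) ^ q := by
          refine ENNReal.tsum_le_tsum fun k => ?_
          rw [← lam_eq hmeas]
          exact hB g D h k
      _ = (∑' k, ENNReal.ofReal (c k)) * (D : ℝ≥0∞) ^ q := ENNReal.tsum_mul_right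
      _ = _ := by rw [ENNReal.ofReal_tsum_of_nonneg hc0 (summable_bl P.δ0 Kc)]
  have hsmall : ∫⁻ t in Ico (0 : ℝ) 1, gsl q (toC g) t ≤
      ENNReal.ofReal (Ktr q 1) * (D : ℝ≥0∞) ^ q := by
    rw [← lam_eq hmeas]
    refine trivR (by linarith) hq4.le h.adm.adq ?_ (by norm_num) ?_
    · rw [← nm_pow hq0]
      gcongr
      exact h.Lq
    · rw [Real.volume_Ico, sub_zero]
  have hsub : Ici (0 : ℝ) ⊆ Ico 0 1 ∪ Ici 1 := by
    intro t ht
    rcases lt_or_ge t 1 with h1 | h1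
    · exact Or.inl ⟨ht, h1⟩
    · exact Or.inr h1
  calc ∫⁻ t in Ici (0 : ℝ), gsl q (toC g) t ≤ ∫⁻ t in Ico (0 : ℝ) 1 ∪ Ici 1, gsl q (toC g) t :=
        lintegral_mono_set hsub
    _ ≤ (∫⁻ t in Ico (0 : ℝ) 1, gsl q (toC g) t) + ∫⁻ t in Ici (1 : ℝ), gsl q (toC g) t :=
        lintegral_union_le _ _ _
    _ ≤ ENNReal.ofReal (Ktr q 1) * (D : ℝ≥0∞) ^ q +
        ENNReal.ofReal (∑' k, c k) * (D : ℝ≥0∞) ^ q := add_le_add hsmall hlarge
    _ = _ := by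
        rw [← add_mul]
        rfl

end Pool.Agent.Ray
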