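import Pool.Agent.Restr.Good

/-!
# The circle: periodic shifts, the Gaussian four-fold kernel
-/

open MeasureTheory Set Filter Real
open scoped ENNReal NNReal Topology

namespace Pool.Agent.Ray

open Pool.Agent.Restr

/-- One period. -/
noncomputable def μc : Measure ℝ := volume.restrict (Ioc (-π) π)

instance : IsFiniteMeasure μc := by
  unfold μc
  infer_instance

theorem lintegral_shift {f : ℝ → ℝ≥0∞} (hp : Function.Periodic f (2 * π)) (a : ℝ) :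
    ∫⁻ x, f (x + a) ∂μc = ∫⁻ x, f x ∂μc := by
  have : Fact (0 < 2 * π) := ⟨Real.two_pi_pos⟩
  have h1 := AddCircle.lintegral_preimage (2 * π) (-π) hp.lift
  have h2 := AddCircle.lintegral_preimage (2 * π) (-π)
    (fun b : AddCircle (2 * π) => hp.lift (b + (a : AddCircle (2 * π))))
  rw [lintegral_add_right_eq_self hp.lift (a : AddCircle (2 * π)), ← h1] at h2
  have e : -π + 2 * π = π := by ring
  rw [e] at h2
  unfold μc
  calc ∫⁻ x in Ioc (-π) π, f (x + a)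
      = ∫⁻ x in Ioc (-π) π, hp.lift ((x : AddCircle (2 * π)) + (a : AddCircle (2 * π))) := by
        refine lintegral_congr fun x => ?_
        rw [← AddCircle.coe_add, Function.Periodic.lift_coe]
    _ = ∫⁻ x in Ioc (-π) π, hp.lift (x : AddCircle (2 * π)) := h2
    _ = ∫⁻ x in Ioc (-π) π, f x := by
        refine lintegral_congr fun x => ?_
        rw [Function.Periodic.lift_coe]

/-- The point of the circle with angle `2ω`. -/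
noncomputable def c2 (ω : ℝ) : ℝ × ℝ := (cos (2 * ω), sin (2 * ω))

theorem continuous_c2 : Continuous c2 := by
  unfold c2
  fun_prop

theorem c2_periodic (ω : ℝ) : c2 (ω + 2 * π) = c2 ω := by
  unfold c2
  rw [show 2 * (ω + 2 * π) = 2 * ω + 2 * π + 2 * π by ring]
  simp only [Real.cos_add_two_pi, Real.sin_add_two_pi]

/-- rotation by the angle `2a` -/
noncomputable def R2 (a : ℝ) (v : ℝ × ℝ) : ℝ × ℝ :=
  (cos (2 * a) * v.1 - sin (2 * a) * v.2, sin (2 * a) * v.1 + cos (2 * a) * v.2)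

theorem c2_add (ω a : ℝ) : c2 (ω + a) = R2 a (c2 ω) := by
  unfold c2 R2
  rw [show 2 * (ω + a) = 2 * ω + 2 * a by ring, Real.cos_add, Real.sin_add]
  ext <;> simp only <;> ring

theorem R2_add (a : ℝ) (v w : ℝ × ℝ) : R2 a (v + w) = R2 a v + R2 a w := by
  unfold R2
  ext <;> simp only [Prod.fst_add, Prod.snd_add] <;> ring

theorem R2_sub (a : ℝ) (v w : ℝ × ℝ) : R2 a (v - w) = R2 a v - R2 a w := by
  unfold R2
  ext <;> simp only [Prod.fst_sub, Prod.snd_sub] <;> ring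

/-- The Gaussian kernel in the plane. -/
noncomputable def gkk (δ : ℝ) (v : ℝ × ℝ) : ℝ≥0∞ :=
  ENNReal.ofReal (gk δ v.1) * ENNReal.ofReal (gk δ v.2)

theorem measurable_gkk (δ : ℝ) : Measurable (gkk δ) := by
  unfold gkk
  have := (continuous_gk δ).measurable
  fun_prop

theorem gkk_eq {δ : ℝ} (hδ : 0 < δ) (v : ℝ × ℝ) :
    gkk δ v = ENNReal.ofReal (π / δ * Real.exp (-(v.1 ^ 2 + v.2 ^ 2) / (4 * δ))) := by
  unfold gkk gk
  rw [← ENNReal.ofReal_mul (by positivity)]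
  congr 1
  have h1 : √(π / δ) * √(π / δ) = π / δ := Real.mul_self_sqrt (by positivity)
  have h2 : Real.exp (-v.1 ^ 2 / (4 * δ)) * Real.exp (-v.2 ^ 2 / (4 * δ)) =
      Real.exp (-(v.1 ^ 2 + v.2 ^ 2) / (4 * δ)) := by
    rw [← Real.exp_add]
    congr 1
    ring
  calc √(π / δ) * Real.exp (-v.1 ^ 2 / (4 * δ)) * (√(π / δ) * Real.exp (-v.2 ^ 2 / (4 * δ)))
      = (√(π / δ) * √(π / δ)) *
        (Real.exp (-v.1 ^ 2 / (4 * δ)) * Real.exp (-v.2 ^ 2 / (4 * δ))) := by ring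
    _ = _ := by rw [h1, h2]

theorem gkk_R2 {δ : ℝ} (hδ : 0 < δ) (a : ℝ) (v : ℝ × ℝ) : gkk δ (R2 a v) = gkk δ v := by
  rw [gkk_eq hδ, gkk_eq hδ]
  have h : (R2 a v).1 ^ 2 + (R2 a v).2 ^ 2 = v.1 ^ 2 + v.2 ^ 2 := by
    unfold R2
    have := Real.sin_sq_add_cos_sq (2 * a)
    simp only
    calc (cos (2 * a) * v.1 - sin (2 * a) * v.2) ^ 2 + (sin (2 * a) * v.1 + cos (2 * a) * v.2) ^ 2
        = (sin (2 * a) ^ 2 + cos (2 * a) ^ 2) * (v.1 ^ 2 + v.2 ^ 2) := by ring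
      _ = _ := by rw [this, one_mul]
  rw [h]

/-- The kernel integrated in three variables. -/
noncomputable def Lam (δ ω : ℝ) : ℝ≥0∞ :=
  ∫⁻ ω₂, ∫⁻ ω₃, ∫⁻ ω₄, gkk δ (c2 ω + c2 ω₂ - (c2 ω₃ + c2 ω₄)) ∂μc ∂μc ∂μc

theorem Lam_const {δ : ℝ} (hδ : 0 < δ) (ω a : ℝ) : Lam δ (ω + a) = Lam δ ω := by
  unfold Lam
  symm
  calc ∫⁻ ω₂, ∫⁻ ω₃, ∫⁻ ω₄, gkk δ (c2 ω + c2 ω₂ - (c2 ω₃ + c2 ω₄)) ∂μc ∂μc ∂μc
      = ∫⁻ ω₂, ∫⁻ ω₃, ∫⁻ ω₄, gkk δ (c2 (ω + a) + c2 (ω₂ + a) - (c2 (ω₃ + a) + c2 (ω₄ + a)))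
          ∂μc ∂μc ∂μc := by
        refine lintegral_congr fun ω₂ => lintegral_congr fun ω₃ => lintegral_congr fun ω₄ => ?_
        rw [c2_add, c2_add, c2_add, c2_add, ← R2_add, ← R2_add, ← R2_sub, gkk_R2 hδ]
    _ = ∫⁻ ω₂, ∫⁻ ω₃, ∫⁻ ω₄, gkk δ (c2 (ω + a) + c2 (ω₂ + a) - (c2 (ω₃ + a) + c2 ω₄))
          ∂μc ∂μc ∂μc := by
        refine lintegral_congr fun ω₂ => lintegral_congr fun ω₃ => ?_
        exact lintegral_shift (f := fun ω₄ => gkk δ (c2 (ω + a) + c2 (ω₂ + a) -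
          (c2 (ω₃ + a) + c2 ω₄))) (fun x => by simp only [c2_periodic]) a
    _ = ∫⁻ ω₂, ∫⁻ ω₃, ∫⁻ ω₄, gkk δ (c2 (ω + a) + c2 (ω₂ + a) - (c2 ω₃ + c2 ω₄))
          ∂μc ∂μc ∂μc := by
        refine lintegral_congr fun ω₂ => ?_
        exact lintegral_shift (f := fun ω₃ => ∫⁻ ω₄, gkk δ (c2 (ω + a) + c2 (ω₂ + a) -
          (c2 ω₃ + c2 ω₄)) ∂μc) (fun x => by simp only [c2_periodic]) a
    _ = _ := by
        exact lintegral_shift (f := fun ω₂ => ∫⁻ ω₃, ∫⁻ ω₄, gkk δ (c2 (ω + a) + c2 ω₂ -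
          (c2 ω₃ + c2 ω₄)) ∂μc ∂μc) (fun x => by simp only [c2_periodic]) a

theorem Lam_eq {δ : ℝ} (hδ : 0 < δ) (ω : ℝ) : Lam δ ω = Lam δ 0 := by
  have := Lam_const hδ 0 ω
  rwa [zero_add] at this

/-- The extension operator of the circle (double cover). -/
noncomputable def U (F : ℝ → ℂ) (z : ℝ × ℝ) : ℂ :=
  ∫ ω, u (z.1 * cos (2 * ω) + z.2 * sin (2 * ω)) * F ω ∂μc

theorem U_sq (F : ℝ → ℂ) (z : ℝ × ℝ) :
    U F z ^ 2 = ∫ x : ℝ × ℝ, u (z.1 * (c2 x.1 + c2 x.2).1 + z.2 * (c2 x.1 + c2 x.2).2) *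
      (F x.1 * F x.2) ∂(μc.prod μc) := by
  rw [sq]
  unfold U
  rw [← integral_prod_mul]
  refine integral_congr_ae (Eventually.of_forall fun x => ?_)
  have e := u_add (z.1 * cos (2 * x.1) + z.2 * sin (2 * x.1))
    (z.1 * cos (2 * x.2) + z.2 * sin (2 * x.2))
  simp only [c2, Prod.fst_add, Prod.snd_add]
  rw [show z.1 * (cos (2 * x.1) + cos (2 * x.2)) + z.2 * (sin (2 * x.1) + sin (2 * x.2)) =
    z.1 * cos (2 * x.1) + z.2 * sin (2 * x.1) + (z.1 * cos (2 * x.2) + z.2 * sin (2 * x.2)) by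
    ring, e]
  ring

/-- Gaussian weight in the plane -/
noncomputable def gw (δ : ℝ) (z : ℝ × ℝ) : ℝ := Real.exp (-δ * z.1 ^ 2) * Real.exp (-δ * z.2 ^ 2)

theorem U_four {F : ℝ → ℂ} (hF : Measurable F) {δ : ℝ} (hδ : 0 < δ) :
    ∫⁻ z : ℝ × ℝ, ‖U F z‖ₑ ^ 4 * ENNReal.ofReal (gw δ z) ≤
      Lam δ 0 * ∫⁻ ω, ‖F ω‖ₑ ^ 4 ∂μc := by
  have hg := (good_gauss hδ).prod (good_gauss hδ)
  have hs : Measurable (fun x : ℝ × ℝ => c2 x.1 + c2 x.2) :=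
    (continuous_c2.measurable.comp measurable_fst).add (continuous_c2.measurable.comp measurable_snd)
  have h := hg.lintegral_le (μ := μc.prod μc) hs (fun x => F x.1 * F x.2)
  have h1 : ∫⁻ z : ℝ × ℝ, ‖U F z‖ₑ ^ 4 * ENNReal.ofReal (gw δ z) =
      ∫⁻ w : ℝ × ℝ, ‖∫ x : ℝ × ℝ, u (w.1 * (c2 x.1 + c2 x.2).1 + w.2 * (c2 x.1 + c2 x.2).2) *
      (F x.1 * F x.2) ∂(μc.prod μc)‖ₑ ^ 2 * ENNReal.ofReal (Real.exp (-δ * w.1 ^ 2) *
        Real.exp (-δ * w.2 ^ 2)) := by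
    refine lintegral_congr fun z => ?_
    rw [← U_sq, enorm_pow, ← pow_mul]
    rfl
  rw [h1, Measure.volume_eq_prod]
  refine h.trans ?_
  set Wf : ℝ → ℝ → ℝ≥0∞ := fun a b => ∫⁻ ω₃, ∫⁻ ω₄, gkk δ (c2 a + c2 b - (c2 ω₃ + c2 ω₄))
    ∂μc ∂μc with hWf
  have hker : ∀ x : ℝ × ℝ, ∫⁻ y, ENNReal.ofReal (gk δ (c2 x.1 + c2 x.2 - (c2 y.1 + c2 y.2)).1) *
      ENNReal.ofReal (gk δ (c2 x.1 + c2 x.2 - (c2 y.1 + c2 y.2)).2) ∂(μc.prod μc) = Wf x.1 x.2 := by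
    intro x
    have hm : Measurable (fun y : ℝ × ℝ => gkk δ (c2 x.1 + c2 x.2 - (c2 y.1 + c2 y.2))) :=
      (measurable_gkk δ).comp (measurable_const.sub hs)
    have := lintegral_prod (μ := μc) (ν := μc) _ hm.aemeasurable
    exact this
  have hmW : Measurable (Function.uncurry Wf) := by
    have hm : Measurable (fun p : ((ℝ × ℝ) × ℝ) × ℝ =>
        gkk δ (c2 p.1.1.1 + c2 p.1.1.2 - (c2 p.1.2 + c2 p.2))) := by
      have hc := continuous_c2.measurable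
      exact (measurable_gkk δ).comp (((hc.comp (by fun_prop)).add (hc.comp (by fun_prop))).sub
        ((hc.comp (by fun_prop)).add (hc.comp (by fun_prop))))
    have h2 : Measurable (fun p : (ℝ × ℝ) × ℝ => ∫⁻ ω₄,
        gkk δ (c2 p.1.1 + c2 p.1.2 - (c2 p.2 + c2 ω₄)) ∂μc) :=
      Measurable.lintegral_prod_right' (f := fun p : ((ℝ × ℝ) × ℝ) × ℝ =>
        gkk δ (c2 p.1.1.1 + c2 p.1.1.2 - (c2 p.1.2 + c2 p.2))) hm
    exact Measurable.lintegral_prod_right' (f := fun p : (ℝ × ℝ) × ℝ => ∫⁻ ω₄,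
        gkk δ (c2 p.1.1 + c2 p.1.2 - (c2 p.2 + c2 ω₄)) ∂μc) h2
  have hsymW : ∀ a b, Wf a b = Wf b a := by
    intro a b
    simp only [hWf, add_comm (c2 a) (c2 b)]
  have hWlam : ∀ a, ∫⁻ b, Wf a b ∂μc = Lam δ 0 := by
    intro a
    rw [← Lam_eq hδ a]
    rfl
  have hA : AEMeasurable (fun ω => ‖F ω‖ₑ ^ 2) μc := (hF.enorm.pow_const 2).aemeasurable
  have hsch := schur (μ := μc) hA hmW hsymW
  calc ∫⁻ x : ℝ × ℝ, ‖F x.1 * F x.2‖ₑ ^ 2 *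
        ∫⁻ y, ENNReal.ofReal (gk δ (c2 x.1 + c2 x.2 - (c2 y.1 + c2 y.2)).1) *
      ENNReal.ofReal (gk δ (c2 x.1 + c2 x.2 - (c2 y.1 + c2 y.2)).2) ∂(μc.prod μc) ∂(μc.prod μc)
      = ∫⁻ x : ℝ × ℝ, ‖F x.1‖ₑ ^ 2 * ‖F x.2‖ₑ ^ 2 * Wf x.1 x.2 ∂(μc.prod μc) := by
        refine lintegral_congr fun x => ?_
        rw [hker, enorm_mul, mul_pow]
    _ = ∫⁻ a, ∫⁻ b, ‖F a‖ₑ ^ 2 * ‖F b‖ₑ ^ 2 * Wf a b ∂μc ∂μc := by
        have hm : Measurable (fun x : ℝ × ℝ => ‖F x.1‖ₑ ^ 2 * ‖F x.2‖ₑ ^ 2 * Wf x.1 x.2) :=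
          (((hF.comp measurable_fst).enorm.pow_const 2).mul
            ((hF.comp measurable_snd).enorm.pow_const 2)).mul hmW
        exact lintegral_prod _ hm.aemeasurable
    _ ≤ ∫⁻ a, (‖F a‖ₑ ^ 2) ^ 2 * ∫⁻ b, Wf a b ∂μc ∂μc := hsch
    _ = Lam δ 0 * ∫⁻ ω, ‖F ω‖ₑ ^ 4 ∂μc := by
        simp only [hWlam, ← pow_mul]
        rw [lintegral_mul_const _ (hF.enorm.pow_const _), mul_comm]

end Pool.Agent.Ray
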