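import Pool.Agent.Ray.Circle1

/-!
# The four-fold kernel through the fourth power of the transform of the circle
-/

open MeasureTheory Set Filter Real
open scoped ENNReal NNReal Topology

namespace Pool.Agent.Ray

open Pool.Agent.Restr

theorem gauss_ft {ε : ℝ} (hε : 0 < ε) (v : ℝ) :
    ∫ w : ℝ, ((Real.exp (-ε * w ^ 2) : ℝ) : ℂ) * u (w * v) = ((gk ε v : ℝ) : ℂ) := by
  have e : ∀ w : ℝ, ((Real.exp (-ε * w ^ 2) : ℝ) : ℂ) * u (w * v) =
      Complex.exp (Complex.I * ((-v : ℝ) : ℂ) * w) * Complex.exp (-(ε : ℂ) * w ^ 2) := by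
    intro w
    unfold u
    rw [Complex.ofReal_exp, ← Complex.exp_add, ← Complex.exp_add]
    congr 1
    push_cast
    ring
  simp_rw [e]
  rw [fourierIntegral_gaussian (by simpa using hε)]
  unfold gk
  rw [Real.sqrt_eq_rpow]
  push_cast
  rw [Complex.ofReal_cpow (by positivity)]
  push_cast
  ring_nf

theorem gauss_ft2 {δ : ℝ} (hδ : 0 < δ) (v : ℝ × ℝ) :
    ∫ z : ℝ × ℝ, ((gw δ z : ℝ) : ℂ) * u (z.1 * v.1 + z.2 * v.2) =
      ((gk δ v.1 * gk δ v.2 : ℝ) : ℂ) := by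
  have h := integral_prod_mul (μ := (volume : Measure ℝ)) (ν := (volume : Measure ℝ))
    (fun w : ℝ => ((Real.exp (-δ * w ^ 2) : ℝ) : ℂ) * u (w * v.1))
    (fun w : ℝ => ((Real.exp (-δ * w ^ 2) : ℝ) : ℂ) * u (w * v.2))
  rw [gauss_ft hδ, gauss_ft hδ] at h
  push_cast
  rw [← h, Measure.volume_eq_prod]
  refine integral_congr_ae (Eventually.of_forall fun z => ?_)
  simp only
  unfold gw
  rw [u_add]
  push_cast
  ring

theorem integrable_gw {δ : ℝ} (hδ : 0 < δ) : Integrable (gw δ) := by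
  have h := (integrable_exp_neg_mul_sq hδ).mul_prod (integrable_exp_neg_mul_sq hδ)
  rw [← Measure.volume_eq_prod] at h
  exact h

theorem gw_nonneg (δ : ℝ) (z : ℝ × ℝ) : 0 ≤ gw δ z := by
  unfold gw
  positivity

theorem continuous_gw (δ : ℝ) : Continuous (gw δ) := by
  unfold gw
  fun_prop

/-- transform of the circle -/
noncomputable def J (z : ℝ × ℝ) : ℂ := ∫ ω, u (z.1 * cos (2 * ω) + z.2 * sin (2 * ω)) ∂μc

theorem U_one (z : ℝ × ℝ) : U (fun _ => 1) z = J z := by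
  unfold U J
  simp

theorem J_sq (z : ℝ × ℝ) : J z ^ 2 = ∫ x : ℝ × ℝ,
    u (z.1 * (c2 x.1 + c2 x.2).1 + z.2 * (c2 x.1 + c2 x.2).2) ∂(μc.prod μc) := by
  rw [← U_one, U_sq]
  simp

theorem four_eq {δ : ℝ} (hδ : 0 < δ) :
    ∫ p : (ℝ × ℝ) × (ℝ × ℝ), gk δ ((c2 p.1.1 + c2 p.1.2) - (c2 p.2.1 + c2 p.2.2)).1 *
      gk δ ((c2 p.1.1 + c2 p.1.2) - (c2 p.2.1 + c2 p.2.2)).2
      ∂((μc.prod μc).prod (μc.prod μc)) = ∫ z, gw δ z * ‖J z‖ ^ 4 := by
  set s : ℝ × ℝ → ℝ × ℝ := fun x => c2 x.1 + c2 x.2 with hs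
  have hsc : Continuous s := (continuous_c2.comp continuous_fst).add
    (continuous_c2.comp continuous_snd)
  set P := (μc.prod μc).prod (μc.prod μc) with hP
  have hint : Integrable (Function.uncurry fun (p : (ℝ × ℝ) × (ℝ × ℝ)) (z : ℝ × ℝ) =>
      ((gw δ z : ℝ) : ℂ) * u (z.1 * (s p.1 - s p.2).1 + z.2 * (s p.1 - s p.2).2))
      (P.prod volume) := by
    have h1 : Integrable (fun q : ((ℝ × ℝ) × (ℝ × ℝ)) × (ℝ × ℝ) => ((gw δ q.2 : ℝ) : ℂ))
        (P.prod volume) := by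
      have h2 : Integrable (fun q : ((ℝ × ℝ) × (ℝ × ℝ)) × (ℝ × ℝ) => (1 : ℂ) *
          ((gw δ q.2 : ℝ) : ℂ)) (P.prod volume) :=
        (integrable_const (μ := P) (1 : ℂ)).mul_prod (integrable_gw hδ).ofReal
      simpa using h2
    refine h1.mono ?_ (Eventually.of_forall fun q => ?_)
    · refine Continuous.aestronglyMeasurable ?_
      have hc1 := continuous_gw δ
      have hc2 := continuous_u
      unfold Function.uncurry
      fun_prop
    · simp only [Function.uncurry]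
      rw [norm_mul, norm_u, mul_one]
  have hswap := integral_integral_swap hint
  have hR : ∀ z : ℝ × ℝ, ∫ p : (ℝ × ℝ) × (ℝ × ℝ), ((gw δ z : ℝ) : ℂ) *
      u (z.1 * (s p.1 - s p.2).1 + z.2 * (s p.1 - s p.2).2) ∂P =
      ((gw δ z * ‖J z‖ ^ 4 : ℝ) : ℂ) := by
    intro z
    rw [integral_const_mul]
    have h2 := integral_prod_mul (μ := μc.prod μc) (ν := μc.prod μc)
      (fun x => u (z.1 * (s x).1 + z.2 * (s x).2))
      (fun x => (starRingEnd ℂ) (u (z.1 * (s x).1 + z.2 * (s x).2)))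
    rw [integral_conj, ← J_sq z] at h2
    have h3 : ∫ p : (ℝ × ℝ) × (ℝ × ℝ),
        u (z.1 * (s p.1 - s p.2).1 + z.2 * (s p.1 - s p.2).2) ∂P =
        J z ^ 2 * (starRingEnd ℂ) (J z ^ 2) := by
      rw [← h2]
      refine integral_congr_ae (Eventually.of_forall fun p => ?_)
      simp only
      rw [← u_sub]
      congr 1
      simp only [Prod.fst_sub, Prod.snd_sub]
      ring
    rw [h3, Complex.mul_conj, Complex.normSq_eq_norm_sq, norm_pow]
    push_cast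
    ring
  have hL : ∀ p : (ℝ × ℝ) × (ℝ × ℝ), ∫ z : ℝ × ℝ, ((gw δ z : ℝ) : ℂ) *
      u (z.1 * (s p.1 - s p.2).1 + z.2 * (s p.1 - s p.2).2) =
      ((gk δ (s p.1 - s p.2).1 * gk δ (s p.1 - s p.2).2 : ℝ) : ℂ) :=
    fun p => gauss_ft2 hδ _
  simp only [hR, hL] at hswap
  rw [integral_complex_ofReal, integral_complex_ofReal] at hswap
  exact_mod_cast hswap

theorem measurable_J : Measurable J := by
  unfold J
  have : StronglyMeasurable (fun z : ℝ × ℝ => ∫ ω, u (z.1 * cos (2 * ω) + z.2 * sin (2 * ω)) ∂μc) := by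
    apply StronglyMeasurable.integral_prod_right
      (f := fun (z : ℝ × ℝ) (ω : ℝ) => u (z.1 * cos (2 * ω) + z.2 * sin (2 * ω)))
    apply Measurable.stronglyMeasurable
    exact measurable_u.comp (by fun_prop)
  exact this.measurable

theorem norm_J_le (z : ℝ × ℝ) : ‖J z‖ ≤ 2 * π := by
  unfold J
  refine (norm_integral_le_integral_norm _).trans ?_
  simp only [norm_u]
  rw [integral_const, smul_eq_mul, mul_one]
  unfold μc
  rw [measureReal_restrict_apply MeasurableSet.univ, univ_inter]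
  simp only [Real.volume_real_Ioc]
  have := Real.pi_pos
  rw [max_eq_left (by linarith)]
  linarith

/-- The kernel through `J`. -/
theorem Lam_mul {δ : ℝ} (hδ : 0 < δ) :
    Lam δ 0 * ENNReal.ofReal (2 * π) = ∫⁻ z, ENNReal.ofReal (gw δ z * ‖J z‖ ^ 4) := by
  have h0 : ∫⁻ ω, Lam δ ω ∂μc = Lam δ 0 * ENNReal.ofReal (2 * π) := by
    simp only [Lam_eq hδ]
    rw [lintegral_const]
    congr 1
    unfold μc
    rw [Measure.restrict_apply MeasurableSet.univ, univ_inter, Real.volume_Ioc]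
    congr 1
    ring
  rw [← h0]
  have hc := continuous_c2
  have hgk := continuous_gk δ
  have hcont : Continuous (fun p : (ℝ × ℝ) × (ℝ × ℝ) =>
      gk δ ((c2 p.1.1 + c2 p.1.2) - (c2 p.2.1 + c2 p.2.2)).1 *
      gk δ ((c2 p.1.1 + c2 p.1.2) - (c2 p.2.1 + c2 p.2.2)).2) := by fun_prop
  have hbd : ∀ p : (ℝ × ℝ) × (ℝ × ℝ),
      ‖gk δ ((c2 p.1.1 + c2 p.1.2) - (c2 p.2.1 + c2 p.2.2)).1 *
      gk δ ((c2 p.1.1 + c2 p.1.2) - (c2 p.2.1 + c2 p.2.2)).2‖ ≤ √(π / δ) * √(π / δ) := by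
    intro p
    rw [norm_mul, Real.norm_of_nonneg (gk_nonneg _ _), Real.norm_of_nonneg (gk_nonneg _ _)]
    exact mul_le_mul (gk_le hδ _) (gk_le hδ _) (gk_nonneg _ _) (Real.sqrt_nonneg _)
  have hi : Integrable (fun p : (ℝ × ℝ) × (ℝ × ℝ) =>
      gk δ ((c2 p.1.1 + c2 p.1.2) - (c2 p.2.1 + c2 p.2.2)).1 *
      gk δ ((c2 p.1.1 + c2 p.1.2) - (c2 p.2.1 + c2 p.2.2)).2)
      ((μc.prod μc).prod (μc.prod μc)) :=
    Integrable.of_bound hcont.aestronglyMeasurable _ (Eventually.of_forall hbd)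
  have h1 : ∫⁻ ω, Lam δ ω ∂μc = ∫⁻ p : (ℝ × ℝ) × (ℝ × ℝ),
      ENNReal.ofReal (gk δ ((c2 p.1.1 + c2 p.1.2) - (c2 p.2.1 + c2 p.2.2)).1 *
      gk δ ((c2 p.1.1 + c2 p.1.2) - (c2 p.2.1 + c2 p.2.2)).2)
      ∂((μc.prod μc).prod (μc.prod μc)) := by
    rw [lintegral_prod _ hcont.measurable.ennreal_ofReal.aemeasurable]
    have hm : Measurable (fun x : ℝ × ℝ => ∫⁻ y : ℝ × ℝ,
        ENNReal.ofReal (gk δ ((c2 x.1 + c2 x.2) - (c2 y.1 + c2 y.2)).1 *
        gk δ ((c2 x.1 + c2 x.2) - (c2 y.1 + c2 y.2)).2) ∂(μc.prod μc)) :=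
      Measurable.lintegral_prod_right' hcont.measurable.ennreal_ofReal
    rw [lintegral_prod _ hm.aemeasurable]
    unfold Lam
    refine lintegral_congr fun a => lintegral_congr fun b => ?_
    have hm2 : Measurable (fun y : ℝ × ℝ =>
        ENNReal.ofReal (gk δ ((c2 a + c2 b) - (c2 y.1 + c2 y.2)).1 *
        gk δ ((c2 a + c2 b) - (c2 y.1 + c2 y.2)).2)) := by
      have : Continuous (fun y : ℝ × ℝ => gk δ ((c2 a + c2 b) - (c2 y.1 + c2 y.2)).1 *
        gk δ ((c2 a + c2 b) - (c2 y.1 + c2 y.2)).2) := by fun_prop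
      exact this.measurable.ennreal_ofReal
    rw [lintegral_prod _ hm2.aemeasurable]
    refine lintegral_congr fun c => lintegral_congr fun d => ?_
    unfold gkk
    rw [ENNReal.ofReal_mul (gk_nonneg _ _)]
  rw [h1, ← ofReal_integral_eq_lintegral_ofReal hi (Eventually.of_forall fun p =>
    mul_nonneg (gk_nonneg _ _) (gk_nonneg _ _)), four_eq hδ]
  rw [ofReal_integral_eq_lintegral_ofReal]
  · refine ((integrable_gw hδ).mul_const ((2 * π) ^ 4)).mono ?_ (Eventually.of_forall fun z => ?_)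
    · exact ((continuous_gw δ).measurable.mul (measurable_J.norm.pow_const 4)).aestronglyMeasurable
    · rw [norm_mul, norm_mul, Real.norm_of_nonneg (gw_nonneg δ z), norm_pow, norm_norm,
        Real.norm_of_nonneg (by positivity : (0 : ℝ) ≤ (2 * π) ^ 4)]
      have := norm_J_le z
      have := gw_nonneg δ z
      gcongr
  · exact Eventually.of_forall fun z => mul_nonneg (gw_nonneg δ z) (by positivity)

end Pool.Agent.Ray
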