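import Pool.Agent.Ray.Circle2

/-!
# Decay of the transform of the circle, and the `L⁴` estimate for the circle
-/

open MeasureTheory Set Filter Real
open scoped ENNReal NNReal Topology

namespace Pool.Agent.Ray

open Pool.Agent.Restr

/-- quarter of the Bessel integral -/
noncomputable def K (l : ℝ) : ℂ := ∫ ψ in (0 : ℝ)..(π / 2), u (l * cos ψ)

theorem norm_K_le {l : ℝ} (hl : 1 ≤ |l|) : ‖K l‖ ≤ (1 + π) * |l| ^ (-(1 / 2) : ℝ) := by
  have hl0 : 0 < |l| := by linarith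
  have hl' : l ≠ 0 := by
    intro h
    rw [h, abs_zero] at hl0
    exact lt_irrefl _ hl0
  set δ : ℝ := |l| ^ (-(1 / 2) : ℝ) with hδ
  have hδ0 : 0 < δ := Real.rpow_pos_of_pos hl0 _
  have hδ1 : δ ≤ 1 := Real.rpow_le_one_of_one_le_of_nonpos hl (by norm_num)
  have hpi := Real.pi_gt_three
  have hδpi : δ ≤ π / 2 := by linarith
  have hsin : ∀ ψ ∈ Icc δ (π / 2), 0 < sin ψ := fun ψ hψ =>
    Real.sin_pos_of_pos_of_lt_pi (by linarith [hψ.1]) (by linarith [hψ.2])
  have hcos : ∀ ψ ∈ Icc δ (π / 2), 0 ≤ cos ψ := fun ψ hψ =>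
    Real.cos_nonneg_of_mem_Icc ⟨by linarith [hψ.1], hψ.2⟩
  have hcu : Continuous (fun ψ => u (l * cos ψ)) := continuous_u.comp (by fun_prop)
  have hsplit : K l = (∫ ψ in (0 : ℝ)..δ, u (l * cos ψ)) +
      ∫ ψ in δ..(π / 2), u (l * cos ψ) := by
    unfold K
    rw [intervalIntegral.integral_add_adjacent_intervals (hcu.intervalIntegrable _ _)
      (hcu.intervalIntegrable _ _)]
  have h1 : ‖∫ ψ in (0 : ℝ)..δ, u (l * cos ψ)‖ ≤ δ := by
    have := intervalIntegral.norm_integral_le_of_norm_le_const (a := 0) (b := δ) (C := 1)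
      (f := fun ψ => u (l * cos ψ)) (fun ψ _ => by rw [norm_u])
    rwa [one_mul, sub_zero, abs_of_pos hδ0] at this
  -- integration by parts
  have hder : ∀ ψ ∈ uIcc δ (π / 2), HasDerivAt
      (fun ψ => u (l * cos ψ) * (((Complex.I * l) * (sin ψ : ℂ))⁻¹))
      (u (l * cos ψ) - u (l * cos ψ) * ((cos ψ / (sin ψ) ^ 2 : ℝ) : ℂ) * (Complex.I * l)⁻¹) ψ := by
    intro ψ hψ
    rw [uIcc_of_le hδpi] at hψ
    have hs := (hsin ψ hψ).ne'
    have hsC : ((sin ψ : ℝ) : ℂ) ≠ 0 := by exact_mod_cast hs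
    have hlC : (l : ℂ) ≠ 0 := by exact_mod_cast hl'
    have d1 : HasDerivAt (fun ψ : ℝ => u (l * cos ψ)) (u (l * cos ψ) *
        (Complex.I * l * (sin ψ : ℂ))) ψ := by
      unfold u
      have e1 : HasDerivAt (fun ψ : ℝ => ((l * cos ψ : ℝ) : ℂ)) ((l * -sin ψ : ℝ) : ℂ) ψ :=
        ((Real.hasDerivAt_cos ψ).const_mul l).ofReal_comp
      have e2 := ((e1.const_mul Complex.I).fun_neg).cexp
      refine e2.congr_deriv ?_
      rw [mul_neg l, Complex.ofReal_neg, Complex.ofReal_mul l (sin ψ)]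
      ring
    have d2 : HasDerivAt (fun ψ : ℝ => ((Complex.I * l) * ((sin ψ : ℝ) : ℂ)))
        (Complex.I * l * ((cos ψ : ℝ) : ℂ)) ψ :=
      ((Real.hasDerivAt_sin ψ).ofReal_comp).const_mul _
    have hne : Complex.I * l * ((sin ψ : ℝ) : ℂ) ≠ 0 :=
      mul_ne_zero (mul_ne_zero Complex.I_ne_zero hlC) hsC
    have d3 := d1.fun_mul (d2.fun_inv hne)
    refine d3.congr_deriv ?_
    rw [Complex.ofReal_div, Complex.ofReal_pow]
    have hI := Complex.I_ne_zero
    field_simp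
    ring
  have hcont1 : ContinuousOn (fun ψ => u (l * cos ψ) * ((cos ψ / (sin ψ) ^ 2 : ℝ) : ℂ) *
      (Complex.I * l)⁻¹) (uIcc δ (π / 2)) := by
    rw [uIcc_of_le hδpi]
    refine (hcu.continuousOn.mul ?_).mul continuousOn_const
    refine Complex.continuous_ofReal.comp_continuousOn ?_
    refine Real.continuous_cos.continuousOn.div (by fun_prop) ?_
    intro ψ hψ
    exact pow_ne_zero 2 (hsin ψ hψ).ne'
  have hFTC := intervalIntegral.integral_eq_sub_of_hasDerivAt hder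
    ((hcu.continuousOn.sub hcont1).intervalIntegrable)
  rw [intervalIntegral.integral_sub (hcu.intervalIntegrable _ _) hcont1.intervalIntegrable] at hFTC
  have h2 : ∫ ψ in δ..(π / 2), u (l * cos ψ) =
      (∫ ψ in δ..(π / 2), u (l * cos ψ) * ((cos ψ / (sin ψ) ^ 2 : ℝ) : ℂ) * (Complex.I * l)⁻¹) +
      (u (l * cos (π / 2)) * (((Complex.I * l) * (sin (π / 2) : ℂ))⁻¹) -
        u (l * cos δ) * (((Complex.I * l) * (sin δ : ℂ))⁻¹)) := by
    have := sub_eq_iff_eq_add.1 hFTC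
    rw [this]
    push_cast
    ring
  have hderiv2 : ∀ ψ ∈ uIcc δ (π / 2), HasDerivAt (fun ψ => -(sin ψ)⁻¹)
      (cos ψ / (sin ψ) ^ 2) ψ := by
    intro ψ hψ
    rw [uIcc_of_le hδpi] at hψ
    have hs := (hsin ψ hψ).ne'
    have := ((Real.hasDerivAt_sin ψ).fun_inv hs).fun_neg
    refine this.congr_deriv ?_
    ring
  have hcont2 : ContinuousOn (fun ψ => cos ψ / (sin ψ) ^ 2) (uIcc δ (π / 2)) := by
    rw [uIcc_of_le hδpi]
    refine Real.continuous_cos.continuousOn.div (by fun_prop) ?_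
    intro ψ hψ
    exact pow_ne_zero 2 (hsin ψ hψ).ne'
  have hI2 := intervalIntegral.integral_eq_sub_of_hasDerivAt hderiv2 hcont2.intervalIntegrable
  have hsδ : 0 < sin δ := hsin δ ⟨le_rfl, hδpi⟩
  have h3 : ‖∫ ψ in δ..(π / 2), u (l * cos ψ) * ((cos ψ / (sin ψ) ^ 2 : ℝ) : ℂ) *
      (Complex.I * l)⁻¹‖ ≤ (sin δ)⁻¹ * |l|⁻¹ - |l|⁻¹ := by
    calc ‖∫ ψ in δ..(π / 2), u (l * cos ψ) * ((cos ψ / (sin ψ) ^ 2 : ℝ) : ℂ) *
        (Complex.I * l)⁻¹‖ ≤ ∫ ψ in δ..(π / 2), cos ψ / (sin ψ) ^ 2 * |l|⁻¹ := by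
          refine intervalIntegral.norm_integral_le_of_norm_le hδpi ?_ ?_
          · refine Eventually.of_forall fun ψ hψ => ?_
            have hψ' : ψ ∈ Icc δ (π / 2) := ⟨hψ.1.le, hψ.2⟩
            rw [norm_mul, norm_mul, norm_u, one_mul, Complex.norm_real, norm_inv, norm_mul,
              Complex.norm_I, one_mul, Complex.norm_real, Real.norm_eq_abs, Real.norm_eq_abs,
              abs_of_nonneg (div_nonneg (hcos ψ hψ') (by positivity))]
          · exact (hcont2.mul continuousOn_const).intervalIntegrable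
      _ = _ := by
          rw [intervalIntegral.integral_mul_const, hI2, Real.sin_pi_div_two]
          ring
  have h4 : ‖u (l * cos (π / 2)) * (((Complex.I * l) * (sin (π / 2) : ℂ))⁻¹) -
        u (l * cos δ) * (((Complex.I * l) * (sin δ : ℂ))⁻¹)‖ ≤ |l|⁻¹ + (sin δ)⁻¹ * |l|⁻¹ := by
    refine (norm_sub_le _ _).trans ?_
    have e1 : ‖(u (l * cos (π / 2)) * (((Complex.I * l) * (sin (π / 2) : ℂ))⁻¹))‖ = |l|⁻¹ := by
      rw [norm_mul, norm_u, one_mul, norm_inv, norm_mul, norm_mul, Complex.norm_I, one_mul,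
        Complex.norm_real, Real.norm_eq_abs]
      rw [Real.sin_pi_div_two]
      simp
    have e2 : ‖(u (l * cos δ) * (((Complex.I * l) * (sin δ : ℂ))⁻¹))‖ = (sin δ)⁻¹ * |l|⁻¹ := by
      rw [norm_mul, norm_u, one_mul, norm_inv, norm_mul, norm_mul, Complex.norm_I, one_mul,
        Complex.norm_real, Real.norm_eq_abs, Complex.norm_real,
        Real.norm_eq_abs, abs_of_pos hsδ, mul_inv, mul_comm]
    rw [e1, e2]
  have h5 : (sin δ)⁻¹ ≤ π / 2 * δ⁻¹ := by
    have := Real.mul_le_sin hδ0.le hδpi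
    have h6 : 0 < 2 / π * δ := by positivity
    calc (sin δ)⁻¹ ≤ (2 / π * δ)⁻¹ := inv_anti₀ h6 this
      _ = π / 2 * δ⁻¹ := by rw [mul_inv, inv_div]
  have h6 : δ⁻¹ * |l|⁻¹ = δ := by
    rw [hδ, ← Real.rpow_neg hl0.le, ← Real.rpow_neg_one |l|, ← Real.rpow_add hl0]
    norm_num
  calc ‖K l‖ ≤ δ + (((sin δ)⁻¹ * |l|⁻¹ - |l|⁻¹) + (|l|⁻¹ + (sin δ)⁻¹ * |l|⁻¹)) := by
        rw [hsplit, h2]
        refine (norm_add_le _ _).trans (add_le_add h1 ?_)
        exact (norm_add_le _ _).trans (add_le_add h3 h4)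
    _ = δ + 2 * ((sin δ)⁻¹ * |l|⁻¹) := by ring
    _ ≤ δ + 2 * ((π / 2 * δ⁻¹) * |l|⁻¹) := by gcongr
    _ = δ + π * (δ⁻¹ * |l|⁻¹) := by ring
    _ = (1 + π) * δ := by rw [h6]; ring

/-- shift of a Bochner integral over a period -/
theorem integral_shift {f : ℝ → ℂ} (hp : Function.Periodic f (2 * π)) (a : ℝ) :
    ∫ x in (-π)..π, f (x + a) = ∫ x in (-π)..π, f x := by
  rw [intervalIntegral.integral_comp_add_right]
  have := hp.intervalIntegral_add_eq (-π + a) (-π)
  rw [show -π + a + 2 * π = π + a by ring, show -π + 2 * π = π by ring] at this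
  exact this

theorem J_eq_interval (z : ℝ × ℝ) :
    J z = ∫ ω in (-π)..π, u (z.1 * cos (2 * ω) + z.2 * sin (2 * ω)) := by
  unfold J μc
  rw [intervalIntegral.integral_of_le (by linarith [Real.pi_pos])]

theorem J_eq {z : ℝ × ℝ} {l φ : ℝ} (h1 : z.1 = l * cos φ) (h2 : z.2 = l * sin φ) :
    J z = 2 * (K l + K (-l)) := by
  rw [J_eq_interval]
  have hf : Continuous (fun ψ => u (l * cos ψ)) := continuous_u.comp (by fun_prop)
  have hper : Function.Periodic (fun ψ => u (l * cos ψ)) (2 * π) := by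
    intro ψ
    simp only [Real.cos_add_two_pi]
  have e1 : ∫ ω in (-π)..π, u (z.1 * cos (2 * ω) + z.2 * sin (2 * ω)) =
      ∫ ω in (-π)..π, u (l * cos (2 * (ω + -(φ / 2)))) := by
    refine intervalIntegral.integral_congr fun ω _ => ?_
    rw [show 2 * (ω + -(φ / 2)) = 2 * ω - φ by ring, Real.cos_sub, h1, h2]
    congr 1
    ring
  rw [e1, integral_shift (f := fun ω => u (l * cos (2 * ω))) (fun ω => by
    simp only
    rw [show 2 * (ω + 2 * π) = 2 * ω + 2 * π + 2 * π by ring, Real.cos_add_two_pi,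
      Real.cos_add_two_pi]) (-(φ / 2))]
  rw [intervalIntegral.integral_comp_mul_left (fun ψ => u (l * cos ψ)) (by norm_num : (2 : ℝ) ≠ 0)]
  have e2 : ∫ ψ in (2 * -π)..(2 * π), u (l * cos ψ) = 2 * ∫ ψ in (-π)..π, u (l * cos ψ) := by
    rw [← intervalIntegral.integral_add_adjacent_intervals (hf.intervalIntegrable (2 * -π) 0)
      (hf.intervalIntegrable 0 (2 * π))]
    have a1 := hper.intervalIntegral_add_eq (2 * -π) (-π)
    have a2 := hper.intervalIntegral_add_eq 0 (-π)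
    rw [show 2 * -π + 2 * π = 0 by ring, show -π + 2 * π = π by ring] at a1
    rw [zero_add, show -π + 2 * π = π by ring] at a2
    rw [a1, a2]
    ring
  have e3 : ∫ ψ in (-π)..π, u (l * cos ψ) = 2 * ∫ ψ in (0 : ℝ)..π, u (l * cos ψ) := by
    rw [← intervalIntegral.integral_add_adjacent_intervals (hf.intervalIntegrable (-π) 0)
      (hf.intervalIntegrable 0 π)]
    have a1 := intervalIntegral.integral_comp_neg (a := -π) (b := 0) (fun ψ => u (l * cos ψ))
    simp only [Real.cos_neg, neg_zero, neg_neg] at a1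
    rw [a1]
    ring
  have e4 : ∫ ψ in (0 : ℝ)..π, u (l * cos ψ) = K l + K (-l) := by
    rw [← intervalIntegral.integral_add_adjacent_intervals (hf.intervalIntegrable 0 (π / 2))
      (hf.intervalIntegrable (π / 2) π)]
    unfold K
    congr 1
    have a1 := intervalIntegral.integral_comp_sub_left (a := 0) (b := π / 2)
      (fun ψ => u (l * cos ψ)) π
    simp only [Real.cos_pi_sub, sub_zero] at a1
    rw [show π - π / 2 = π / 2 by ring] at a1
    rw [← a1]
    refine intervalIntegral.integral_congr fun ω _ => ?_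
    congr 1
    ring
  rw [e2, e3, e4, Complex.real_smul]
  push_cast
  ring

/-- decay of the transform of the circle, in the form used below -/
theorem J_bound (z : ℝ × ℝ) :
    ‖J z‖ ^ 4 * (1 + (z.1 ^ 2 + z.2 ^ 2)) ≤ 2 * (4 * (1 + π)) ^ 4 := by
  have hpi := Real.pi_pos
  set l : ℝ := √(z.1 ^ 2 + z.2 ^ 2) with hl
  have hl2 : l ^ 2 = z.1 ^ 2 + z.2 ^ 2 := Real.sq_sqrt (by positivity)
  have hl0 : 0 ≤ l := Real.sqrt_nonneg _
  rw [← hl2]
  rcases le_or_gt l 1 with h1 | h1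
  · have h2 : ‖J z‖ ≤ 4 * (1 + π) := (norm_J_le z).trans (by linarith)
    have h3 : 1 + l ^ 2 ≤ 2 := by nlinarith
    calc ‖J z‖ ^ 4 * (1 + l ^ 2) ≤ (4 * (1 + π)) ^ 4 * 2 := by gcongr
      _ = _ := by ring
  · -- polar form
    have hlpos : 0 < l := by linarith
    set w : ℂ := ⟨z.1, z.2⟩ with hw
    have hwn : ‖w‖ = l := by
      rw [Complex.norm_def, Complex.normSq_apply, hl]
      congr 1
      simp only [hw]
      ring
    have hre : z.1 = l * cos (Complex.arg w) := by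
      rw [← hwn, Complex.norm_mul_cos_arg]
    have him : z.2 = l * sin (Complex.arg w) := by
      rw [← hwn, Complex.norm_mul_sin_arg]
    have habs : |l| = l := abs_of_pos hlpos
    have habs' : |(-l)| = l := by rw [abs_neg, habs]
    have k1 := norm_K_le (l := l) (by rw [habs]; exact h1.le)
    have k2 := norm_K_le (l := -l) (by rw [habs']; exact h1.le)
    rw [habs] at k1
    rw [habs'] at k2
    have h2 : ‖J z‖ ≤ 4 * (1 + π) * l ^ (-(1 / 2) : ℝ) := by
      rw [J_eq hre him, norm_mul, Complex.norm_ofNat]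
      have := norm_add_le (K l) (K (-l))
      linarith
    have h3 : (l ^ (-(1 / 2) : ℝ)) ^ 4 = (l ^ 2)⁻¹ := by
      rw [← Real.rpow_natCast, ← Real.rpow_mul hlpos.le, ← Real.rpow_natCast l 2,
        ← Real.rpow_neg hlpos.le]
      norm_num
    calc ‖J z‖ ^ 4 * (1 + l ^ 2) ≤ (4 * (1 + π) * l ^ (-(1 / 2) : ℝ)) ^ 4 * (1 + l ^ 2) := by
          gcongr
      _ = (4 * (1 + π)) ^ 4 * ((l ^ 2)⁻¹ * (1 + l ^ 2)) := by
          rw [mul_pow, h3]
          ring
      _ ≤ (4 * (1 + π)) ^ 4 * 2 := by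
          gcongr
          rw [inv_mul_le_iff₀ (by positivity)]
          nlinarith
      _ = _ := by ring

end Pool.Agent.Ray
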