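import Pool.Agent.Ray.Mod1

/-!
# Dyadic annuli: the tent functions and the densities of the pieces
-/

open MeasureTheory Set Filter Real
open scoped ENNReal NNReal Topology

namespace Pool.Agent.Ray

open Pool.Agent.Restr

/-- clamp to the unit interval -/
noncomputable def cl (z : ℝ) : ℝ := max 0 (min z 1)

theorem cl_lip (a b : ℝ) : |cl a - cl b| ≤ |a - b| := by
  unfold cl
  refine (abs_max_sub_max_le_max _ _ _ _).trans ?_
  rw [sub_self, abs_zero]
  refine max_le (abs_nonneg _) ?_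
  refine (abs_min_sub_min_le_max _ _ _ _).trans ?_
  rw [sub_self, abs_zero]
  exact max_le le_rfl (abs_nonneg _)

theorem cl_nonneg (z : ℝ) : 0 ≤ cl z := le_max_left _ _

theorem cl_le_one (z : ℝ) : cl z ≤ 1 := max_le zero_le_one (min_le_right _ _)

theorem cl_one {z : ℝ} (h : 1 ≤ z) : cl z = 1 := by
  unfold cl
  rw [min_eq_right h, max_eq_right zero_le_one]

theorem cl_zero {z : ℝ} (h : z ≤ 0) : cl z = 0 := by
  unfold cl
  exact max_eq_left ((min_le_left _ _).trans h)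

theorem cl_mono {a b : ℝ} (h : a ≤ b) : cl a ≤ cl b := by
  unfold cl
  gcongr

theorem continuous_cl : Continuous cl := by
  unfold cl
  fun_prop

/-- the tent function -/
noncomputable def tent (z : ℝ) : ℝ := cl (z + 1) - cl z

theorem tent_nonneg (z : ℝ) : 0 ≤ tent z := by
  unfold tent
  have := cl_mono (show z ≤ z + 1 by linarith)
  linarith

theorem tent_le_one (z : ℝ) : tent z ≤ 1 := by
  unfold tent
  linarith [cl_nonneg z, cl_le_one (z + 1)]

theorem tent_lip (a b : ℝ) : |tent a - tent b| ≤ 2 * |a - b| := by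
  unfold tent
  have h1 := cl_lip (a + 1) (b + 1)
  have h2 := cl_lip a b
  have e : cl (a + 1) - cl a - (cl (b + 1) - cl b) =
      (cl (a + 1) - cl (b + 1)) - (cl a - cl b) := by ring
  rw [e]
  refine (abs_sub _ _).trans ?_
  rw [show a + 1 - (b + 1) = a - b by ring] at h1
  linarith

theorem tent_zero_left {z : ℝ} (h : z ≤ -1) : tent z = 0 := by
  unfold tent
  rw [cl_zero (by linarith), cl_zero (by linarith), sub_zero]

theorem tent_zero_right {z : ℝ} (h : 1 ≤ z) : tent z = 0 := by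
  unfold tent
  rw [cl_one (by linarith), cl_one h, sub_self]

theorem tent_sum (x : ℝ) (M : ℕ) : ∑ m ∈ Finset.range M, tent ((m : ℝ) + x) =
    cl ((M : ℝ) + x) - cl x := by
  induction M with
  | zero => simp
  | succ M ih =>
    rw [Finset.sum_range_succ, ih]
    unfold tent
    push_cast
    rw [show (M : ℝ) + x + 1 = (M : ℝ) + 1 + x by ring]
    ring

/-- the radial multiplier -/
noncomputable def psi (ρ : ℝ) : ℝ := ρ * tent (Real.logb 2 ρ)

theorem psi_small {ρ : ℝ} (h0 : 0 ≤ ρ) (h : ρ ≤ 1 / 2) : psi ρ = 0 := by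
  unfold psi
  rcases h0.eq_or_lt with h1 | h1
  · rw [← h1, zero_mul]
  · rw [tent_zero_left, mul_zero]
    rw [Real.logb_le_iff_le_rpow (by norm_num) h1]
    norm_num
    linarith

theorem psi_large {ρ : ℝ} (h : 2 ≤ ρ) : psi ρ = 0 := by
  unfold psi
  rw [tent_zero_right, mul_zero]
  rw [Real.le_logb_iff_rpow_le (by norm_num) (by linarith)]
  norm_num
  exact h

theorem psi_nonneg {ρ : ℝ} (h0 : 0 ≤ ρ) : 0 ≤ psi ρ := mul_nonneg h0 (tent_nonneg _)

theorem psi_le {ρ : ℝ} (h0 : 0 ≤ ρ) : psi ρ ≤ 2 := by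
  rcases le_or_gt 2 ρ with h | h
  · rw [psi_large h]
    norm_num
  · unfold psi
    nlinarith [tent_nonneg (Real.logb 2 ρ), tent_le_one (Real.logb 2 ρ)]

theorem psi_diff {ρ h : ℝ} (hρ : 0 ≤ ρ) (h0 : 0 < h) (h1 : h ≤ 1) :
    |psi (ρ * (1 + h)) - psi ρ| ≤ 14 * h := by
  rcases le_or_gt 2 ρ with h2 | h2
  · rw [psi_large h2, psi_large (by nlinarith), sub_self, abs_zero]
    positivity
  · rcases hρ.eq_or_lt with h3 | h3
    · rw [← h3, zero_mul, sub_self, abs_zero]
      positivity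
    · have hlog : Real.logb 2 (ρ * (1 + h)) - Real.logb 2 ρ = Real.log (1 + h) / Real.log 2 := by
        rw [Real.logb_mul h3.ne' (by linarith)]
        unfold Real.logb
        ring
      have hl2 := Real.log_two_gt_d9
      have hl1 : Real.log (1 + h) ≤ h := by
        have := Real.log_le_sub_one_of_pos (show 0 < 1 + h by linarith)
        linarith
      have hl0 : 0 ≤ Real.log (1 + h) := Real.log_nonneg (by linarith)
      have hd : |Real.logb 2 (ρ * (1 + h)) - Real.logb 2 ρ| ≤ 3 / 2 * h := by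
        rw [hlog, abs_of_nonneg (by positivity), div_le_iff₀ (by linarith)]
        have : 3 / 2 * h * (2 / 3) ≤ 3 / 2 * h * Real.log 2 := by
          gcongr
          linarith
        linarith
      set L' := Real.logb 2 (ρ * (1 + h)) with hL'
      set L := Real.logb 2 ρ with hL
      have ht := tent_lip L' L
      have e : psi (ρ * (1 + h)) - psi ρ = ρ * (1 + h) * (tent L' - tent L) + h * ρ * tent L := by
        unfold psi
        rw [← hL', ← hL]
        ring
      rw [e]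
      have hb1 : |ρ * (1 + h) * (tent L' - tent L)| ≤ 4 * (3 * h) := by
        rw [abs_mul, abs_of_pos (by positivity)]
        have : ρ * (1 + h) ≤ 4 := by nlinarith
        have h5 : |tent L' - tent L| ≤ 3 * h := by linarith
        exact mul_le_mul this h5 (abs_nonneg _) (by norm_num)
      have hb2 : |h * ρ * tent L| ≤ 2 * h := by
        rw [abs_of_nonneg (by
          have := tent_nonneg L
          positivity)]
        have h6 := tent_le_one L
        have h7 := tent_nonneg L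
        have h8 : h * ρ ≤ 2 * h := by nlinarith
        calc h * ρ * tent L ≤ h * ρ * 1 := by gcongr
          _ ≤ _ := by rw [mul_one]; exact h8
      refine (abs_add_le _ _).trans ?_
      linarith

theorem measurable_psi : Measurable psi := by
  unfold psi tent
  have h1 : Measurable (fun ρ : ℝ => Real.logb 2 ρ) := by
    unfold Real.logb
    fun_prop
  have h2 := continuous_cl.measurable
  exact measurable_id.mul ((h2.comp (h1.add_const 1)).sub (h2.comp h1))

/-- The density of the piece at scale `l`. -/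
noncomputable def gl (l : ℝ) (f : ℝ × ℝ → ℂ) (p : ℝ × ℝ) : ℂ :=
  if 0 < p.1 then (psi p.1 : ℂ) * f (l * (p.1 * cos p.2), l * (p.1 * sin p.2)) else 0

theorem measurable_gl (l : ℝ) {f : ℝ × ℝ → ℂ} (hf : Measurable f) : Measurable (gl l f) := by
  unfold gl
  refine Measurable.ite (measurableSet_lt measurable_const measurable_fst) ?_ measurable_const
  exact (Complex.measurable_ofReal.comp (measurable_psi.comp measurable_fst)).mul
    (hf.comp (by fun_prop))

theorem gl_bdd (l : ℝ) {f : ℝ × ℝ → ℂ} (hf : ∃ M : ℝ, ∀ p, ‖f p‖ ≤ M) :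
    ∃ M : ℝ, ∀ p, ‖gl l f p‖ ≤ M := by
  obtain ⟨M, hM⟩ := hf
  have hM0 : 0 ≤ M := (norm_nonneg _).trans (hM 0)
  refine ⟨2 * M, fun p => ?_⟩
  unfold gl
  split_ifs with h
  · rw [norm_mul, Complex.norm_real, Real.norm_eq_abs, abs_of_nonneg (psi_nonneg h.le)]
    exact mul_le_mul (psi_le h.le) (hM _) (norm_nonneg _) (by norm_num)
  · rw [norm_zero]
    positivity

theorem gl_supp (l : ℝ) (f : ℝ × ℝ → ℂ) (r ω : ℝ) (hr : r ∉ Icc (1 / 2 : ℝ) 2) :
    gl l f (r, ω) = 0 := by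
  unfold gl
  simp only
  split_ifs with h
  · have : psi r = 0 := by
      rcases le_or_gt r (1 / 2) with h1 | h1
      · exact psi_small h.le h1
      · rcases le_or_gt 2 r with h2 | h2
        · exact psi_large h2
        · exact absurd ⟨h1.le, h2.le⟩ hr
    rw [this]
    simp
  · rfl

/-- the modulus of a point of the plane -/
noncomputable def rd (y : ℝ × ℝ) : ℝ := √(y.1 ^ 2 + y.2 ^ 2)

theorem rd_nonneg (y : ℝ × ℝ) : 0 ≤ rd y := Real.sqrt_nonneg _

theorem rd_polar {r : ℝ} (hr : 0 < r) (ω : ℝ) : rd (r * cos ω, r * sin ω) = r := by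
  unfold rd
  simp only
  have h1 := Real.sin_sq_add_cos_sq ω
  have e2 : (r * cos ω) ^ 2 + (r * sin ω) ^ 2 = r ^ 2 := by
    calc (r * cos ω) ^ 2 + (r * sin ω) ^ 2 = (sin ω ^ 2 + cos ω ^ 2) * r ^ 2 := by ring
      _ = _ := by rw [h1, one_mul]
  rw [e2, Real.sqrt_sq hr.le]

theorem rd_lt {y : ℝ × ℝ} (h : y.1 ^ 2 + y.2 ^ 2 < 1 / 16) : rd y < 1 / 4 := by
  unfold rd
  rw [Real.sqrt_lt' (by norm_num)]
  linarith

/-- Transfer from polar to Cartesian norms. -/
theorem nm_polar {q : ℝ} (hq : 1 ≤ q) {G : ℝ × ℝ → ℂ} {Q : ℝ × ℝ → ℂ}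
    (h1 : ∀ p : ℝ × ℝ, 0 < p.1 → G p = Q (p.1 * cos p.2, p.1 * sin p.2))
    (h2 : ∀ p : ℝ × ℝ, p.1 ≤ 0 → G p = 0)
    (h3 : ∀ y : ℝ × ℝ, y.1 ^ 2 + y.2 ^ 2 < 1 / 16 → Q y = 0) :
    nm q G ≤ ENNReal.ofReal 4 * eLpNorm Q (ENNReal.ofReal q) volume := by
  have hq0 : 0 < q := by linarith
  have hTm : MeasurableSet (Ioi (0 : ℝ) ×ˢ (univ : Set ℝ)) := measurableSet_Ioi.prod .univ
  have e1 : ∫⁻ p, ‖G p‖ₑ ^ q ∂μp =
      ∫⁻ p in Ioi (0 : ℝ) ×ˢ univ, ‖Q (p.1 * cos p.2, p.1 * sin p.2)‖ₑ ^ q ∂μp := by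
    rw [← lintegral_indicator hTm]
    refine lintegral_congr fun p => ?_
    by_cases hp : 0 < p.1
    · rw [indicator_of_mem (show p ∈ Ioi (0 : ℝ) ×ˢ (univ : Set ℝ) from ⟨hp, mem_univ _⟩), h1 p hp]
    · rw [indicator_of_notMem (fun hm : p ∈ Ioi (0 : ℝ) ×ˢ (univ : Set ℝ) => hp hm.1),
        h2 p (not_lt.1 hp), enorm_zero, ENNReal.zero_rpow_of_pos hq0]
  have e2 := polar_le (F := fun y => ‖Q y‖ₑ ^ q) (fun y hy => by
    rw [h3 y hy, enorm_zero, ENNReal.zero_rpow_of_pos hq0])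
  have e3 := lin_q (μ := (volume : Measure (ℝ × ℝ))) (F := Q) hq0
  rw [e3] at e2
  unfold nm
  rw [e1]
  calc (∫⁻ p in Ioi (0 : ℝ) ×ˢ univ, ‖Q (p.1 * cos p.2, p.1 * sin p.2)‖ₑ ^ q ∂μp) ^ (1 / q)
      ≤ (ENNReal.ofReal 4 * (eLpNorm Q (ENNReal.ofReal q) volume) ^ q) ^ (1 / q) := by
        gcongr
    _ = (ENNReal.ofReal 4) ^ (1 / q) * eLpNorm Q (ENNReal.ofReal q) volume := by
        rw [ENNReal.mul_rpow_of_nonneg _ _ (by positivity), ← ENNReal.rpow_mul,
          mul_one_div_cancel hq0.ne', ENNReal.rpow_one]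
    _ ≤ _ := by
        gcongr
        calc (ENNReal.ofReal 4) ^ (1 / q) ≤ (ENNReal.ofReal 4) ^ (1 : ℝ) := by
              apply ENNReal.rpow_le_rpow_of_exponent_le
              · rw [← ENNReal.ofReal_one]
                exact ENNReal.ofReal_le_ofReal (by norm_num)
              · rw [div_le_one hq0]
                exact hq
          _ = _ := ENNReal.rpow_one _

theorem lint_scale2 {F : ℝ × ℝ → ℝ≥0∞} (hF : Measurable F) {l : ℝ} (hl : 0 < l) :
    ∫⁻ y, F y = ENNReal.ofReal (l ^ 2) * ∫⁻ y : ℝ × ℝ, F (l * y.1, l * y.2) := by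
  have hne : -l ≠ 0 := by linarith
  have hFl : Measurable (fun y : ℝ × ℝ => F (l * y.1, l * y.2)) := hF.comp (by fun_prop)
  have h0 : Measurable (fun x => ∫⁻ y, F (x, y)) := hF.lintegral_prod_right'
  rw [Measure.volume_eq_prod, lintegral_prod _ hF.aemeasurable,
    lintegral_prod _ hFl.aemeasurable, lint_scale h0 hne]
  have e1 : ∀ x, ∫⁻ y, F (-(-l * x), y) = ENNReal.ofReal l * ∫⁻ y, F (l * x, l * y) := by
    intro x
    have := lint_scale (f := fun y => F (-(-l * x), y)) (hF.comp (by fun_prop)) hne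
    rw [this, abs_neg, abs_of_pos hl]
    congr 1
    refine lintegral_congr fun y => ?_
    congr 2
    · ring
    · ring
  simp only [e1]
  rw [lintegral_const_mul _ hFl.lintegral_prod_right', ← mul_assoc, abs_neg, abs_of_pos hl,
    ← ENNReal.ofReal_mul hl.le, sq]

theorem eLpNorm_scale {f : ℝ × ℝ → ℂ} (hf : Measurable f) {q : ℝ} (hq : 0 < q) {l : ℝ}
    (hl : 0 < l) : eLpNorm (fun y : ℝ × ℝ => f (l * y.1, l * y.2)) (ENNReal.ofReal q) volume =
      ENNReal.ofReal (l ^ (-(2 / q))) * eLpNorm f (ENNReal.ofReal q) volume := by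
  have h := lint_scale2 (hf.enorm.pow_const q) hl
  have h2 : ∫⁻ y : ℝ × ℝ, ‖f (l * y.1, l * y.2)‖ₑ ^ q =
      ENNReal.ofReal ((l ^ 2)⁻¹) * ∫⁻ y, ‖f y‖ₑ ^ q := by
    rw [h, ← mul_assoc, ← ENNReal.ofReal_mul (by positivity), inv_mul_cancel₀ (by positivity),
      ENNReal.ofReal_one, one_mul]
  have e1 := lin_q (μ := (volume : Measure (ℝ × ℝ)))
    (F := fun y : ℝ × ℝ => f (l * y.1, l * y.2)) hq
  rw [h2, lin_q hq] at e1
  have e3 : ∀ y : ℝ≥0∞, (y ^ q) ^ (1 / q) = y := by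
    intro y
    rw [← ENNReal.rpow_mul, mul_one_div_cancel hq.ne', ENNReal.rpow_one]
  rw [← e3 (eLpNorm (fun y : ℝ × ℝ => f (l * y.1, l * y.2)) (ENNReal.ofReal q) volume), ← e1,
    ENNReal.mul_rpow_of_nonneg _ _ (by positivity), e3]
  congr 1
  rw [ENNReal.ofReal_rpow_of_nonneg (by positivity) (by positivity)]
  congr 1
  rw [← Real.rpow_natCast, ← Real.rpow_neg hl.le, ← Real.rpow_mul hl.le]
  congr 1
  push_cast
  ring

end Pool.Agent.Ray
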