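import Pool.Agent.Ray.Dy1

/-!
# The densities of the pieces satisfy the hypotheses; both signs of time
-/

open MeasureTheory Set Filter Real
open scoped ENNReal NNReal Topology

namespace Pool.Agent.Ray

open Pool.Agent.Restr

/-- the dilation difference of a function of the plane -/
noncomputable def DilC (h : ℝ) (f : ℝ × ℝ → ℂ) (y : ℝ × ℝ) : ℂ :=
  f ((1 + h) * y.1, (1 + h) * y.2) - f y

theorem measurable_DilC {f : ℝ × ℝ → ℂ} (hf : Measurable f) (h : ℝ) : Measurable (DilC h f) := by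
  unfold DilC
  exact (hf.comp (by fun_prop)).sub hf

theorem measurable_rd : Measurable rd := by
  unfold rd
  fun_prop

theorem nm_gl {q : ℝ} (hq : 1 ≤ q) {f : ℝ × ℝ → ℂ} (hf : Measurable f) {l : ℝ} (hl : 0 < l) :
    nm q (gl l f) ≤ ENNReal.ofReal (8 * l ^ (-(2 / q))) * eLpNorm f (ENNReal.ofReal q) volume := by
  have hq0 : 0 < q := by linarith
  have h1 := nm_polar hq (G := gl l f)
    (Q := fun y => (psi (rd y) : ℂ) * f (l * y.1, l * y.2))
    (fun p hp => by
      unfold gl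
      rw [if_pos hp, rd_polar hp])
    (fun p hp => by
      unfold gl
      rw [if_neg (not_lt.2 hp)])
    (fun y hy => by
      rw [psi_small (rd_nonneg y) (by linarith [rd_lt hy])]
      simp)
  refine h1.trans ?_
  have h2 : eLpNorm (fun y : ℝ × ℝ => (psi (rd y) : ℂ) * f (l * y.1, l * y.2)) (ENNReal.ofReal q)
      volume ≤ ENNReal.ofReal 2 *
        eLpNorm (fun y : ℝ × ℝ => f (l * y.1, l * y.2)) (ENNReal.ofReal q) volume := by
    apply eLpNorm_le_mul_eLpNorm_of_ae_le_mul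
    refine Eventually.of_forall fun y => ?_
    rw [norm_mul, Complex.norm_real, Real.norm_eq_abs, abs_of_nonneg (psi_nonneg (rd_nonneg y))]
    gcongr
    exact psi_le (rd_nonneg y)
  rw [eLpNorm_scale hf hq0 hl] at h2
  calc ENNReal.ofReal 4 * eLpNorm (fun y : ℝ × ℝ => (psi (rd y) : ℂ) * f (l * y.1, l * y.2))
        (ENNReal.ofReal q) volume ≤ ENNReal.ofReal 4 * (ENNReal.ofReal 2 *
        (ENNReal.ofReal (l ^ (-(2 / q))) * eLpNorm f (ENNReal.ofReal q) volume)) := by gcongr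
    _ = _ := by
        rw [← mul_assoc, ← mul_assoc, ← ENNReal.ofReal_mul (by norm_num),
          ← ENNReal.ofReal_mul (by norm_num)]
        norm_num

theorem nm_dil_gl {q : ℝ} (hq : 1 ≤ q) {f : ℝ × ℝ → ℂ} (hf : Measurable f) {l : ℝ} (hl : 0 < l)
    {h : ℝ} (h0 : 0 < h) (h1 : h ≤ 1) :
    nm q (Dil h (gl l f)) ≤ ENNReal.ofReal (4 * l ^ (-(2 / q))) *
      (ENNReal.ofReal 2 * eLpNorm (DilC h f) (ENNReal.ofReal q) volume +
        ENNReal.ofReal (14 * h) * eLpNorm f (ENNReal.ofReal q) volume) := by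
  have hq0 : 0 < q := by linarith
  have h1q : (1 : ℝ≥0∞) ≤ ENNReal.ofReal q := by
    rw [← ENNReal.ofReal_one]
    exact ENNReal.ofReal_le_ofReal hq
  set Q1 : ℝ × ℝ → ℂ := fun y => (psi (rd y * (1 + h)) : ℂ) * DilC h f (l * y.1, l * y.2) with hQ1
  set Q2 : ℝ × ℝ → ℂ := fun y => ((psi (rd y * (1 + h)) - psi (rd y) : ℝ) : ℂ) *
    f (l * y.1, l * y.2) with hQ2
  have h2 := nm_polar hq (G := Dil h (gl l f)) (Q := fun y => Q1 y + Q2 y)
    (fun p hp => by
      have hp2 : 0 < p.1 * (1 + h) := by positivity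
      unfold Dil gl
      simp only
      rw [if_pos hp, if_pos hp2, hQ1, hQ2]
      simp only
      rw [rd_polar hp]
      unfold DilC
      simp only
      have e1 : l * (p.1 * (1 + h) * cos p.2) = (1 + h) * (l * (p.1 * cos p.2)) := by ring
      have e2 : l * (p.1 * (1 + h) * sin p.2) = (1 + h) * (l * (p.1 * sin p.2)) := by ring
      rw [e1, e2]
      push_cast
      ring)
    (fun p hp => by
      unfold Dil gl
      simp only
      rw [if_neg (not_lt.2 hp), if_neg (not_lt.2 (mul_nonpos_of_nonpos_of_nonneg hp (by linarith))),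
        sub_zero])
    (fun y hy => by
      have hr := rd_lt hy
      have hr0 := rd_nonneg y
      rw [hQ1, hQ2]
      simp only
      rw [psi_small (ρ := rd y * (1 + h)) (by positivity) (by nlinarith),
        psi_small hr0 (by linarith)]
      simp)
  have hm1 : Measurable Q1 := by
    refine (Complex.measurable_ofReal.comp (measurable_psi.comp
      (measurable_rd.mul_const _))).mul ((measurable_DilC hf h).comp (by fun_prop))
  have hm2 : Measurable Q2 := by
    refine (Complex.measurable_ofReal.comp ((measurable_psi.comp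
      (measurable_rd.mul_const _)).sub (measurable_psi.comp measurable_rd))).mul
      (hf.comp (by fun_prop))
  have h3 : eLpNorm (fun y => Q1 y + Q2 y) (ENNReal.ofReal q) volume ≤
      eLpNorm Q1 (ENNReal.ofReal q) volume + eLpNorm Q2 (ENNReal.ofReal q) volume :=
    eLpNorm_add_le hm1.aestronglyMeasurable hm2.aestronglyMeasurable h1q
  have h4 : eLpNorm Q1 (ENNReal.ofReal q) volume ≤ ENNReal.ofReal 2 *
      (ENNReal.ofReal (l ^ (-(2 / q))) * eLpNorm (DilC h f) (ENNReal.ofReal q) volume) := by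
    rw [← eLpNorm_scale (measurable_DilC hf h) hq0 hl]
    apply eLpNorm_le_mul_eLpNorm_of_ae_le_mul
    refine Eventually.of_forall fun y => ?_
    have hr0 : 0 ≤ rd y * (1 + h) := mul_nonneg (rd_nonneg y) (by linarith)
    rw [hQ1]
    simp only
    rw [norm_mul, Complex.norm_real, Real.norm_eq_abs, abs_of_nonneg (psi_nonneg hr0)]
    gcongr
    exact psi_le hr0
  have h5 : eLpNorm Q2 (ENNReal.ofReal q) volume ≤ ENNReal.ofReal (14 * h) *
      (ENNReal.ofReal (l ^ (-(2 / q))) * eLpNorm f (ENNReal.ofReal q) volume) := by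
    rw [← eLpNorm_scale hf hq0 hl]
    apply eLpNorm_le_mul_eLpNorm_of_ae_le_mul
    refine Eventually.of_forall fun y => ?_
    rw [hQ2]
    simp only
    rw [norm_mul, Complex.norm_real, Real.norm_eq_abs]
    gcongr
    exact psi_diff (rd_nonneg y) h0 h1
  refine h2.trans ?_
  calc ENNReal.ofReal 4 * eLpNorm (fun y => Q1 y + Q2 y) (ENNReal.ofReal q) volume
      ≤ ENNReal.ofReal 4 * (ENNReal.ofReal 2 *
        (ENNReal.ofReal (l ^ (-(2 / q))) * eLpNorm (DilC h f) (ENNReal.ofReal q) volume) +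
        ENNReal.ofReal (14 * h) *
        (ENNReal.ofReal (l ^ (-(2 / q))) * eLpNorm f (ENNReal.ofReal q) volume)) := by
        gcongr
        exact h3.trans (add_le_add h4 h5)
    _ = _ := by
        rw [ENNReal.ofReal_mul (by norm_num : (0 : ℝ) ≤ 4)]
        ring

/-- The densities of the pieces satisfy the hypotheses. -/
theorem gl_hyp : ∃ C : ℝ≥0, ∀ (q σ : ℝ), 1 ≤ q → 0 ≤ σ → σ ≤ 1 →
    ∀ f : ℝ × ℝ → ℂ, Measurable f → (∃ M : ℝ, ∀ p, ‖f p‖ ≤ M) → ∀ W : ℝ≥0,
    eLpNorm f (ENNReal.ofReal q) volume ≤ W →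
    (∀ h : ℝ, 0 < h → h ≤ 1 → eLpNorm (DilC h f) (ENNReal.ofReal q) volume ≤
      W * ENNReal.ofReal (h ^ σ)) →
    ∀ l : ℝ, 0 < l → HypR q σ (gl l f) (C * (l ^ (-(2 / q))).toNNReal * W) := by
  obtain ⟨Ce, hCe, herr⟩ := err_of_mod
  refine ⟨Ce.toNNReal * 64, fun q σ hq hσ hσ1 f hf hb W hW hmod l hl => ?_⟩
  have hq0 : 0 < q := by linarith
  set L : ℝ := l ^ (-(2 / q)) with hL
  have hL0 : 0 ≤ L := by positivity
  set B : ℝ≥0 := 64 * L.toNNReal * W with hB
  have hBc : (B : ℝ≥0∞) = ENNReal.ofReal (64 * L) * W := by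
    rw [hB, ENNReal.ofReal_mul (by norm_num)]
    push_cast
    norm_num
    rfl
  have hd : ∀ h : ℝ, 0 < h → h ≤ 1 / 8 → nm q (Dil h (gl l f)) ≤ B * ENNReal.ofReal (h ^ σ) := by
    intro h h0 h8
    have h1 : h ≤ 1 := by linarith
    have hhσ : h ≤ h ^ σ := by
      calc h = h ^ (1 : ℝ) := (Real.rpow_one h).symm
        _ ≤ h ^ σ := Real.rpow_le_rpow_of_exponent_ge h0 h1 hσ1
    refine (nm_dil_gl hq hf hl h0 h1).trans ?_
    rw [← hL]
    calc ENNReal.ofReal (4 * L) * (ENNReal.ofReal 2 * eLpNorm (DilC h f) (ENNReal.ofReal q) volume +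
          ENNReal.ofReal (14 * h) * eLpNorm f (ENNReal.ofReal q) volume)
        ≤ ENNReal.ofReal (4 * L) * (ENNReal.ofReal 2 * (W * ENNReal.ofReal (h ^ σ)) +
          ENNReal.ofReal (14 * h ^ σ) * W) := by
          gcongr
          exact hmod h h0 h1
      _ = _ := by
          rw [hBc, ENNReal.ofReal_mul (by norm_num : (0 : ℝ) ≤ 14),
            show (64 : ℝ) * L = 16 * (4 * L) by ring,
            ENNReal.ofReal_mul (by norm_num : (0 : ℝ) ≤ 16),
            show (16 : ℝ) = 2 + 14 by norm_num, ENNReal.ofReal_add (by norm_num) (by norm_num)]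
          ring
  refine ⟨measurable_gl l hf, gl_bdd l hb, gl_supp l f, ?_, ?_⟩
  · refine (nm_gl hq hf hl).trans ?_
    rw [← hL]
    have e1 : ((Ce.toNNReal * 64 * L.toNNReal * W : ℝ≥0) : ℝ≥0∞) =
        ENNReal.ofReal Ce * (ENNReal.ofReal (64 * L) * W) := by
      rw [← hBc, hB]
      push_cast
      rw [mul_assoc, mul_assoc, mul_assoc]
      rfl
    rw [e1]
    calc ENNReal.ofReal (8 * L) * eLpNorm f (ENNReal.ofReal q) volume
        ≤ 1 * (ENNReal.ofReal (64 * L) * W) := by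
          rw [one_mul]
          gcongr
          norm_num
      _ ≤ _ := by
          gcongr
          rw [← ENNReal.ofReal_one]
          exact ENNReal.ofReal_le_ofReal hCe
  · intro n
    refine (herr q σ hq hσ hσ1 (gl l f) (measurable_gl l hf) (gl_bdd l hb) (gl_supp l f) B hd
      _ (N64 n)).trans (le_of_eq ?_)
    have e2 : ((2 : ℝ) ^ (n + 6)) ^ (-σ) = 2 ^ (-(((n : ℝ) + 6) * σ)) := by
      rw [← Real.rpow_natCast, ← Real.rpow_mul (by norm_num)]
      congr 1
      push_cast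
      ring
    rw [e2, hB]
    push_cast
    rw [← mul_assoc, ← mul_assoc]
    rfl

/-! ### Negative times -/

theorem Sm_cj (N : ℝ) (g : ℝ × ℝ → ℂ) (p : ℝ × ℝ) : Sm N (cj g) p = cj (Sm N g) p := by
  unfold Sm cj
  exact integral_conj

theorem nm_cj (q : ℝ) (g : ℝ × ℝ → ℂ) : nm q (cj g) = nm q g := by
  unfold nm
  simp only [enorm_cj]

theorem HypR.cj {q σ : ℝ} {g : ℝ × ℝ → ℂ} {D : ℝ≥0} (h : HypR q σ g D) :
    HypR q σ (Restr.cj g) D where
  meas := Complex.continuous_conj.measurable.comp h.meas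
  bdd := by
    obtain ⟨M, hM⟩ := h.bdd
    refine ⟨M, fun x => ?_⟩
    unfold Restr.cj
    rw [RCLike.norm_conj]
    exact hM x
  supp := fun r ω hr => by
    unfold Restr.cj
    rw [h.supp r ω hr, map_zero]
  Lq := by
    rw [nm_cj]
    exact h.Lq
  err := fun n => by
    have e : (fun p => Restr.cj g p - Sm ((2 : ℝ) ^ (n + 6)) (Restr.cj g) p) =
        Restr.cj (fun p => g p - Sm ((2 : ℝ) ^ (n + 6)) g p) := by
      funext p
      rw [Sm_cj]
      unfold Restr.cj
      rw [map_sub]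
    rw [e, nm_cj]
    exact h.err n

theorem toC_cj (g : ℝ × ℝ → ℂ) : cj (toC g) = toC (cj g) := by
  funext y
  unfold cj toC
  rw [map_mul, Complex.conj_ofReal]

theorem lint_gsl {q : ℝ} {f : ℝ × ℝ → ℂ} (hf : Measurable f) :
    ∫⁻ ξ, ‖E f ξ‖ₑ ^ q = ∫⁻ t, gsl q f t := by
  have hm := (measurable_E hf).enorm.pow_const q
  have h3 := lam_eq (q := q) hf univ
  rw [Measure.restrict_univ] at h3
  rw [← h3]
  have h4 := lintegral_Lam (I := univ) hm
  rw [show ∫⁻ p, ‖Et f p‖ₑ ^ q ∂(Restr.Lam univ) =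
    ∫⁻ p : ℝ × ℝ × ℝ, ‖E f (p.2.2, p.2.1, p.1)‖ₑ ^ q ∂(Restr.Lam univ) from rfl, h4,
    Measure.restrict_univ]
  rw [Measure.volume_eq_prod (α := ℝ) (β := ℝ × ℝ), lintegral_prod_symm _ hm.aemeasurable]
  have hm1 : Measurable (fun y : ℝ × ℝ => ∫⁻ x, ‖E f (x, y)‖ₑ ^ q) :=
    Measurable.lintegral_prod_right' (f := fun q' : (ℝ × ℝ) × ℝ => ‖E f (q'.2, q'.1)‖ₑ ^ q)
      (hm.comp (by fun_prop : Measurable fun q' : (ℝ × ℝ) × ℝ => (q'.2, q'.1)))
  rw [Measure.volume_eq_prod, lintegral_prod_symm _ hm1.aemeasurable]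

/-- The global bound for functions with controlled polar densities. -/
theorem exists_R {q σ ε δ : ℝ} (P : Par q σ ε δ) : ∃ C : ℝ≥0,
    ∀ (g : ℝ × ℝ → ℂ) (D : ℝ≥0), HypR q σ g D →
      ∫⁻ ξ, ‖E (toC g) ξ‖ₑ ^ q ≤ C * (D : ℝ≥0∞) ^ q := by
  obtain ⟨C, hC⟩ := exists_posR P
  refine ⟨C + C, fun g D h => ?_⟩
  have h1 := hC g D h
  have h2 := hC (cj g) D h.cj
  rw [← toC_cj] at h2
  rw [lint_gsl (measurable_toC h.meas),
    ← lintegral_add_compl (gsl q (toC g)) (measurableSet_Ici (a := (0 : ℝ)))]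
  have h5 : ∫⁻ t in (Ici (0 : ℝ))ᶜ, gsl q (toC g) t ≤
      ∫⁻ t in Ici (0 : ℝ), gsl q (cj (toC g)) t := by
    rw [← lintegral_indicator measurableSet_Ici, ← lintegral_indicator measurableSet_Ici.compl,
      ← lintegral_neg_eq_self]
    refine lintegral_mono fun t => ?_
    by_cases ht : -t ∈ (Ici (0 : ℝ))ᶜ
    · have ht' : t ∈ Ici (0 : ℝ) := by
        have : ¬ (0 ≤ -t) := ht
        change 0 ≤ t
        linarith
      rw [indicator_of_mem ht, indicator_of_mem ht', gsl_neg]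
    · rw [indicator_of_notMem ht]
      exact bot_le
  calc (∫⁻ t in Ici (0 : ℝ), gsl q (toC g) t) + ∫⁻ t in (Ici (0 : ℝ))ᶜ, gsl q (toC g) t
      ≤ C * (D : ℝ≥0∞) ^ q + C * (D : ℝ≥0∞) ^ q := add_le_add h1 (h5.trans h2)
    _ = _ := by rw [← add_mul]; push_cast; rfl

end Pool.Agent.Ray
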