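import Pool.Agent.Ray.Dy2

/-!
# Scaling and the sum over the dyadic annuli
-/

open MeasureTheory Set Filter Real
open scoped ENNReal NNReal Topology

namespace Pool.Agent.Ray

open Pool.Agent.Restr

theorem toC_gl (l : ℝ) (f : ℝ × ℝ → ℂ) {z : ℝ × ℝ} (hz : z ≠ 0) :
    toC (gl l f) z = (tent (Real.logb 2 (rd z)) : ℂ) * f (l * z.1, l * z.2) := by
  have hpos : 0 < z.1 ^ 2 + z.2 ^ 2 := by
    have h1 : z.1 ≠ 0 ∨ z.2 ≠ 0 := by
      by_contra hcon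
      push Not at hcon
      exact hz (Prod.ext hcon.1 hcon.2)
    rcases h1 with h1 | h1
    · have : 0 < z.1 ^ 2 := by positivity
      nlinarith [sq_nonneg z.2]
    · have : 0 < z.2 ^ 2 := by positivity
      nlinarith [sq_nonneg z.1]
  have hs := Real.sqrt_pos.2 hpos
  unfold toC gl
  rw [polarCoord_apply]
  simp only [Complex.equivRealProd_symm_apply]
  rw [if_pos hs]
  set w : ℂ := (z.1 : ℂ) + z.2 * Complex.I with hw
  have hn : ‖w‖ = √(z.1 ^ 2 + z.2 ^ 2) := by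
    rw [Complex.norm_def, Complex.normSq_add_mul_I]
  have e1 : √(z.1 ^ 2 + z.2 ^ 2) * cos (Complex.arg w) = z.1 := by
    rw [← hn, Complex.norm_mul_cos_arg]
    simp [hw]
  have e2 : √(z.1 ^ 2 + z.2 ^ 2) * sin (Complex.arg w) = z.2 := by
    rw [← hn, Complex.norm_mul_sin_arg]
    simp [hw]
  rw [e1, e2]
  unfold psi rd
  push_cast
  have hne : ((√(z.1 ^ 2 + z.2 ^ 2) : ℝ) : ℂ) ≠ 0 := by
    exact_mod_cast hs.ne'
  field_simp

/-- The extension of a dilated function. -/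
theorem E_scale (G : ℝ × ℝ → ℂ) {a : ℝ} (ha : 0 < a) (ξ : ℝ × ℝ × ℝ) :
    E (fun y => G (a * y.1, a * y.2)) ξ =
      (((a ^ 2)⁻¹ : ℝ) : ℂ) * E G (a⁻¹ * ξ.1, a⁻¹ * ξ.2.1, (a ^ 2)⁻¹ * ξ.2.2) := by
  unfold E
  have h := Measure.integral_comp_smul (volume : Measure (ℝ × ℝ)) (fun x : ℝ × ℝ =>
    u (a⁻¹ * ξ.1 * x.1 + (a⁻¹ * ξ.2.1 * x.2 + (a ^ 2)⁻¹ * ξ.2.2 * (x.1 ^ 2 + x.2 ^ 2))) * G x) a
  have hfr : Module.finrank ℝ (ℝ × ℝ) = 2 := by simp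
  rw [hfr, abs_of_pos (by positivity), Complex.real_smul] at h
  simp only
  rw [← h]
  refine integral_congr_ae (Eventually.of_forall fun y => ?_)
  simp only [Prod.smul_fst, Prod.smul_snd, smul_eq_mul]
  congr 2
  · field_simp

theorem lint_key {G : ℝ × ℝ × ℝ → ℝ≥0∞} (hG : Measurable G) :
    ∫⁻ ξ, G ξ = ∫⁻ t, ∫⁻ w : ℝ × ℝ, G (w.1, w.2, t) := by
  rw [Measure.volume_eq_prod (α := ℝ) (β := ℝ × ℝ), lintegral_prod_symm _ hG.aemeasurable]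
  have hm1 : Measurable (fun y : ℝ × ℝ => ∫⁻ x, G (x, y)) :=
    Measurable.lintegral_prod_right' (f := fun q' : (ℝ × ℝ) × ℝ => G (q'.2, q'.1))
      (hG.comp (by fun_prop : Measurable fun q' : (ℝ × ℝ) × ℝ => (q'.2, q'.1)))
  rw [Measure.volume_eq_prod, lintegral_prod_symm _ hm1.aemeasurable]
  refine lintegral_congr fun t => ?_
  have hm2 : Measurable (fun w : ℝ × ℝ => G (w.1, w.2, t)) := by fun_prop
  rw [lintegral_prod_symm _ hm2.aemeasurable]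

theorem lint_scale3 {F : ℝ × ℝ × ℝ → ℝ≥0∞} (hF : Measurable F) {a b : ℝ} (ha : 0 < a)
    (hb : 0 < b) : ∫⁻ ξ : ℝ × ℝ × ℝ, F (a * ξ.1, a * ξ.2.1, b * ξ.2.2) =
      ENNReal.ofReal ((a ^ 2 * b)⁻¹) * ∫⁻ ξ, F ξ := by
  have hF2 : Measurable (fun ξ : ℝ × ℝ × ℝ => F (a * ξ.1, a * ξ.2.1, b * ξ.2.2)) :=
    hF.comp (by fun_prop)
  have hne : -b ≠ 0 := by linarith
  have hm0 : Measurable (fun t => ∫⁻ w : ℝ × ℝ, F (w.1, w.2, t)) :=
    Measurable.lintegral_prod_right' (f := fun p : ℝ × (ℝ × ℝ) => F (p.2.1, p.2.2, p.1))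
      (hF.comp (by fun_prop))
  have h1 : ∫⁻ ξ, F ξ = ENNReal.ofReal (a ^ 2 * b) *
      ∫⁻ ξ : ℝ × ℝ × ℝ, F (a * ξ.1, a * ξ.2.1, b * ξ.2.2) := by
    rw [lint_key hF, lint_key hF2, lint_scale hm0 hne]
    have e1 : ∀ t, ∫⁻ w : ℝ × ℝ, F (w.1, w.2, -(-b * t)) =
        ENNReal.ofReal (a ^ 2) * ∫⁻ w : ℝ × ℝ, F (a * w.1, a * w.2, b * t) := by
      intro t
      have hm : Measurable (fun w : ℝ × ℝ => F (w.1, w.2, -(-b * t))) := hF.comp (by fun_prop)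
      rw [lint_scale2 hm ha]
      congr 1
      refine lintegral_congr fun w => ?_
      congr 3
      ring
    simp only [e1]
    have hm3 : Measurable (fun t => ∫⁻ w : ℝ × ℝ, F (a * w.1, a * w.2, b * t)) :=
      Measurable.lintegral_prod_right'
        (f := fun p : ℝ × (ℝ × ℝ) => F (a * p.2.1, a * p.2.2, b * p.1)) (hF.comp (by fun_prop))
    rw [lintegral_const_mul _ hm3, ← mul_assoc, abs_neg, abs_of_pos hb,
      ← ENNReal.ofReal_mul hb.le]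
    congr 2
    ring
  rw [h1, ← mul_assoc, ← ENNReal.ofReal_mul (by positivity), inv_mul_cancel₀ (by positivity),
    ENNReal.ofReal_one, one_mul]

theorem eLpNorm_E_scale {G : ℝ × ℝ → ℂ} (hG : Measurable G) {q : ℝ} (hq : 0 < q) {a : ℝ}
    (ha : 0 < a) : eLpNorm (E (fun y => G (a * y.1, a * y.2))) (ENNReal.ofReal q) volume =
      ENNReal.ofReal (a ^ (-2 + 4 / q)) * eLpNorm (E G) (ENNReal.ofReal q) volume := by
  have hEm := (measurable_E hG).enorm.pow_const q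
  have e3 : ∀ y : ℝ≥0∞, (y ^ q) ^ (1 / q) = y := by
    intro y
    rw [← ENNReal.rpow_mul, mul_one_div_cancel hq.ne', ENNReal.rpow_one]
  rw [← e3 (eLpNorm (E (fun y => G (a * y.1, a * y.2))) (ENNReal.ofReal q) volume), ← lin_q hq]
  have e1 : ∫⁻ ξ, ‖E (fun y => G (a * y.1, a * y.2)) ξ‖ₑ ^ q =
      ENNReal.ofReal ((a ^ (-2 + 4 / q)) ^ q) * ∫⁻ ξ, ‖E G ξ‖ₑ ^ q := by
    have e2 : ∀ ξ : ℝ × ℝ × ℝ, ‖E (fun y => G (a * y.1, a * y.2)) ξ‖ₑ ^ q =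
        ENNReal.ofReal (((a ^ 2)⁻¹) ^ q) *
          (fun η : ℝ × ℝ × ℝ => ‖E G η‖ₑ ^ q) (a⁻¹ * ξ.1, a⁻¹ * ξ.2.1, (a ^ 2)⁻¹ * ξ.2.2) := by
      intro ξ
      rw [E_scale G ha, enorm_mul, ENNReal.mul_rpow_of_nonneg _ _ hq.le]
      congr 1
      rw [← ofReal_norm, Complex.norm_real, Real.norm_eq_abs, abs_of_pos (by positivity),
        ENNReal.ofReal_rpow_of_nonneg (by positivity) hq.le]
    simp only [e2]
    have hm : Measurable (fun ξ : ℝ × ℝ × ℝ =>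
        ‖E G (a⁻¹ * ξ.1, a⁻¹ * ξ.2.1, (a ^ 2)⁻¹ * ξ.2.2)‖ₑ ^ q) := hEm.comp (by fun_prop)
    rw [lintegral_const_mul _ hm]
    have h5 := lint_scale3 hEm (inv_pos.2 ha) (by positivity : 0 < (a ^ 2)⁻¹)
    rw [h5, ← mul_assoc, ← ENNReal.ofReal_mul (by positivity)]
    congr 2
    have e6 : ((a⁻¹) ^ 2 * (a ^ 2)⁻¹)⁻¹ = a ^ (4 : ℝ) := by
      rw [show (4 : ℝ) = ((4 : ℕ) : ℝ) by norm_num, Real.rpow_natCast]
      field_simp
    have e7 : ((a ^ 2)⁻¹) ^ q = a ^ (-2 * q) := by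
      rw [← Real.rpow_natCast, ← Real.rpow_neg ha.le, ← Real.rpow_mul ha.le]
      push_cast
      rfl
    rw [e6, e7, ← Real.rpow_add ha, ← Real.rpow_mul ha.le]
    congr 1
    field_simp
  rw [e1, ENNReal.mul_rpow_of_nonneg _ _ (by positivity), lin_q hq, e3,
    ENNReal.ofReal_rpow_of_nonneg (by positivity) (by positivity), ← Real.rpow_mul (by positivity),
    mul_one_div_cancel hq.ne', Real.rpow_one]

/-- The pieces. -/
noncomputable def pcs (m : ℕ) (f : ℝ × ℝ → ℂ) (y : ℝ × ℝ) : ℂ :=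
  (tent ((m : ℝ) + Real.logb 2 (rd y)) : ℂ) * f y

theorem rd_pos {y : ℝ × ℝ} (hy : y ≠ 0) : 0 < rd y := by
  unfold rd
  apply Real.sqrt_pos.2
  have h1 : y.1 ≠ 0 ∨ y.2 ≠ 0 := by
    by_contra hcon
    push Not at hcon
    exact hy (Prod.ext hcon.1 hcon.2)
  rcases h1 with h1 | h1
  · have : 0 < y.1 ^ 2 := by positivity
    nlinarith [sq_nonneg y.2]
  · have : 0 < y.2 ^ 2 := by positivity
    nlinarith [sq_nonneg y.1]

theorem rd_scale {a : ℝ} (ha : 0 < a) (y : ℝ × ℝ) : rd (a * y.1, a * y.2) = a * rd y := by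
  unfold rd
  simp only
  rw [show (a * y.1) ^ 2 + (a * y.2) ^ 2 = a ^ 2 * (y.1 ^ 2 + y.2 ^ 2) by ring,
    Real.sqrt_mul (by positivity), Real.sqrt_sq ha.le]

theorem pcs_eq (m : ℕ) (f : ℝ × ℝ → ℂ) {y : ℝ × ℝ} (hy : y ≠ 0) :
    pcs m f y = toC (gl ((2 : ℝ) ^ m)⁻¹ f) ((2 : ℝ) ^ m * y.1, (2 : ℝ) ^ m * y.2) := by
  have ha : (0 : ℝ) < 2 ^ m := by positivity
  have hz : ((2 : ℝ) ^ m * y.1, (2 : ℝ) ^ m * y.2) ≠ (0 : ℝ × ℝ) := by
    intro h0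
    apply hy
    rw [Prod.ext_iff] at h0
    simp only [Prod.fst_zero, Prod.snd_zero, mul_eq_zero, ha.ne', false_or] at h0
    exact Prod.ext h0.1 h0.2
  rw [toC_gl _ _ hz, rd_scale ha, Real.logb_mul ha.ne' (rd_pos hy).ne']
  unfold pcs
  have e1 : Real.logb 2 ((2 : ℝ) ^ m) = m := by
    rw [← Real.rpow_natCast, Real.logb_rpow (by norm_num) (by norm_num)]
  rw [e1]
  simp only
  rw [inv_mul_cancel_left₀ ha.ne', inv_mul_cancel_left₀ ha.ne']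

theorem E_congr {f g : ℝ × ℝ → ℂ} (h : ∀ y, y ≠ 0 → f y = g y) : E f = E g := by
  funext ξ
  unfold E
  apply integral_congr_ae
  have h0 : ∀ᵐ y : ℝ × ℝ, y ≠ 0 := by
    have : (volume : Measure (ℝ × ℝ)) {(0 : ℝ × ℝ)} = 0 := measure_singleton _
    rw [ae_iff]
    simp
  filter_upwards [h0] with y hy
  rw [h y hy]

/-- Estimate of the pieces. -/
theorem piece_est {q σ ε δ : ℝ} (P : Par q σ ε δ) : ∃ C : ℝ≥0, ∀ f : ℝ × ℝ → ℂ, Measurable f →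
    (∃ M : ℝ, ∀ p, ‖f p‖ ≤ M) → ∀ W : ℝ≥0, eLpNorm f (ENNReal.ofReal q) volume ≤ W →
    (∀ h : ℝ, 0 < h → h ≤ 1 → eLpNorm (DilC h f) (ENNReal.ofReal q) volume ≤
      W * ENNReal.ofReal (h ^ σ)) →
    ∀ m : ℕ, eLpNorm (E (pcs m f)) (ENNReal.ofReal q) volume ≤
      C * W * ENNReal.ofReal (((2 : ℝ) ^ (-2 + 6 / q)) ^ m) := by
  obtain ⟨C1, hC1⟩ := gl_hyp
  obtain ⟨C2, hC2⟩ := exists_R P
  have hq0 : 0 < q := by linarith [P.q3]
  refine ⟨C2 ^ (1 / q) * C1, fun f hf hb W hW hmod m => ?_⟩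
  set a : ℝ := (2 : ℝ) ^ m with ha
  have ha0 : 0 < a := by positivity
  have hH := hC1 q σ (by linarith [P.q3]) P.σ0.le P.σ1 f hf hb W hW hmod a⁻¹ (inv_pos.2 ha0)
  set D : ℝ≥0 := C1 * ((a⁻¹) ^ (-(2 / q))).toNNReal * W with hD
  have h2 := hC2 _ D hH
  have h3 : eLpNorm (E (toC (gl a⁻¹ f))) (ENNReal.ofReal q) volume ≤
      (C2 : ℝ≥0∞) ^ (1 / q) * D := by
    apply eLpNorm_le_of_lin hq0
    rw [ENNReal.mul_rpow_of_nonneg _ _ hq0.le, ← ENNReal.rpow_mul, one_div_mul_cancel hq0.ne',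
      ENNReal.rpow_one]
    exact h2
  have h4 : E (pcs m f) = E (fun y => (toC (gl a⁻¹ f)) (a * y.1, a * y.2)) :=
    E_congr fun y hy => pcs_eq m f hy
  rw [h4, eLpNorm_E_scale (measurable_toC (measurable_gl _ hf)) hq0 ha0]
  calc ENNReal.ofReal (a ^ (-2 + 4 / q)) * eLpNorm (E (toC (gl a⁻¹ f))) (ENNReal.ofReal q) volume
      ≤ ENNReal.ofReal (a ^ (-2 + 4 / q)) * ((C2 : ℝ≥0∞) ^ (1 / q) * D) := by gcongr
    _ = _ := by
        rw [hD]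
        push_cast
        rw [← ENNReal.coe_rpow_of_nonneg _ (by positivity : 0 ≤ 1 / q)]
        have e1 : (((a⁻¹) ^ (-(2 / q))).toNNReal : ℝ≥0∞) = ENNReal.ofReal (a ^ (2 / q)) := by
          rw [Real.inv_rpow ha0.le, Real.rpow_neg ha0.le, inv_inv]
          rfl
        rw [e1]
        have e2 : ENNReal.ofReal (((2 : ℝ) ^ (-2 + 6 / q)) ^ m) =
            ENNReal.ofReal (a ^ (-2 + 4 / q)) * ENNReal.ofReal (a ^ (2 / q)) := by
          rw [← ENNReal.ofReal_mul (by positivity), ← Real.rpow_add ha0]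
          congr 1
          rw [ha, ← Real.rpow_natCast, ← Real.rpow_natCast, ← Real.rpow_mul (by norm_num),
            ← Real.rpow_mul (by norm_num)]
          congr 1
          ring
        rw [e2]
        ring

end Pool.Agent.Ray
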