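import Pool.Agent.Ray.Dy3

/-!
# Final assembly
-/

open MeasureTheory Set Filter Real
open scoped ENNReal NNReal Topology

namespace Pool.Agent.Ray

open Pool.Agent.Restr

/-- the square containing the unit disc -/
def SS : Set (ℝ × ℝ) := Icc (-1 : ℝ) 1 ×ˢ Icc (-1 : ℝ) 1

theorem vol_SS : volume SS = 4 := by
  unfold SS
  rw [Measure.volume_eq_prod, Measure.prod_prod, Real.volume_Icc,
    ← ENNReal.ofReal_mul (by norm_num)]
  norm_num

theorem supp_SS {f : ℝ × ℝ → ℂ} (hs : ∀ x : ℝ × ℝ, 1 < x.1 ^ 2 + x.2 ^ 2 → f x = 0) :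
    f.support ⊆ SS := by
  intro x hx
  have h : x.1 ^ 2 + x.2 ^ 2 ≤ 1 := by
    by_contra hcon
    exact hx (hs x (not_le.1 hcon))
  have a1 : |x.1| ≤ 1 := abs_le_of_sq_le_sq (by nlinarith [sq_nonneg x.2]) (by norm_num)
  have a2 : |x.2| ≤ 1 := abs_le_of_sq_le_sq (by nlinarith [sq_nonneg x.1]) (by norm_num)
  exact ⟨abs_le.1 a1, abs_le.1 a2⟩

theorem integrable_of_supp {f : ℝ × ℝ → ℂ} (hf : Measurable f)
    (hs : ∀ x : ℝ × ℝ, 1 < x.1 ^ 2 + x.2 ^ 2 → f x = 0) {q : ℝ} (hq : 1 ≤ q)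
    (htop : eLpNorm f (ENNReal.ofReal q) volume ≠ ⊤) : Integrable f := by
  have h1q : (1 : ℝ≥0∞) ≤ ENNReal.ofReal q := by
    rw [← ENNReal.ofReal_one]
    exact ENNReal.ofReal_le_ofReal hq
  rw [← memLp_one_iff_integrable]
  refine ⟨hf.aestronglyMeasurable, ?_⟩
  rw [← eLpNorm_restrict_eq_of_support_subset (supp_SS hs)]
  have hsq : eLpNorm f (ENNReal.ofReal q) (volume.restrict SS) < ⊤ := by
    rw [eLpNorm_restrict_eq_of_support_subset (supp_SS hs)]
    exact lt_top_iff_ne_top.2 htop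
  have : IsFiniteMeasure ((volume : Measure (ℝ × ℝ)).restrict SS) := by
    refine ⟨?_⟩
    rw [Measure.restrict_apply MeasurableSet.univ, univ_inter, vol_SS]
    norm_num
  exact (MemLp.mono_exponent ⟨hf.aestronglyMeasurable.restrict, hsq⟩ h1q).2

theorem measurable_pcs (m : ℕ) {f : ℝ × ℝ → ℂ} (hf : Measurable f) : Measurable (pcs m f) := by
  unfold pcs tent
  have h1 : Measurable (fun y : ℝ × ℝ => (m : ℝ) + Real.logb 2 (rd y)) := by
    have : Measurable (fun ρ : ℝ => Real.logb 2 ρ) := by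
      unfold Real.logb
      fun_prop
    exact (this.comp measurable_rd).const_add _
  have h2 := continuous_cl.measurable
  exact (Complex.measurable_ofReal.comp ((h2.comp (h1.add_const 1)).sub (h2.comp h1))).mul hf

theorem norm_pcs_le (m : ℕ) (f : ℝ × ℝ → ℂ) (y : ℝ × ℝ) : ‖pcs m f y‖ ≤ ‖f y‖ := by
  unfold pcs
  rw [norm_mul, Complex.norm_real, Real.norm_eq_abs, abs_of_nonneg (tent_nonneg _)]
  calc tent ((m : ℝ) + Real.logb 2 (rd y)) * ‖f y‖ ≤ 1 * ‖f y‖ := by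
        gcongr
        exact tent_le_one _
    _ = _ := one_mul _

theorem pcs_sum (M : ℕ) (f : ℝ × ℝ → ℂ)
    (hs : ∀ x : ℝ × ℝ, 1 < x.1 ^ 2 + x.2 ^ 2 → f x = 0) (y : ℝ × ℝ) :
    ∑ m ∈ Finset.range M, pcs m f y = (cl ((M : ℝ) + Real.logb 2 (rd y)) : ℂ) * f y := by
  unfold pcs
  rw [← Finset.sum_mul, ← Complex.ofReal_sum, tent_sum]
  by_cases hy : 1 < y.1 ^ 2 + y.2 ^ 2
  · rw [hs y hy, mul_zero, mul_zero]
  · have h1 : rd y ≤ 1 := by
      unfold rd
      exact Real.sqrt_le_one.2 (not_lt.1 hy)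
    have h2 : Real.logb 2 (rd y) ≤ 0 := Real.logb_nonpos (by norm_num) (rd_nonneg y) h1
    rw [cl_zero h2, sub_zero]

theorem E_pcs_sum (M : ℕ) {f : ℝ × ℝ → ℂ} (hf : Measurable f) (hint : Integrable f) :
    E (fun y => ∑ m ∈ Finset.range M, pcs m f y) = ∑ m ∈ Finset.range M, E (pcs m f) := by
  funext ξ
  rw [Finset.sum_apply]
  unfold E
  simp only [Finset.mul_sum]
  rw [integral_finsetSum]
  intro m _
  have h1 : Integrable (pcs m f) :=
    hint.mono (measurable_pcs m hf).aestronglyMeasurable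
      (Eventually.of_forall fun y => norm_pcs_le m f y)
  refine h1.bdd_mul (c := 1) ?_ (Eventually.of_forall fun x => (norm_u _).le)
  exact (measurable_u.comp (by fun_prop)).aestronglyMeasurable

/-- The estimate for bounded functions in the unit disc. -/
theorem disc_bdd {q σ ε δ : ℝ} (P : Par q σ ε δ) : ∃ C : ℝ≥0, ∀ f : ℝ × ℝ → ℂ, Measurable f →
    (∃ M : ℝ, ∀ p, ‖f p‖ ≤ M) → (∀ x : ℝ × ℝ, 1 < x.1 ^ 2 + x.2 ^ 2 → f x = 0) →
    ∀ W : ℝ≥0, eLpNorm f (ENNReal.ofReal q) volume ≤ W →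
    (∀ h : ℝ, 0 < h → h ≤ 1 → eLpNorm (DilC h f) (ENNReal.ofReal q) volume ≤
      W * ENNReal.ofReal (h ^ σ)) →
    eLpNorm (E f) (ENNReal.ofReal q) volume ≤ C * W := by
  obtain ⟨C, hC⟩ := piece_est P
  have hq := P.q3
  have hq0 : 0 < q := by linarith
  have h1q : (1 : ℝ≥0∞) ≤ ENNReal.ofReal q := by
    rw [← ENNReal.ofReal_one]
    exact ENNReal.ofReal_le_ofReal (by linarith)
  set ρ : ℝ := (2 : ℝ) ^ (-2 + 6 / q) with hρ
  have hρ0 : 0 < ρ := by positivity
  have hρ1 : ρ < 1 := by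
    apply Real.rpow_lt_one_of_one_lt_of_neg (by norm_num)
    have : 6 / q < 2 := by
      rw [div_lt_iff₀ hq0]
      linarith
    linarith
  refine ⟨C * ((1 - ρ)⁻¹).toNNReal, fun f hf hb hs W hW hmod => ?_⟩
  have hpc := hC f hf hb W hW hmod
  have hint : Integrable f :=
    integrable_of_supp hf hs (by linarith) (ne_top_of_le_ne_top ENNReal.coe_ne_top hW)
  set fM : ℕ → ℝ × ℝ → ℂ := fun M y => ∑ m ∈ Finset.range M, pcs m f y with hfM
  have hbound : ∀ M, eLpNorm (E (fM M)) (ENNReal.ofReal q) volume ≤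
      (C * ((1 - ρ)⁻¹).toNNReal : ℝ≥0) * W := by
    intro M
    rw [hfM]
    simp only
    rw [E_pcs_sum M hf hint]
    refine (eLpNorm_sum_le (fun m _ => (measurable_E (measurable_pcs m hf)).aestronglyMeasurable)
      h1q).trans ?_
    calc ∑ m ∈ Finset.range M, eLpNorm (E (pcs m f)) (ENNReal.ofReal q) volume
        ≤ ∑ m ∈ Finset.range M, C * W * ENNReal.ofReal (ρ ^ m) :=
          Finset.sum_le_sum fun m _ => hpc m
      _ = C * W * ENNReal.ofReal (∑ m ∈ Finset.range M, ρ ^ m) := by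
          rw [← Finset.mul_sum, ENNReal.ofReal_sum_of_nonneg fun m _ => by positivity]
      _ ≤ C * W * ENNReal.ofReal ((1 - ρ)⁻¹) := by
          gcongr
          rw [← tsum_geometric_of_lt_one hρ0.le hρ1]
          exact (summable_geometric_of_lt_one hρ0.le hρ1).sum_le_tsum _
            (fun m _ => by positivity)
      _ = _ := by
          push_cast
          rw [mul_assoc, mul_comm (W : ℝ≥0∞), ← mul_assoc]
          rfl
  have hlim : ∀ ξ, Tendsto (fun M => E (fM M) ξ) atTop (𝓝 (E f ξ)) := by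
    intro ξ
    unfold E
    refine tendsto_integral_of_dominated_convergence (fun x => ‖f x‖) (fun M => ?_) hint.norm
      (fun M => Eventually.of_forall fun x => ?_) (Eventually.of_forall fun x => ?_)
    · have : Measurable (fM M) := Finset.measurable_fun_sum _ fun m _ => measurable_pcs m hf
      exact ((measurable_u.comp (by fun_prop)).mul this).aestronglyMeasurable
    · rw [norm_mul, norm_u, one_mul]
      simp only [hfM]
      rw [pcs_sum M f hs, norm_mul, Complex.norm_real, Real.norm_eq_abs,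
        abs_of_nonneg (cl_nonneg _)]
      calc cl ((M : ℝ) + Real.logb 2 (rd x)) * ‖f x‖ ≤ 1 * ‖f x‖ := by
            gcongr
            exact cl_le_one _
        _ = _ := one_mul _
    · apply Tendsto.const_mul
      apply tendsto_const_nhds.congr'
      obtain ⟨N, hN⟩ := exists_nat_ge (1 - Real.logb 2 (rd x))
      filter_upwards [eventually_ge_atTop N] with M hM
      simp only [hfM]
      have h1 : (N : ℝ) ≤ M := by exact_mod_cast hM
      rw [pcs_sum M f hs, cl_one (by linarith), Complex.ofReal_one, one_mul]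
  have hfMm : ∀ M, Measurable (fM M) := fun M =>
    Finset.measurable_fun_sum _ fun m _ => measurable_pcs m hf
  have hfat := Lp.eLpNorm_lim_le_liminf_eLpNorm (μ := (volume : Measure (ℝ × ℝ × ℝ)))
    (p := ENNReal.ofReal q) (f := fun M => E (fM M))
    (fun M => (measurable_E (hfMm M)).aestronglyMeasurable) (E f)
    (Eventually.of_forall hlim)
  refine hfat.trans ?_
  exact liminf_le_of_frequently_le' (Frequently.of_forall hbound)

/-- The estimate in the unit disc, `3 < q < 4`. -/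
theorem disc_gen {q σ : ℝ} (hq : 3 < q) (hq4 : q < 4) (hσ : 4 / q - 1 < σ) (hσ1 : σ ≤ 1) :
    ∃ C : ℝ≥0, ∀ f : ℝ × ℝ → ℂ, Measurable f →
    (∀ x : ℝ × ℝ, 1 < x.1 ^ 2 + x.2 ^ 2 → f x = 0) → ∀ A : ℝ≥0,
    (∀ h : ℝ, 0 < h → h ≤ 1 → eLpNorm (DilC h f) (ENNReal.ofReal q) volume ≤
      A * ENNReal.ofReal (h ^ σ)) →
    eLpNorm (E f) (ENNReal.ofReal q) volume ≤
      C * (eLpNorm f (ENNReal.ofReal q) volume + A) := by
  obtain ⟨ε, δ, P⟩ := exists_par hq hq4 hσ hσ1
  obtain ⟨C, hC⟩ := disc_bdd P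
  refine ⟨C + 1, fun f hf hs A hA => ?_⟩
  by_cases htop : eLpNorm f (ENNReal.ofReal q) volume = ⊤
  · rw [htop, top_add, ENNReal.mul_top (by simp)]
    exact le_top
  have hint : Integrable f := integrable_of_supp hf hs (by linarith) htop
  set W : ℝ≥0 := (eLpNorm f (ENNReal.ofReal q) volume).toNNReal + A with hWd
  have hWc : (W : ℝ≥0∞) = eLpNorm f (ENNReal.ofReal q) volume + A := by
    rw [hWd]
    push_cast
    rw [ENNReal.coe_toNNReal htop]
  set fn : ℕ → ℝ × ℝ → ℂ := fun n x => clc n (f x) with hfn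
  have hfnm : ∀ n, Measurable (fn n) := fun n => (continuous_clc n).measurable.comp hf
  have hbound : ∀ n, eLpNorm (E (fn n)) (ENNReal.ofReal q) volume ≤ C * W := by
    intro n
    refine hC (fn n) (hfnm n) ⟨_, fun x => clc_bdd n (f x)⟩ (fun x hx => ?_) W ?_
      (fun h h0 h1 => ?_)
    · simp only [hfn]
      rw [hs x hx, clc_zero]
    · rw [hWc]
      exact (eLpNorm_mono fun x => clc_norm_le n _).trans le_self_add
    · calc eLpNorm (DilC h (fn n)) (ENNReal.ofReal q) volume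
          ≤ eLpNorm (DilC h f) (ENNReal.ofReal q) volume :=
            eLpNorm_mono fun x => clc_lip n _ _
        _ ≤ A * ENNReal.ofReal (h ^ σ) := hA h h0 h1
        _ ≤ _ := by
            gcongr
            rw [hWd]
            exact le_add_self
  have hlim : ∀ ξ, Tendsto (fun n => E (fn n) ξ) atTop (𝓝 (E f ξ)) := by
    intro ξ
    unfold E
    refine tendsto_integral_of_dominated_convergence (fun x => ‖f x‖) (fun n => ?_) hint.norm
      (fun n => Eventually.of_forall fun x => ?_) (Eventually.of_forall fun x => ?_)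
    · exact ((measurable_u.comp (by fun_prop)).mul (hfnm n)).aestronglyMeasurable
    · rw [norm_mul, norm_u, one_mul]
      exact clc_norm_le n _
    · exact (tendsto_clc (f x)).const_mul _
  have hfat := Lp.eLpNorm_lim_le_liminf_eLpNorm (μ := (volume : Measure (ℝ × ℝ × ℝ)))
    (p := ENNReal.ofReal q) (f := fun n => E (fn n))
    (fun n => (measurable_E (hfnm n)).aestronglyMeasurable) (E f)
    (Eventually.of_forall hlim)
  refine hfat.trans ?_
  refine (liminf_le_of_frequently_le' (Frequently.of_forall hbound)).trans ?_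
  rw [hWc]
  gcongr
  exact le_self_add

/-- The estimate in the unit disc, `q ≥ 4`. -/
theorem disc_TS {q : ℝ} (hq : 4 ≤ q) : ∃ C : ℝ≥0, ∀ f : ℝ × ℝ → ℂ, Measurable f →
    (∀ x : ℝ × ℝ, 1 < x.1 ^ 2 + x.2 ^ 2 → f x = 0) →
    eLpNorm (E f) (ENNReal.ofReal q) volume ≤ C * eLpNorm f (ENNReal.ofReal q) volume := by
  obtain ⟨C, hC⟩ := caseTS hq
  have hq0 : 0 < q := by linarith
  refine ⟨(((1 / 2 : ℝ) ^ (-2 + 4 / q)).toNNReal * C) * ((2 : ℝ) ^ (-(2 / q))).toNNReal,
    fun f hf hs => ?_⟩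
  set G : ℝ × ℝ → ℂ := fun z => f (2 * z.1, 2 * z.2) with hG
  have hGm : Measurable G := hf.comp (by fun_prop)
  have e1 : f = fun y : ℝ × ℝ => G (1 / 2 * y.1, 1 / 2 * y.2) := by
    funext y
    rw [hG]
    simp only
    congr 1
    ext <;> ring
  have hGs : ∀ x, x ∉ QQ → G x = 0 := by
    intro x hx
    rw [hG]
    apply hs
    simp only
    by_contra hcon
    push Not at hcon
    apply hx
    have a1 : |x.1| ≤ 1 / 2 := abs_le_of_sq_le_sq (by nlinarith [sq_nonneg x.2]) (by norm_num)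
    have a2 : |x.2| ≤ 1 / 2 := abs_le_of_sq_le_sq (by nlinarith [sq_nonneg x.1]) (by norm_num)
    exact ⟨abs_le.1 a1, abs_le.1 a2⟩
  have h1 := hC G hGm hGs
  have h2 := eLpNorm_E_scale hGm hq0 (a := 1 / 2) (by norm_num)
  rw [← e1] at h2
  have h3 := eLpNorm_scale hf hq0 (l := 2) (by norm_num)
  rw [h2]
  rw [hG] at h1
  rw [h3] at h1
  calc ENNReal.ofReal ((1 / 2 : ℝ) ^ (-2 + 4 / q)) * eLpNorm (E G) (ENNReal.ofReal q) volume
      ≤ ENNReal.ofReal ((1 / 2 : ℝ) ^ (-2 + 4 / q)) * (C * (ENNReal.ofReal ((2 : ℝ) ^ (-(2 / q))) *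
        eLpNorm f (ENNReal.ofReal q) volume)) := by
        gcongr
    _ = _ := by
        push_cast
        rw [← mul_assoc, ← mul_assoc]
        rfl

/-- Translation of the function. -/
theorem E_shift (p : ℝ × ℝ) (f : ℝ × ℝ → ℂ) (ξ : ℝ × ℝ × ℝ) :
    E f ξ = u (ξ.1 * p.1 + ξ.2.1 * p.2 + ξ.2.2 * (p.1 ^ 2 + p.2 ^ 2)) *
      E (fun y => f (p + y)) (ξ.1 + 2 * ξ.2.2 * p.1, ξ.2.1 + 2 * ξ.2.2 * p.2, ξ.2.2) := by
  unfold E
  rw [← integral_add_left_eq_self _ p, ← integral_const_mul]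
  refine integral_congr_ae (Eventually.of_forall fun y => ?_)
  simp only
  rw [← mul_assoc, ← u_add]
  congr 2
  simp only [Prod.fst_add, Prod.snd_add]
  ring

theorem eLpNorm_E_shift (p : ℝ × ℝ) {f : ℝ × ℝ → ℂ} (hf : Measurable f) {q : ℝ} (hq : 0 < q) :
    eLpNorm (E f) (ENNReal.ofReal q) volume =
      eLpNorm (E (fun y => f (p + y))) (ENNReal.ofReal q) volume := by
  have hg : Measurable (fun y => f (p + y)) := hf.comp (measurable_id.const_add p)
  have hgE := (measurable_E hg).enorm.pow_const q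
  rw [eLpNorm_eq_lintegral_rpow_enorm_toReal (by simpa using hq) ENNReal.ofReal_ne_top,
    eLpNorm_eq_lintegral_rpow_enorm_toReal (by simpa using hq) ENNReal.ofReal_ne_top,
    ENNReal.toReal_ofReal hq.le]
  congr 1
  have e1 : ∀ ξ : ℝ × ℝ × ℝ, ‖E f ξ‖ₑ ^ q = (fun η : ℝ × ℝ × ℝ => ‖E (fun y => f (p + y)) η‖ₑ ^ q)
      (ξ.1 + 2 * ξ.2.2 * p.1, ξ.2.1 + 2 * ξ.2.2 * p.2, ξ.2.2) := by
    intro ξ
    rw [E_shift p f ξ, enorm_mul, enorm_u, one_mul]
  simp only [e1]
  have hm : Measurable (fun ξ : ℝ × ℝ × ℝ => ‖E (fun y => f (p + y))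
      (ξ.1 + 2 * ξ.2.2 * p.1, ξ.2.1 + 2 * ξ.2.2 * p.2, ξ.2.2)‖ₑ ^ q) := hgE.comp (by fun_prop)
  rw [lint_key hm, lint_key hgE]
  refine lintegral_congr fun t => ?_
  have := lintegral_add_right_eq_self (μ := (volume : Measure (ℝ × ℝ)))
    (fun w : ℝ × ℝ => ‖E (fun y => f (p + y)) (w.1, w.2, t)‖ₑ ^ q) (2 * t * p.1, 2 * t * p.2)
  rw [← this]
  rfl

/-- The final statement. -/
theorem final {q σ : ℝ} (hq : 3 < q) (hσ : 4 / q - 1 < σ) (hσ1 : σ ≤ 1) :
    ∃ C : ℝ≥0, ∀ (f : ℝ × ℝ → ℂ) (p : ℝ × ℝ) (A : ℝ≥0), Measurable f →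
    (∀ x : ℝ × ℝ, 1 < (x.1 - p.1) ^ 2 + (x.2 - p.2) ^ 2 → f x = 0) →
    (∀ h : ℝ, 0 < h → h ≤ 1 →
      eLpNorm (fun x => f (p + (1 + h) • (x - p)) - f x) (ENNReal.ofReal q) volume ≤
        A * ENNReal.ofReal (h ^ σ)) →
    eLpNorm (E f) (ENNReal.ofReal q) volume ≤
      C * (eLpNorm f (ENNReal.ofReal q) volume + A) := by
  have hq0 : 0 < q := by linarith
  have hmp : ∀ p : ℝ × ℝ, MeasurePreserving (fun y => p + y) (volume : Measure (ℝ × ℝ)) volume :=
    fun p => measurePreserving_add_left volume p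
  have hgn : ∀ (p : ℝ × ℝ) (F : ℝ × ℝ → ℂ), Measurable F →
      eLpNorm (fun y => F (p + y)) (ENNReal.ofReal q) volume =
        eLpNorm F (ENNReal.ofReal q) volume := fun p F hF =>
    eLpNorm_comp_measurePreserving hF.aestronglyMeasurable (hmp p)
  have hgs : ∀ (f : ℝ × ℝ → ℂ) (p : ℝ × ℝ),
      (∀ x : ℝ × ℝ, 1 < (x.1 - p.1) ^ 2 + (x.2 - p.2) ^ 2 → f x = 0) →
      ∀ x : ℝ × ℝ, 1 < x.1 ^ 2 + x.2 ^ 2 → f (p + x) = 0 := by
    intro f p hs x hx
    apply hs
    simp only [Prod.fst_add, Prod.snd_add, add_sub_cancel_left]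
    exact hx
  rcases lt_or_ge q 4 with hq4 | hq4
  · obtain ⟨C, hC⟩ := disc_gen hq hq4 hσ hσ1
    refine ⟨C, fun f p A hf hs hA => ?_⟩
    have hg : Measurable (fun y => f (p + y)) := hf.comp (measurable_id.const_add p)
    rw [eLpNorm_E_shift p hf hq0, ← hgn p f hf]
    refine hC _ hg (hgs f p hs) A (fun h h0 h1 => ?_)
    refine le_trans (le_of_eq ?_) (hA h h0 h1)
    have hm : Measurable (fun x : ℝ × ℝ => f (p + (1 + h) • (x - p)) - f x) :=
      (hf.comp (by fun_prop)).sub hf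
    rw [← hgn p _ hm]
    congr 1
    funext y
    unfold DilC
    simp only
    rw [add_sub_cancel_left]
    rfl
  · obtain ⟨C, hC⟩ := disc_TS hq4
    refine ⟨C, fun f p A hf hs _ => ?_⟩
    have hg : Measurable (fun y => f (p + y)) := hf.comp (measurable_id.const_add p)
    rw [eLpNorm_E_shift p hf hq0, ← hgn p f hf]
    refine (hC _ hg (hgs f p hs)).trans ?_
    gcongr
    exact le_self_add

end Pool.Agent.Ray
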