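import Pool.Agent.Restr.Kernel

/-!
# Fresnel integrals against smooth compactly supported functions
-/

open MeasureTheory Set Filter Real
open scoped ENNReal NNReal Topology

namespace Pool.Agent.Ray

open Pool.Agent.Restr

/-- Smooth functions supported in `[-1, 1]`. -/
structure Bmp (φ : ℝ → ℝ) : Prop where
  smooth : ContDiff ℝ (⊤ : ℕ∞) φ
  supp : ∀ s, 1 ≤ |s| → φ s = 0

theorem Bmp.continuous {φ : ℝ → ℝ} (h : Bmp φ) : Continuous φ := h.smooth.continuous

theorem Bmp.hasDerivAt {φ : ℝ → ℝ} (h : Bmp φ) (s : ℝ) : HasDerivAt φ (deriv φ s) s :=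
  (h.smooth.differentiable (by simp) s).hasDerivAt

theorem Bmp.deriv {φ : ℝ → ℝ} (h : Bmp φ) : Bmp (deriv φ) where
  smooth := by
    have := h.smooth
    exact (contDiff_infty_iff_deriv.1 this).2
  supp := by
    -- the derivative vanishes outside and by continuity at the end points
    have hc : Continuous (_root_.deriv φ) :=
      ((contDiff_infty_iff_deriv.1 h.smooth).2).continuous
    have h1 : ∀ s, 1 < |s| → _root_.deriv φ s = 0 := by
      intro s hs
      have he : φ =ᶠ[𝓝 s] fun _ => 0 := by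
        have : {x : ℝ | 1 < |x|} ∈ 𝓝 s := (isOpen_lt continuous_const continuous_abs).mem_nhds hs
        filter_upwards [this] with x hx
        exact h.supp x hx.le
      rw [he.deriv_eq]
      simp
    intro s hs
    rcases hs.lt_or_eq with hlt | heq
    · exact h1 s hlt
    · have hcl : s ∈ closure {x : ℝ | 1 < |x|} := by
        have h2 : Tendsto (fun n : ℕ => s * (1 + 1 / ((n : ℝ) + 1))) atTop (𝓝 s) := by
          have h3 : Tendsto (fun n : ℕ => s * (1 + 1 / ((n : ℝ) + 1))) atTop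
              (𝓝 (s * (1 + 0))) :=
            (tendsto_const_nhds.add tendsto_one_div_add_atTop_nhds_zero_nat).const_mul s
          simpa using h3
        refine mem_closure_of_tendsto h2 (Eventually.of_forall fun n => ?_)
        simp only [mem_ofPred_eq]
        rw [abs_mul, ← heq, one_mul, abs_of_pos (by positivity)]
        have : 0 < 1 / ((n : ℝ) + 1) := by positivity
        linarith
      have hz : IsClosed {x : ℝ | _root_.deriv φ x = 0} := isClosed_eq hc continuous_const
      exact (closure_minimal (fun x hx => h1 x hx) hz) hcl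

theorem Bmp.hasCompactSupport {φ : ℝ → ℝ} (h : Bmp φ) : HasCompactSupport φ := by
  refine HasCompactSupport.of_support_subset_isCompact (isCompact_Icc (a := -1) (b := 1)) ?_
  intro s hs
  by_contra hn
  apply hs
  apply h.supp
  rw [mem_Icc, not_and_or, not_le, not_le] at hn
  rcases hn with h1 | h1
  · rw [abs_of_neg (by linarith)]
    linarith
  · rw [abs_of_pos (by linarith)]
    exact h1.le

theorem Bmp.integrable {φ : ℝ → ℝ} (h : Bmp φ) : Integrable φ :=
  h.continuous.integrable_of_hasCompactSupport h.hasCompactSupport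

/-- primitive of the Fresnel function -/
noncomputable def Fr (τ s : ℝ) : ℂ := ∫ x in (0 : ℝ)..s, u (τ * x ^ 2)

theorem continuous_us (τ : ℝ) : Continuous (fun x : ℝ => u (τ * x ^ 2)) :=
  continuous_u.comp (by fun_prop)

theorem hasDerivAt_Fr (τ s : ℝ) : HasDerivAt (Fr τ) (u (τ * s ^ 2)) s := by
  unfold Fr
  exact intervalIntegral.integral_hasDerivAt_right ((continuous_us τ).intervalIntegrable _ _)
    ((continuous_us τ).stronglyMeasurableAtFilter _ _) (continuous_us τ).continuousAt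

theorem Fr_neg (τ s : ℝ) : Fr τ (-s) = -Fr τ s := by
  unfold Fr
  have h := intervalIntegral.integral_comp_neg (a := 0) (b := s) (fun x : ℝ => u (τ * x ^ 2))
  simp only [neg_zero] at h
  rw [intervalIntegral.integral_symm (-s) 0, ← h]
  simp

theorem hasDerivAt_u_sq (τ x : ℝ) : HasDerivAt (fun x : ℝ => u (τ * x ^ 2))
    (-(2 * Complex.I * τ * x) * u (τ * x ^ 2)) x := by
  unfold u
  have e1 : HasDerivAt (fun x : ℝ => ((τ * x ^ 2 : ℝ) : ℂ)) ((τ * (2 * x) : ℝ) : ℂ) x := by
    have := ((hasDerivAt_pow 2 x).const_mul τ).ofReal_comp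
    refine this.congr_deriv ?_
    norm_num
  have e2 := ((e1.const_mul Complex.I).fun_neg).cexp
  refine e2.congr_deriv ?_
  push_cast
  ring

theorem norm_Fr_pos {τ : ℝ} (hτ : τ ≠ 0) {s : ℝ} (hs : 0 ≤ s) :
    ‖Fr τ s‖ ≤ 2 * |τ| ^ (-(1 / 2) : ℝ) := by
  have hτ0 : 0 < |τ| := abs_pos.2 hτ
  set δ : ℝ := |τ| ^ (-(1 / 2) : ℝ) with hδ
  have hδ0 : 0 < δ := Real.rpow_pos_of_pos hτ0 _
  have hbound : ∀ a : ℝ, 0 ≤ a → ‖∫ x in (0 : ℝ)..a, u (τ * x ^ 2)‖ ≤ a := by
    intro a ha
    have := intervalIntegral.norm_integral_le_of_norm_le_const (a := 0) (b := a) (C := 1)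
      (f := fun x => u (τ * x ^ 2)) (fun ψ _ => by rw [norm_u])
    rwa [one_mul, sub_zero, abs_of_nonneg ha] at this
  rcases le_or_gt s δ with h1 | h1
  · unfold Fr
    linarith [hbound s hs]
  · have hτC : (τ : ℂ) ≠ 0 := by exact_mod_cast hτ
    have hsplit : Fr τ s = (∫ x in (0 : ℝ)..δ, u (τ * x ^ 2)) + ∫ x in δ..s, u (τ * x ^ 2) := by
      unfold Fr
      rw [intervalIntegral.integral_add_adjacent_intervals
        ((continuous_us τ).intervalIntegrable _ _) ((continuous_us τ).intervalIntegrable _ _)]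
    have hpos : ∀ x ∈ uIcc δ s, 0 < x := by
      intro x hx
      rw [uIcc_of_le h1.le] at hx
      linarith [hx.1]
    have hder : ∀ x ∈ uIcc δ s, HasDerivAt
        (fun x : ℝ => u (τ * x ^ 2) * (-(2 * Complex.I * τ * x))⁻¹)
        (u (τ * x ^ 2) + u (τ * x ^ 2) * (((x ^ 2)⁻¹ : ℝ) : ℂ) * (2 * Complex.I * τ)⁻¹) x := by
      intro x hx
      have hx0 := (hpos x hx).ne'
      have hxC : (x : ℂ) ≠ 0 := by exact_mod_cast hx0
      have d2 : HasDerivAt (fun x : ℝ => -(2 * Complex.I * τ * (x : ℂ))) (-(2 * Complex.I * τ)) x := by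
        have := ((hasDerivAt_id x).ofReal_comp.const_mul (2 * Complex.I * (τ : ℂ))).fun_neg
        refine this.congr_deriv ?_
        simp
      have hne : -(2 * Complex.I * τ * (x : ℂ)) ≠ 0 := by
        rw [neg_ne_zero]
        exact mul_ne_zero (mul_ne_zero (mul_ne_zero two_ne_zero Complex.I_ne_zero) hτC) hxC
      have d3 := (hasDerivAt_u_sq τ x).fun_mul (d2.fun_inv hne)
      refine d3.congr_deriv ?_
      have hI := Complex.I_ne_zero
      push_cast
      field_simp
    have hcont : ContinuousOn (fun x : ℝ => u (τ * x ^ 2) * (((x ^ 2)⁻¹ : ℝ) : ℂ) *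
        (2 * Complex.I * τ)⁻¹) (uIcc δ s) := by
      refine ((continuous_us τ).continuousOn.mul ?_).mul continuousOn_const
      refine Complex.continuous_ofReal.comp_continuousOn ?_
      refine ContinuousOn.inv₀ (by fun_prop) ?_
      intro x hx
      exact pow_ne_zero 2 (hpos x hx).ne'
    have hFTC := intervalIntegral.integral_eq_sub_of_hasDerivAt hder
      (((continuous_us τ).continuousOn.add hcont).intervalIntegrable)
    rw [intervalIntegral.integral_add ((continuous_us τ).intervalIntegrable _ _)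
      hcont.intervalIntegrable] at hFTC
    have hcr : ∀ x ∈ uIcc δ s, HasDerivAt (fun x : ℝ => -x⁻¹) ((x ^ 2)⁻¹) x := by
      intro x hx
      have := (hasDerivAt_inv (hpos x hx).ne').fun_neg
      refine this.congr_deriv ?_
      ring
    have hcc : ContinuousOn (fun x : ℝ => (x ^ 2)⁻¹) (uIcc δ s) := by
      refine ContinuousOn.inv₀ (by fun_prop) ?_
      intro x hx
      exact pow_ne_zero 2 (hpos x hx).ne'
    have hI2 := intervalIntegral.integral_eq_sub_of_hasDerivAt hcr hcc.intervalIntegrable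
    have h3 : ‖∫ x in δ..s, u (τ * x ^ 2) * (((x ^ 2)⁻¹ : ℝ) : ℂ) * (2 * Complex.I * τ)⁻¹‖ ≤
        (δ⁻¹ - s⁻¹) * (2 * |τ|)⁻¹ := by
      calc _ ≤ ∫ x in δ..s, (x ^ 2)⁻¹ * (2 * |τ|)⁻¹ := by
            refine intervalIntegral.norm_integral_le_of_norm_le h1.le ?_ ?_
            · refine Eventually.of_forall fun x hx => ?_
              have e5 : ‖(2 * Complex.I * (τ : ℂ))⁻¹‖ = (2 * |τ|)⁻¹ := by
                rw [norm_inv, norm_mul, norm_mul, Complex.norm_I, mul_one, Complex.norm_real,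
                  Real.norm_eq_abs, Complex.norm_ofNat]
              rw [norm_mul, norm_mul, norm_u, one_mul, Complex.norm_real, e5, Real.norm_eq_abs,
                abs_of_nonneg (by positivity)]
            · exact (hcc.mul continuousOn_const).intervalIntegrable
        _ = _ := by
            rw [intervalIntegral.integral_mul_const, hI2]
            ring
    have hn : ∀ x : ℝ, 0 < x → ‖u (τ * x ^ 2) * (-(2 * Complex.I * τ * x))⁻¹‖ =
        x⁻¹ * (2 * |τ|)⁻¹ := by
      intro x hx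
      rw [norm_mul, norm_u, one_mul, norm_inv, norm_neg, norm_mul, norm_mul, norm_mul,
        Complex.norm_I, mul_one, Complex.norm_real, Complex.norm_real, Real.norm_eq_abs,
        Real.norm_eq_abs, abs_of_pos hx, Complex.norm_ofNat]
      rw [mul_inv (2 * |τ|) x, mul_comm]
    have h4 : ‖u (τ * s ^ 2) * (-(2 * Complex.I * τ * s))⁻¹ -
        u (τ * δ ^ 2) * (-(2 * Complex.I * τ * δ))⁻¹‖ ≤ (s⁻¹ + δ⁻¹) * (2 * |τ|)⁻¹ := by
      refine (norm_sub_le _ _).trans (le_of_eq ?_)
      rw [hn s (by linarith), hn δ hδ0]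
      ring
    have h5 : ‖∫ x in δ..s, u (τ * x ^ 2)‖ ≤ δ⁻¹ * |τ|⁻¹ := by
      have : ∫ x in δ..s, u (τ * x ^ 2) = (u (τ * s ^ 2) * (-(2 * Complex.I * τ * s))⁻¹ -
        u (τ * δ ^ 2) * (-(2 * Complex.I * τ * δ))⁻¹) -
        ∫ x in δ..s, u (τ * x ^ 2) * (((x ^ 2)⁻¹ : ℝ) : ℂ) * (2 * Complex.I * τ)⁻¹ := by
        rw [← hFTC]
        ring
      rw [this]
      refine (norm_sub_le _ _).trans ((add_le_add h4 h3).trans (le_of_eq ?_))
      rw [mul_inv]
      ring
    have h6 : δ⁻¹ * |τ|⁻¹ = δ := by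
      rw [hδ, ← Real.rpow_neg hτ0.le, ← Real.rpow_neg_one |τ|, ← Real.rpow_add hτ0]
      norm_num
    rw [hsplit]
    refine (norm_add_le _ _).trans ?_
    rw [h6] at h5
    linarith [hbound δ hδ0.le]

theorem norm_Fr {τ : ℝ} (hτ : τ ≠ 0) (s : ℝ) : ‖Fr τ s‖ ≤ 2 * |τ| ^ (-(1 / 2) : ℝ) := by
  rcases le_total 0 s with h | h
  · exact norm_Fr_pos hτ h
  · have := norm_Fr_pos hτ (s := -s) (by linarith)
    rwa [Fr_neg, norm_neg] at this

/-- The Fresnel transform of `φ`. -/
noncomputable def kk (φ : ℝ → ℝ) (τ z : ℝ) : ℂ := ∫ s, (φ s : ℂ) * u (τ * (s - z) ^ 2)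

theorem kk_eq (φ : ℝ → ℝ) (τ z : ℝ) : kk φ τ z = ∫ s, (φ (s + z) : ℂ) * u (τ * s ^ 2) := by
  unfold kk
  rw [← integral_add_right_eq_self (fun s => (φ s : ℂ) * u (τ * (s - z) ^ 2)) z]
  simp

theorem norm_kk_le {φ : ℝ → ℝ} (h : Bmp φ) {τ : ℝ} (hτ : τ ≠ 0) (z : ℝ) :
    ‖kk φ τ z‖ ≤ 2 * |τ| ^ (-(1 / 2) : ℝ) * ∫ s, |deriv φ s| := by
  have hd := h.deriv
  have hFc : Continuous (Fr τ) := by
    rw [continuous_iff_continuousAt]
    exact fun s => (hasDerivAt_Fr τ s).continuousAt
  have c1 : HasCompactSupport (fun s => ((φ (s + z) : ℝ) : ℂ)) := by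
    have := (h.hasCompactSupport.comp_homeomorph (Homeomorph.addRight z))
    exact this.comp_left (g := fun x : ℝ => (x : ℂ)) (by simp)
  have c2 : HasCompactSupport (fun s => ((deriv φ (s + z) : ℝ) : ℂ)) := by
    have := (hd.hasCompactSupport.comp_homeomorph (Homeomorph.addRight z))
    exact this.comp_left (g := fun x : ℝ => (x : ℂ)) (by simp)
  have k1 : Continuous (fun s => ((φ (s + z) : ℝ) : ℂ)) :=
    Complex.continuous_ofReal.comp (h.continuous.comp (by fun_prop))
  have k2 : Continuous (fun s => ((deriv φ (s + z) : ℝ) : ℂ)) :=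
    Complex.continuous_ofReal.comp (hd.continuous.comp (by fun_prop))
  have hder1 : ∀ s, HasDerivAt (fun s => ((φ (s + z) : ℝ) : ℂ)) ((deriv φ (s + z) : ℝ) : ℂ) s := by
    intro s
    have := (h.hasDerivAt (s + z)).comp_add_const s z
    exact this.ofReal_comp
  have hI := integral_mul_deriv_eq_deriv_mul_of_integrable (u := fun s => ((φ (s + z) : ℝ) : ℂ))
    (v := Fr τ) (u' := fun s => ((deriv φ (s + z) : ℝ) : ℂ)) (v' := fun s => u (τ * s ^ 2))
    (fun s _ => hder1 s) (fun s _ => hasDerivAt_Fr τ s)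
    ((k1.mul (continuous_us τ)).integrable_of_hasCompactSupport (c1.mul_right))
    ((k2.mul hFc).integrable_of_hasCompactSupport (c2.mul_right))
    ((k1.mul hFc).integrable_of_hasCompactSupport (c1.mul_right))
  rw [kk_eq, hI, norm_neg]
  calc ‖∫ s, ((deriv φ (s + z) : ℝ) : ℂ) * Fr τ s‖
      ≤ ∫ s, |deriv φ (s + z)| * (2 * |τ| ^ (-(1 / 2) : ℝ)) := by
        refine norm_integral_le_of_norm_le ?_ (Eventually.of_forall fun s => ?_)
        · have := (hd.integrable.comp_add_right z).abs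
          exact this.mul_const _
        · rw [norm_mul, Complex.norm_real, Real.norm_eq_abs]
          gcongr
          exact norm_Fr hτ s
    _ = _ := by
        rw [integral_mul_const, integral_add_right_eq_self (fun s => |deriv φ s|) z, mul_comm]

end Pool.Agent.Ray
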