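import Pool.Agent.Ray.Kern

/-!
# Fresnel transforms of smooth compactly supported functions: decay and derivative
-/

open MeasureTheory Set Filter Real
open scoped ENNReal NNReal Topology

namespace Pool.Agent.Ray

open Pool.Agent.Restr

theorem kk_interval {φ : ℝ → ℝ} (h : Bmp φ) (τ z : ℝ) :
    kk φ τ z = ∫ s in (-1 : ℝ)..1, (φ s : ℂ) * u (τ * (s - z) ^ 2) := by
  unfold kk
  rw [intervalIntegral.integral_of_le (by norm_num)]
  symm
  apply setIntegral_eq_integral_of_forall_compl_eq_zero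
  intro s hs
  have : φ s = 0 := by
    apply h.supp
    rw [mem_Ioc, not_and_or, not_lt, not_le] at hs
    rcases hs with h1 | h1
    · rw [abs_of_neg (by linarith)]
      linarith
    · rw [abs_of_pos (by linarith)]
      exact h1.le
  rw [this]
  simp

/-- the constant in the decay estimate -/
noncomputable def Mk (φ : ℝ → ℝ) : ℝ :=
  ∫ s in (-1 : ℝ)..1, (|deriv (deriv φ) s| + 3 * |deriv φ s| + 3 * |φ s|)

theorem norm_kk_far {φ : ℝ → ℝ} (h : Bmp φ) {τ : ℝ} (hτ : τ ≠ 0) {z : ℝ} (hz : 2 ≤ |z|) :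
    ‖kk φ τ z‖ ≤ Mk φ / (τ ^ 2 * z ^ 2) := by
  have hd := h.deriv
  have hdd := hd.deriv
  have hz0 : 0 < |z| := by linarith
  have hzz : z ≠ 0 := abs_pos.1 hz0
  have hw : ∀ s ∈ Icc (-1 : ℝ) 1, |z| / 2 ≤ |s - z| := by
    intro s hs
    have h1 : |s| ≤ 1 := abs_le.2 hs
    have h2 : |z| ≤ |s - z| + |s| := by
      have := abs_sub_abs_le_abs_sub z s
      rw [abs_sub_comm] at this
      linarith
    linarith
  have hw0 : ∀ s ∈ Icc (-1 : ℝ) 1, s - z ≠ 0 := by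
    intro s hs h0
    have := hw s hs
    rw [h0, abs_zero] at this
    linarith
  have hτC : (τ : ℂ) ≠ 0 := by exact_mod_cast hτ
  set c : ℂ := 2 * Complex.I * τ with hc
  have hc0 : c ≠ 0 := mul_ne_zero (mul_ne_zero two_ne_zero Complex.I_ne_zero) hτC
  have hcn : ‖c‖ = 2 * |τ| := by
    rw [hc, norm_mul, norm_mul, Complex.norm_I, mul_one, Complex.norm_real, Real.norm_eq_abs,
      Complex.norm_ofNat]
  set P : ℝ → ℂ := fun s => u (τ * (s - z) ^ 2) * (((φ s : ℂ) * ((s - z : ℝ) : ℂ)⁻¹ +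
    c⁻¹ * (((deriv φ s : ℝ) : ℂ) * (((s - z : ℝ) : ℂ) ^ 2)⁻¹ - (φ s : ℂ) * (((s - z : ℝ) : ℂ) ^ 3)⁻¹)) *
    (-c⁻¹)) with hP
  set Q : ℝ → ℂ := fun s => u (τ * (s - z) ^ 2) * (c ^ 2)⁻¹ * (((deriv (deriv φ) s : ℝ) : ℂ) *
    (((s - z : ℝ) : ℂ) ^ 2)⁻¹ - 3 * ((deriv φ s : ℝ) : ℂ) * (((s - z : ℝ) : ℂ) ^ 3)⁻¹ +
    3 * (φ s : ℂ) * (((s - z : ℝ) : ℂ) ^ 4)⁻¹) with hQ
  have hder : ∀ s ∈ uIcc (-1 : ℝ) 1, HasDerivAt P ((φ s : ℂ) * u (τ * (s - z) ^ 2) - Q s) s := by
    intro s hs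
    rw [uIcc_of_le (by norm_num)] at hs
    have hs0 : ((s - z : ℝ) : ℂ) ≠ 0 := by exact_mod_cast hw0 s hs
    have dE : HasDerivAt (fun s : ℝ => u (τ * (s - z) ^ 2)) (-(c * ((s - z : ℝ) : ℂ)) *
        u (τ * (s - z) ^ 2)) s := by
      have := (hasDerivAt_u_sq τ (s - z)).comp_sub_const s z
      exact this
    have dw : HasDerivAt (fun s : ℝ => ((s - z : ℝ) : ℂ)) 1 s := by
      have := ((hasDerivAt_id s).sub_const z).ofReal_comp
      simpa using this
    have d0 : HasDerivAt (fun s : ℝ => (φ s : ℂ)) ((deriv φ s : ℝ) : ℂ) s := (h.hasDerivAt s).ofReal_comp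
    have d1 : HasDerivAt (fun s : ℝ => ((deriv φ s : ℝ) : ℂ)) ((deriv (deriv φ) s : ℝ) : ℂ) s :=
      (hd.hasDerivAt s).ofReal_comp
    have dinv := dw.fun_inv hs0
    have dinv2 := (dw.fun_pow 2).fun_inv (pow_ne_zero 2 hs0)
    have dinv3 := (dw.fun_pow 3).fun_inv (pow_ne_zero 3 hs0)
    have d := dE.fun_mul (((d0.fun_mul dinv).fun_add (((d1.fun_mul dinv2).fun_sub
      (d0.fun_mul dinv3)).const_mul c⁻¹)).mul_const (-c⁻¹))
    refine d.congr_deriv ?_
    simp only [hQ]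
    generalize ((s - z : ℝ) : ℂ) = W at hs0 ⊢
    generalize u (τ * (s - z) ^ 2) = E
    generalize (φ s : ℂ) = A
    generalize ((deriv φ s : ℝ) : ℂ) = B
    generalize ((deriv (deriv φ) s : ℝ) : ℂ) = D
    field_simp
    ring
  have hcE : Continuous (fun s : ℝ => u (τ * (s - z) ^ 2)) := continuous_u.comp (by fun_prop)
  have hinv : ∀ k : ℕ, ContinuousOn (fun s : ℝ => (((s - z : ℝ) : ℂ) ^ k)⁻¹) (uIcc (-1 : ℝ) 1) := by
    intro k
    refine ContinuousOn.inv₀ (by fun_prop) ?_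
    intro s hs
    rw [uIcc_of_le (by norm_num)] at hs
    exact pow_ne_zero k (by exact_mod_cast hw0 s hs)
  have c0 : Continuous (fun s : ℝ => (φ s : ℂ)) := Complex.continuous_ofReal.comp h.continuous
  have c1 : Continuous (fun s : ℝ => ((deriv φ s : ℝ) : ℂ)) :=
    Complex.continuous_ofReal.comp hd.continuous
  have c2 : Continuous (fun s : ℝ => ((deriv (deriv φ) s : ℝ) : ℂ)) :=
    Complex.continuous_ofReal.comp hdd.continuous
  have hQc : ContinuousOn Q (uIcc (-1 : ℝ) 1) := by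
    refine (hcE.continuousOn.mul continuousOn_const).mul ?_
    refine ((c2.continuousOn.mul (hinv 2)).sub ?_).add ?_
    · exact (continuousOn_const.mul c1.continuousOn).mul (hinv 3)
    · exact (continuousOn_const.mul c0.continuousOn).mul (hinv 4)
  have hFTC := intervalIntegral.integral_eq_sub_of_hasDerivAt hder
    (((c0.mul hcE).continuousOn.sub hQc).intervalIntegrable)
  have hci : IntervalIntegrable (fun s : ℝ => (φ s : ℂ) * u (τ * (s - z) ^ 2)) volume (-1) 1 :=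
    (c0.mul hcE).intervalIntegrable _ _
  rw [intervalIntegral.integral_sub hci hQc.intervalIntegrable] at hFTC
  have hb : ∀ s, |s| = 1 → P s = 0 := by
    intro s hs
    have e1 := h.supp s hs.ge
    have e2 := hd.supp s hs.ge
    rw [hP]
    simp [e1, e2]
  rw [hb 1 (by norm_num), hb (-1) (by norm_num), sub_zero, sub_eq_zero] at hFTC
  rw [kk_interval h, hFTC]
  have hcm : Continuous (fun s => |deriv (deriv φ) s| + 3 * |deriv φ s| + 3 * |φ s|) := by
    have h1 := h.continuous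
    have h2 := hd.continuous
    have h3 := hdd.continuous
    fun_prop
  calc ‖∫ s in (-1 : ℝ)..1, Q s‖
      ≤ ∫ s in (-1 : ℝ)..1, (τ ^ 2 * z ^ 2)⁻¹ *
        (|deriv (deriv φ) s| + 3 * |deriv φ s| + 3 * |φ s|) := by
        refine intervalIntegral.norm_integral_le_of_norm_le (by norm_num) ?_ ?_
        · refine Eventually.of_forall fun s hs => ?_
          have hs' : s ∈ Icc (-1 : ℝ) 1 := ⟨hs.1.le, hs.2⟩
          have hwz := hw s hs'
          have hpos : 0 < |s - z| := by linarith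
          have hone : 1 ≤ |s - z| := by linarith
          have i2 : ‖(((s - z : ℝ) : ℂ) ^ 2)⁻¹‖ ≤ 4 * (z ^ 2)⁻¹ := by
            rw [norm_inv, norm_pow, Complex.norm_real, Real.norm_eq_abs]
            have : z ^ 2 / 4 ≤ |s - z| ^ 2 := by
              rw [← sq_abs z]
              nlinarith
            calc (|s - z| ^ 2)⁻¹ ≤ (z ^ 2 / 4)⁻¹ := inv_anti₀ (by positivity) this
              _ = _ := by rw [inv_div]; ring
          have i3 : ‖(((s - z : ℝ) : ℂ) ^ 3)⁻¹‖ ≤ 4 * (z ^ 2)⁻¹ := by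
            refine le_trans ?_ i2
            rw [norm_inv, norm_inv, norm_pow, norm_pow, Complex.norm_real, Real.norm_eq_abs]
            exact inv_anti₀ (by positivity) (pow_le_pow_right₀ hone (by norm_num))
          have i4 : ‖(((s - z : ℝ) : ℂ) ^ 4)⁻¹‖ ≤ 4 * (z ^ 2)⁻¹ := by
            refine le_trans ?_ i2
            rw [norm_inv, norm_inv, norm_pow, norm_pow, Complex.norm_real, Real.norm_eq_abs]
            exact inv_anti₀ (by positivity) (pow_le_pow_right₀ hone (by norm_num))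
          have ic : ‖(c ^ 2)⁻¹‖ = (4 * τ ^ 2)⁻¹ := by
            rw [norm_inv, norm_pow, hcn, mul_pow, sq_abs]
            norm_num
          rw [hQ]
          simp only
          rw [norm_mul, norm_mul, norm_u, one_mul, ic]
          have n1 : ‖((deriv (deriv φ) s : ℝ) : ℂ) * (((s - z : ℝ) : ℂ) ^ 2)⁻¹ -
              3 * ((deriv φ s : ℝ) : ℂ) * (((s - z : ℝ) : ℂ) ^ 3)⁻¹ +
              3 * (φ s : ℂ) * (((s - z : ℝ) : ℂ) ^ 4)⁻¹‖ ≤
              |deriv (deriv φ) s| * (4 * (z ^ 2)⁻¹) + 3 * |deriv φ s| * (4 * (z ^ 2)⁻¹) +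
              3 * |φ s| * (4 * (z ^ 2)⁻¹) := by
            refine (norm_add_le _ _).trans (add_le_add ((norm_sub_le _ _).trans
              (add_le_add ?_ ?_)) ?_)
            · rw [norm_mul, Complex.norm_real, Real.norm_eq_abs]
              gcongr
            · rw [norm_mul, norm_mul, Complex.norm_real, Real.norm_eq_abs, Complex.norm_ofNat]
              gcongr
            · rw [norm_mul, norm_mul, Complex.norm_real, Real.norm_eq_abs, Complex.norm_ofNat]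
              gcongr
          calc _ ≤ (4 * τ ^ 2)⁻¹ * (|deriv (deriv φ) s| * (4 * (z ^ 2)⁻¹) +
                3 * |deriv φ s| * (4 * (z ^ 2)⁻¹) + 3 * |φ s| * (4 * (z ^ 2)⁻¹)) := by gcongr
            _ = _ := by
              field_simp
        · exact (hcm.const_mul _).intervalIntegrable _ _
    _ = _ := by
        rw [intervalIntegral.integral_const_mul]
        unfold Mk
        rw [div_eq_inv_mul]

theorem Mk_nonneg (φ : ℝ → ℝ) : 0 ≤ Mk φ := by
  unfold Mk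
  exact intervalIntegral.integral_nonneg (by norm_num) fun s _ => by positivity

/-- The combined estimate. -/
theorem kk_bounds {φ : ℝ → ℝ} (h : Bmp φ) : ∃ C : ℝ, 0 < C ∧ ∀ τ : ℝ, 1 ≤ |τ| → ∀ z : ℝ,
    ‖kk φ τ z‖ ≤ C * |τ| ^ (-(1 / 2) : ℝ) * (1 + z ^ 2)⁻¹ ∧
    (2 ≤ |z| → ‖kk φ τ z‖ ≤ C * (τ ^ 2 * z ^ 2)⁻¹) := by
  set D : ℝ := ∫ s, |deriv φ s| with hD
  have hD0 : 0 ≤ D := integral_nonneg fun s => abs_nonneg _
  have hM := Mk_nonneg φ
  refine ⟨10 * D + 2 * Mk φ + 1, by positivity, fun τ hτ z => ?_⟩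
  have hτ0 : 0 < |τ| := by linarith
  have hτn : τ ≠ 0 := abs_pos.1 hτ0
  have hr : 0 < |τ| ^ (-(1 / 2) : ℝ) := Real.rpow_pos_of_pos hτ0 _
  have hfar : 2 ≤ |z| → ‖kk φ τ z‖ ≤ (10 * D + 2 * Mk φ + 1) * (τ ^ 2 * z ^ 2)⁻¹ := by
    intro hz
    refine (norm_kk_far h hτn hz).trans ?_
    rw [div_eq_mul_inv]
    have : 0 ≤ (τ ^ 2 * z ^ 2)⁻¹ := by positivity
    nlinarith
  refine ⟨?_, hfar⟩
  rcases le_or_gt 2 |z| with hz | hz
  · have h1 := norm_kk_far h hτn hz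
    have hz2 : 4 ≤ z ^ 2 := by
      rw [← sq_abs]
      nlinarith
    have h2 : (τ ^ 2)⁻¹ ≤ |τ| ^ (-(1 / 2) : ℝ) := by
      rw [← sq_abs, ← Real.rpow_natCast |τ| 2, ← Real.rpow_neg hτ0.le]
      exact Real.rpow_le_rpow_of_exponent_le hτ (by norm_num)
    have h3 : (z ^ 2)⁻¹ ≤ 2 * (1 + z ^ 2)⁻¹ := by
      rw [← div_eq_mul_inv, inv_eq_one_div, div_le_div_iff₀ (by positivity) (by positivity)]
      nlinarith
    calc ‖kk φ τ z‖ ≤ Mk φ * ((τ ^ 2)⁻¹ * (z ^ 2)⁻¹) := by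
          refine h1.trans (le_of_eq ?_)
          rw [div_eq_mul_inv, mul_inv]
      _ ≤ Mk φ * (|τ| ^ (-(1 / 2) : ℝ) * (2 * (1 + z ^ 2)⁻¹)) := by gcongr
      _ = 2 * Mk φ * |τ| ^ (-(1 / 2) : ℝ) * (1 + z ^ 2)⁻¹ := by ring
      _ ≤ _ := by
          gcongr
          linarith
  · have h1 := norm_kk_le h hτn z
    have hz2 : z ^ 2 ≤ 4 := by
      rw [← sq_abs]
      have := abs_nonneg z
      nlinarith
    have h3 : 1 ≤ 5 * (1 + z ^ 2)⁻¹ := by
      rw [← div_eq_mul_inv, le_div_iff₀ (by positivity)]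
      linarith
    calc ‖kk φ τ z‖ ≤ 2 * |τ| ^ (-(1 / 2) : ℝ) * D * 1 := by rw [mul_one]; exact h1
      _ ≤ 2 * |τ| ^ (-(1 / 2) : ℝ) * D * (5 * (1 + z ^ 2)⁻¹) := by gcongr
      _ = 10 * D * |τ| ^ (-(1 / 2) : ℝ) * (1 + z ^ 2)⁻¹ := by ring
      _ ≤ _ := by
          gcongr
          linarith

theorem hasDerivAt_kk {φ : ℝ → ℝ} (h : Bmp φ) (τ z : ℝ) :
    HasDerivAt (kk φ τ) (kk (deriv φ) τ z) z := by
  have hcs : HasCompactSupport (fun s : ℝ => (φ s : ℂ)) :=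
    h.hasCompactSupport.comp_left (g := fun x : ℝ => (x : ℂ)) (by simp)
  have hcd : ContDiff ℝ 1 (fun s : ℝ => (φ s : ℂ)) :=
    Complex.ofRealCLM.contDiff.comp (h.smooth.of_le (by simp))
  have hli : LocallyIntegrable (fun x : ℝ => u (τ * x ^ 2)) volume :=
    (continuous_us τ).locallyIntegrable
  have hconv := hcs.hasDerivAt_convolution_right (ContinuousLinearMap.mul ℝ ℂ) hli hcd z
  have key : ∀ ψ : ℝ → ℝ, ∀ w : ℝ, kk ψ τ w = convolution (fun x : ℝ => u (τ * x ^ 2))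
      (fun s : ℝ => (ψ s : ℂ)) (ContinuousLinearMap.mul ℝ ℂ) volume w := by
    intro ψ w
    unfold convolution
    rw [kk_eq, ← integral_neg_eq_self (fun s => (ψ (s + w) : ℂ) * u (τ * s ^ 2))]
    refine integral_congr_ae (Eventually.of_forall fun s => ?_)
    simp only [ContinuousLinearMap.mul_apply', neg_sq]
    rw [mul_comm, neg_add_eq_sub]
  have e1 : kk φ τ = convolution (fun x : ℝ => u (τ * x ^ 2))
      (fun s : ℝ => (φ s : ℂ)) (ContinuousLinearMap.mul ℝ ℂ) volume := funext (key φ)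
  rw [e1, key (deriv φ) z]
  have e2 : deriv (fun s : ℝ => (φ s : ℂ)) = fun s : ℝ => ((deriv φ s : ℝ) : ℂ) := by
    funext s
    exact ((h.hasDerivAt s).ofReal_comp).deriv
  rw [← e2]
  exact hconv

theorem continuous_kk {φ : ℝ → ℝ} (h : Bmp φ) (τ : ℝ) : Continuous (kk φ τ) := by
  rw [continuous_iff_continuousAt]
  exact fun z => (hasDerivAt_kk h τ z).continuousAt

end Pool.Agent.Ray
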