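import Pool.Agent.Ray.Blk3

/-!
# Smoothing errors from the modulus of continuity under dilations
-/

open MeasureTheory Set Filter Real
open scoped ENNReal NNReal Topology

namespace Pool.Agent.Ray

open Pool.Agent.Restr

theorem exists_th_le : ∃ C : ℝ, 1 ≤ C ∧ ∀ s, th s ≤ C := by
  obtain ⟨C, hC⟩ := th_bmp.hasCompactSupport.exists_bound_of_continuous th_bmp.continuous
  refine ⟨max C 1, le_max_right _ _, fun s => ?_⟩
  exact (le_abs_self _).trans ((hC s).trans (le_max_left _ _))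

theorem lint_mθ_le {C : ℝ} (hC : ∀ s, th s ≤ C) {f : ℝ → ℝ≥0∞} (hf : Measurable f) :
    ∫⁻ s, f s ∂mθ ≤ ENNReal.ofReal C * ∫⁻ s in Ioo (-1 : ℝ) 1, f s := by
  unfold mθ
  rw [lintegral_withDensity_eq_lintegral_mul _ measurable_th hf,
    ← lintegral_indicator measurableSet_Ioo, ← lintegral_const_mul' _ _ ENNReal.ofReal_ne_top]
  refine lintegral_mono fun s => ?_
  simp only [Pi.mul_apply]
  by_cases hs : s ∈ Ioo (-1 : ℝ) 1
  · rw [indicator_of_mem hs]
    gcongr
    exact hC s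
  · have : th s = 0 := by
      apply th_bmp.supp
      by_contra hcon
      exact hs (abs_lt.1 (not_le.1 hcon))
    rw [this, ENNReal.ofReal_zero, zero_mul]
    exact bot_le

/-- the dilation difference -/
noncomputable def Dil (h : ℝ) (g : ℝ × ℝ → ℂ) (p : ℝ × ℝ) : ℂ := g (p.1 * (1 + h), p.2) - g p

theorem measurable_Dil' {g : ℝ × ℝ → ℂ} (hg : Measurable g) :
    Measurable (fun w : (ℝ × ℝ) × ℝ => Dil w.2 g w.1) := by
  unfold Dil
  exact (hg.comp (by fun_prop)).sub (hg.comp measurable_fst)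

theorem inner_mod {N : ℝ} (hN : 64 ≤ N) {q : ℝ} (hq : 0 < q) {g : ℝ × ℝ → ℂ} (hg : Measurable g)
    (hs : ∀ r ω, r ∉ Icc (1 / 2 : ℝ) 2 → g (r, ω) = 0) (p : ℝ × ℝ) :
    ∫⁻ s in Ioo (-1 : ℝ) 1, ‖g p - g (p.1 - s / N, p.2)‖ₑ ^ q ≤
      ENNReal.ofReal (3 * N) * ∫⁻ h in Ioo (-(3 / N)) (3 / N), ‖Dil h g p‖ₑ ^ q := by
  have hN0 : 0 < N := by linarith
  by_cases hp : p.1 ∈ Icc (3 / 8 : ℝ) (17 / 8)
  · have hp0 : 0 < p.1 := by linarith [hp.1]
    have hNr : N * p.1 ≠ 0 := by positivity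
    have hm : Measurable ((Ioo (-1 : ℝ) 1).indicator
        fun s => ‖g p - g (p.1 - s / N, p.2)‖ₑ ^ q) := by
      refine Measurable.indicator ?_ measurableSet_Ioo
      exact ((measurable_const.sub (hg.comp (by fun_prop))).enorm.pow_const q)
    rw [← lintegral_indicator measurableSet_Ioo, lint_scale hm hNr,
      ← lintegral_indicator measurableSet_Ioo]
    have hc : |N * p.1| ≤ 3 * N := by
      rw [abs_of_pos (by positivity)]
      nlinarith [hp.2]
    refine mul_le_mul' (ENNReal.ofReal_le_ofReal hc) (lintegral_mono fun h => ?_)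
    dsimp only
    by_cases hh : -(N * p.1 * h) ∈ Ioo (-1 : ℝ) 1
    · have hh2 : h ∈ Ioo (-(3 / N)) (3 / N) := by
        have h1 := hh.1
        have h2 := hh.2
        constructor
        · rw [← neg_div, div_lt_iff₀ hN0]
          by_contra hcon
          push Not at hcon
          have : p.1 * (h * N) ≤ 3 / 8 * (h * N) := by nlinarith [hp.1]
          nlinarith
        · rw [lt_div_iff₀ hN0]
          by_contra hcon
          push Not at hcon
          have : 3 / 8 * (h * N) ≤ p.1 * (h * N) := by nlinarith [hp.1]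
          nlinarith
      rw [indicator_of_mem hh, indicator_of_mem hh2]
      refine le_of_eq ?_
      unfold Dil
      rw [← enorm_neg, neg_sub]
      congr 4
      rw [Prod.mk.injEq]
      refine ⟨?_, rfl⟩
      field_simp
      ring
    · rw [indicator_of_notMem hh]
      exact bot_le
  · have h0 : ∫⁻ s in Ioo (-1 : ℝ) 1, ‖g p - g (p.1 - s / N, p.2)‖ₑ ^ q ≤
        ∫⁻ _ in Ioo (-1 : ℝ) 1, 0 := by
      refine setLIntegral_mono' measurableSet_Ioo fun s hs1 => ?_
      have e1 : g p = 0 := hs p.1 p.2 fun hm => hp ⟨by linarith [hm.1], by linarith [hm.2]⟩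
      have e2 : g (p.1 - s / N, p.2) = 0 := by
        apply hs
        intro hm
        apply hp
        have h1 : |s / N| ≤ 1 / 64 := by
          rw [abs_div, abs_of_pos hN0, div_le_div_iff₀ hN0 (by norm_num)]
          have := abs_lt.2 hs1
          nlinarith
        have h2 := abs_le.1 h1
        exact ⟨by linarith [hm.1], by linarith [hm.2]⟩
      rw [e1, e2, sub_zero, enorm_zero, ENNReal.zero_rpow_of_pos hq]
    rw [lintegral_zero] at h0
    exact h0.trans bot_le

theorem dil_neg {q : ℝ} (hq : 0 < q) {g : ℝ × ℝ → ℂ} (hg : Measurable g) {h : ℝ} (h0 : h < 0)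
    (h1 : -(1 / 2) ≤ h) :
    ∫⁻ p, ‖Dil h g p‖ₑ ^ q ∂μp ≤
      ENNReal.ofReal 2 * ∫⁻ p, ‖Dil (-h / (1 + h)) g p‖ₑ ^ q ∂μp := by
  have hpos : 0 < 1 + h := by linarith
  set h' : ℝ := -h / (1 + h) with hh'
  have e1 : (1 + h') * (1 + h) = 1 := by
    rw [hh']
    field_simp
    ring
  have hh1 : h' ≤ 1 := by
    rw [hh', div_le_one hpos]
    linarith
  have hh0 : 0 < h' := by
    rw [hh']
    exact div_pos (by linarith) hpos
  have m1 : ∀ h : ℝ, Measurable (fun p => ‖Dil h g p‖ₑ ^ q) := fun h =>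
    ((measurable_Dil' hg).comp (measurable_id.prodMk measurable_const)).enorm.pow_const q
  have m2 : ∀ h : ℝ, Measurable (fun ω => ∫⁻ r, ‖Dil h g (r, ω)‖ₑ ^ q) := by
    intro h
    have : Measurable (fun p : ℝ × ℝ => ‖Dil h g (p.2, p.1)‖ₑ ^ q) := (m1 h).comp measurable_swap
    exact this.lintegral_prod_right'
  rw [lint_μp (m1 h), lint_μp (m1 h'), ← lintegral_const_mul _ (m2 h')]
  refine lintegral_mono fun ω => ?_
  have hm : Measurable (fun r : ℝ => ‖Dil h g (r, ω)‖ₑ ^ q) :=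
    (m1 h).comp (by fun_prop : Measurable fun r : ℝ => (r, ω))
  have hne : -(1 + h') ≠ 0 := by linarith
  dsimp only
  rw [lint_scale hm hne]
  have hc : |-(1 + h')| ≤ 2 := by
    rw [abs_neg, abs_of_pos (by linarith)]
    linarith
  refine mul_le_mul' (ENNReal.ofReal_le_ofReal hc) (lintegral_mono fun r => le_of_eq ?_)
  dsimp only
  unfold Dil
  simp only
  have e2 : -(-(1 + h') * r) = r * (1 + h') := by ring
  rw [e2, mul_assoc, e1, mul_one, ← enorm_neg, neg_sub]

/-- The smoothing error. -/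
theorem err_of_mod : ∃ C : ℝ, 1 ≤ C ∧ ∀ (q σ : ℝ), 1 ≤ q → 0 ≤ σ → σ ≤ 1 →
    ∀ g : ℝ × ℝ → ℂ, Measurable g → (∃ M : ℝ, ∀ p, ‖g p‖ ≤ M) →
    (∀ r ω, r ∉ Icc (1 / 2 : ℝ) 2 → g (r, ω) = 0) → ∀ B : ℝ≥0,
    (∀ h : ℝ, 0 < h → h ≤ 1 / 8 → nm q (Dil h g) ≤ B * ENNReal.ofReal (h ^ σ)) →
    ∀ N : ℝ, 64 ≤ N → nm q (fun p => g p - Sm N g p) ≤
      ENNReal.ofReal C * B * ENNReal.ofReal (N ^ (-σ)) := by
  obtain ⟨Ct, hCt, hth⟩ := exists_th_le
  refine ⟨216 * Ct, by linarith, fun q σ hq hσ hσ1 g hg hgb hs B hmod N hN => ?_⟩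
  have hq0 : 0 < q := by linarith
  have hN0 : 0 < N := by linarith
  have hN1 : 3 / N ≤ 3 / 64 := by
    apply div_le_div_of_nonneg_left (by norm_num) (by norm_num) hN
  obtain ⟨M, hM⟩ := hgb
  have mD : Measurable (fun w : (ℝ × ℝ) × ℝ => ‖Dil w.2 g w.1‖ₑ ^ q) :=
    (measurable_Dil' hg).enorm.pow_const q
  -- bound of the dilation differences
  have hdil : ∀ h ∈ Ioo (-(3 / N)) (3 / N), ∫⁻ p, ‖Dil h g p‖ₑ ^ q ∂μp ≤
      ENNReal.ofReal 2 * (B * ENNReal.ofReal ((6 / N) ^ σ)) ^ q := by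
    intro h hh
    rcases lt_trichotomy h 0 with h0 | h0 | h0
    · have hpos : 0 < 1 + h := by linarith [hh.1]
      have hh' : -h / (1 + h) ≤ 6 / N := by
        rw [div_le_iff₀ hpos]
        have h1 := hh.1
        have h2 : 1 / 2 ≤ 1 + h := by linarith
        have h3 : 0 < 6 / N := by positivity
        have h4 : 6 / N * (1 / 2) ≤ 6 / N * (1 + h) := by gcongr
        have h5 : 6 / N * (1 / 2) = 3 / N := by ring
        linarith
      have hh0 : 0 < -h / (1 + h) := div_pos (by linarith) hpos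
      have h8 : -h / (1 + h) ≤ 1 / 8 := by
        refine hh'.trans ?_
        have : 6 / N = 2 * (3 / N) := by ring
        rw [this]
        linarith
      refine (dil_neg hq0 hg h0 (by linarith [hh.1])).trans ?_
      rw [← nm_pow hq0]
      gcongr
      refine (hmod _ hh0 h8).trans ?_
      gcongr
    · subst h0
      have : ∀ p, Dil 0 g p = 0 := by
        intro p
        unfold Dil
        rw [add_zero, mul_one, Prod.mk.eta, sub_self]
      simp only [this, enorm_zero, ENNReal.zero_rpow_of_pos hq0, lintegral_zero]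
      exact bot_le
    · have h1 := hh.2
      calc ∫⁻ p, ‖Dil h g p‖ₑ ^ q ∂μp = (nm q (Dil h g)) ^ q := (nm_pow hq0 _).symm
        _ ≤ (B * ENNReal.ofReal ((6 / N) ^ σ)) ^ q := by
            gcongr
            refine (hmod h h0 (by linarith)).trans ?_
            gcongr
            refine h1.le.trans ?_
            gcongr
            norm_num
        _ = 1 * (B * ENNReal.ofReal ((6 / N) ^ σ)) ^ q := (one_mul _).symm
        _ ≤ _ := by
            gcongr
            rw [← ENNReal.ofReal_one]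
            exact ENNReal.ofReal_le_ofReal (by norm_num)
  set Z : ℝ≥0∞ := (B * ENNReal.ofReal ((6 / N) ^ σ)) ^ q with hZ
  have hm : Measurable (fun w : (ℝ × ℝ) × ℝ => g w.1 - g (w.1.1 - w.2 / N, w.1.2)) :=
    (hg.comp measurable_fst).sub (hg.comp (by fun_prop))
  have hmain : ∫⁻ p, ‖g p - Sm N g p‖ₑ ^ q ∂μp ≤ ENNReal.ofReal (36 * Ct) * Z := by
    calc ∫⁻ p, ‖g p - Sm N g p‖ₑ ^ q ∂μp
        ≤ ∫⁻ p, (ENNReal.ofReal Ct * (ENNReal.ofReal (3 * N) *
          ∫⁻ h in Ioo (-(3 / N)) (3 / N), ‖Dil h g p‖ₑ ^ q)) ∂μp := by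
          refine lintegral_mono fun p => ?_
          have e1 : g p - Sm N g p = ∫ s, (g p - g (p.1 - s / N, p.2)) ∂mθ := by
            rw [integral_sub (integrable_const _) (intg_Sm N hg hM p)]
            simp [Sm]
          have hmp : Measurable (fun s => g p - g (p.1 - s / N, p.2)) :=
            hm.comp measurable_prodMk_left
          simp only [e1]
          calc ‖∫ s, (g p - g (p.1 - s / N, p.2)) ∂mθ‖ₑ ^ q
              ≤ (∫⁻ s, ‖g p - g (p.1 - s / N, p.2)‖ₑ ∂mθ) ^ q := by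
                gcongr
                exact enorm_integral_le_lintegral_enorm _
            _ ≤ ∫⁻ s, ‖g p - g (p.1 - s / N, p.2)‖ₑ ^ q ∂mθ :=
                rpow_lintegral_le hq hmp.enorm.aemeasurable
            _ ≤ ENNReal.ofReal Ct * ∫⁻ s in Ioo (-1 : ℝ) 1,
                ‖g p - g (p.1 - s / N, p.2)‖ₑ ^ q := lint_mθ_le hth (hmp.enorm.pow_const q)
            _ ≤ _ := mul_le_mul' le_rfl (inner_mod hN hq0 hg hs p)
      _ = ENNReal.ofReal Ct * (ENNReal.ofReal (3 * N) *
          ∫⁻ p, (∫⁻ h in Ioo (-(3 / N)) (3 / N), ‖Dil h g p‖ₑ ^ q) ∂μp) := by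
          rw [lintegral_const_mul' _ _ ENNReal.ofReal_ne_top,
            lintegral_const_mul' _ _ ENNReal.ofReal_ne_top]
      _ = ENNReal.ofReal Ct * (ENNReal.ofReal (3 * N) *
          ∫⁻ h in Ioo (-(3 / N)) (3 / N), ∫⁻ p, ‖Dil h g p‖ₑ ^ q ∂μp) := by
          rw [lintegral_lintegral_swap mD.aemeasurable]
      _ ≤ ENNReal.ofReal Ct * (ENNReal.ofReal (3 * N) *
          ∫⁻ _ in Ioo (-(3 / N)) (3 / N), ENNReal.ofReal 2 * Z) := by
          refine mul_le_mul' le_rfl (mul_le_mul' le_rfl ?_)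
          exact setLIntegral_mono' measurableSet_Ioo hdil
      _ = _ := by
          rw [setLIntegral_const, Real.volume_Ioo, mul_comm (ENNReal.ofReal 2 * Z), ← mul_assoc,
            ← mul_assoc, ← mul_assoc, ← ENNReal.ofReal_mul (by linarith),
            ← ENNReal.ofReal_mul (by positivity), ← ENNReal.ofReal_mul (by
              have : 0 ≤ 3 / N := by positivity
              have h2 : 0 ≤ 3 / N - -(3 / N) := by linarith
              positivity)]
          congr 2
          field_simp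
          ring
  unfold nm
  calc (∫⁻ p, ‖g p - Sm N g p‖ₑ ^ q ∂μp) ^ (1 / q) ≤ (ENNReal.ofReal (36 * Ct) * Z) ^ (1 / q) := by
        gcongr
    _ = (ENNReal.ofReal (36 * Ct)) ^ (1 / q) * (B * ENNReal.ofReal ((6 / N) ^ σ)) := by
        rw [ENNReal.mul_rpow_of_nonneg _ _ (by positivity), hZ, ← ENNReal.rpow_mul,
          mul_one_div_cancel hq0.ne', ENNReal.rpow_one]
    _ ≤ ENNReal.ofReal (36 * Ct) * (B * ENNReal.ofReal (6 * N ^ (-σ))) := by
        gcongr
        · calc (ENNReal.ofReal (36 * Ct)) ^ (1 / q) ≤ (ENNReal.ofReal (36 * Ct)) ^ (1 : ℝ) := by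
                apply ENNReal.rpow_le_rpow_of_exponent_le
                · rw [← ENNReal.ofReal_one]
                  exact ENNReal.ofReal_le_ofReal (by linarith)
                · rw [div_le_one hq0]
                  exact hq
            _ = _ := ENNReal.rpow_one _
        · rw [Real.div_rpow (by norm_num) hN0.le, div_eq_mul_inv, ← Real.rpow_neg hN0.le]
          gcongr
          calc (6 : ℝ) ^ σ ≤ 6 ^ (1 : ℝ) :=
                Real.rpow_le_rpow_of_exponent_le (by norm_num) hσ1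
            _ = 6 := Real.rpow_one _
    _ = _ := by
        rw [ENNReal.ofReal_mul (by norm_num : (0 : ℝ) ≤ 6), show (216 : ℝ) * Ct = 36 * Ct * 6 by
          ring, ENNReal.ofReal_mul (by linarith : 0 ≤ 36 * Ct)]
        ring

end Pool.Agent.Ray
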