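import Pool.Agent.Ray.Amp7

/-!
# Polar coordinates
-/

open MeasureTheory Set Filter Real
open scoped ENNReal NNReal Topology

namespace Pool.Agent.Ray

open Pool.Agent.Restr

/-- the measure on (radius, angle) -/
noncomputable def μp : Measure (ℝ × ℝ) := (volume : Measure ℝ).prod μc

instance : SFinite μp := by unfold μp; infer_instance

theorem lint_μp {F : ℝ × ℝ → ℝ≥0∞} (hF : Measurable F) :
    ∫⁻ p, F p ∂μp = ∫⁻ ω, (∫⁻ r, F (r, ω)) ∂μc :=
  lintegral_prod_symm _ hF.aemeasurable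

theorem target_measure :
    (volume : Measure (ℝ × ℝ)).restrict polarCoord.target = μp.restrict (Ioi 0 ×ˢ univ) := by
  unfold μp
  rw [polarCoord_target, Measure.volume_eq_prod, ← Measure.prod_restrict, ← Measure.prod_restrict,
    Measure.restrict_univ]
  congr 1
  unfold μc
  exact Measure.restrict_congr_set Ioo_ae_eq_Ioc

theorem measurable_polar : Measurable (fun q : ℝ × ℝ => polarCoord q) := by
  have h : (fun q : ℝ × ℝ => polarCoord q) =
      fun q : ℝ × ℝ => (√(q.1 ^ 2 + q.2 ^ 2), Complex.arg ((q.1 : ℂ) + q.2 * Complex.I)) := by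
    funext q
    rw [polarCoord_apply]
    simp only [Complex.equivRealProd_symm_apply]
  rw [h]
  refine Measurable.prodMk (by fun_prop) (Complex.measurable_arg.comp (by fun_prop))

/-- densities in polar coordinates -/
structure Adq (G : ℝ × ℝ → ℂ) : Prop where
  meas : Measurable G
  bdd : ∃ M : ℝ, ∀ p, ‖G p‖ ≤ M
  supp : ∀ r ω, r ∉ Icc (1 / 4 : ℝ) 4 → G (r, ω) = 0

theorem Adm.adq {g : ℝ × ℝ → ℂ} (h : Adm g) : Adq g where
  meas := h.meas
  bdd := h.bdd
  supp := fun r ω hr => h.supp r ω fun hm => hr ⟨by linarith [hm.1], by linarith [hm.2]⟩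

/-- The function of the plane with polar density `G`. -/
noncomputable def toC (G : ℝ × ℝ → ℂ) (y : ℝ × ℝ) : ℂ :=
  (((polarCoord y).1)⁻¹ : ℝ) * G (polarCoord y)

theorem measurable_toC {G : ℝ × ℝ → ℂ} (hG : Measurable G) : Measurable (toC G) := by
  unfold toC
  exact (Complex.measurable_ofReal.comp (measurable_polar.fst.inv)).mul
    (hG.comp measurable_polar)

theorem Adq.integrable {G : ℝ × ℝ → ℂ} (h : Adq G) : Integrable G μp := by
  obtain ⟨M, hM⟩ := h.bdd
  have h1 : IntegrableOn G (Icc (1 / 4 : ℝ) 4 ×ˢ univ) μp := by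
    refine Measure.integrableOn_of_bounded (M := M) ?_ h.meas.aestronglyMeasurable
      (Eventually.of_forall fun r => hM _)
    unfold μp
    rw [Measure.prod_prod, Real.volume_Icc]
    exact ENNReal.mul_ne_top ENNReal.ofReal_ne_top (measure_ne_top _ _)
  rwa [integrableOn_iff_integrable_of_support_subset] at h1
  intro p hp
  by_contra hn
  apply hp
  refine h.supp p.1 p.2 fun hm => hn ⟨hm, mem_univ _⟩

theorem polar_target_eq {p : ℝ × ℝ} (hp : p ∈ polarCoord.target) :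
    polarCoord (polarCoord.symm p) = p := polarCoord.right_inv hp

theorem toC_symm {G : ℝ × ℝ → ℂ} {p : ℝ × ℝ} (hp : p ∈ polarCoord.target) :
    toC G (polarCoord.symm p) = ((p.1⁻¹ : ℝ) : ℂ) * G p := by
  unfold toC
  rw [polar_target_eq hp]

theorem Adq.zero_compl {G : ℝ × ℝ → ℂ} (h : Adq G) {p : ℝ × ℝ} (hp : p ∉ Ioi (0 : ℝ) ×ˢ univ) :
    G p = 0 := by
  refine h.supp p.1 p.2 fun hm => hp ⟨?_, mem_univ _⟩
  have := hm.1
  change 0 < p.1
  linarith

/-- the phase in polar coordinates -/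
noncomputable def phs (ξ : ℝ × ℝ × ℝ) (p : ℝ × ℝ) : ℝ :=
  ξ.1 * (p.1 * cos p.2) + (ξ.2.1 * (p.1 * sin p.2) + ξ.2.2 * p.1 ^ 2)

theorem E_toC {G : ℝ × ℝ → ℂ} (h : Adq G) (ξ : ℝ × ℝ × ℝ) :
    E (toC G) ξ = ∫ p, u (phs ξ p) * G p ∂μp := by
  unfold E
  rw [← integral_comp_polarCoord_symm]
  have hms : MeasurableSet polarCoord.target := polarCoord.open_target.measurableSet
  have e1 : ∫ p in polarCoord.target, p.1 • (u (ξ.1 * (polarCoord.symm p).1 +
      (ξ.2.1 * (polarCoord.symm p).2 + ξ.2.2 * ((polarCoord.symm p).1 ^ 2 +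
        (polarCoord.symm p).2 ^ 2))) * toC G (polarCoord.symm p)) =
      ∫ p in polarCoord.target, u (phs ξ p) * G p := by
    refine setIntegral_congr_fun hms fun p hp => ?_
    have hp0 : 0 < p.1 := by
      rw [polarCoord_target] at hp
      exact hp.1
    rw [toC_symm hp, polarCoord_symm_apply]
    have e2 : (p.1 * cos p.2) ^ 2 + (p.1 * sin p.2) ^ 2 = p.1 ^ 2 := by
      have := Real.sin_sq_add_cos_sq p.2
      calc (p.1 * cos p.2) ^ 2 + (p.1 * sin p.2) ^ 2 = (sin p.2 ^ 2 + cos p.2 ^ 2) * p.1 ^ 2 := by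
            ring
        _ = _ := by rw [this, one_mul]
    rw [e2, Complex.real_smul]
    unfold phs
    have e3 : (p.1 : ℂ) * ((p.1⁻¹ : ℝ) : ℂ) = 1 := by
      rw [← Complex.ofReal_mul, mul_inv_cancel₀ hp0.ne', Complex.ofReal_one]
    calc (p.1 : ℂ) * (u (ξ.1 * (p.1 * cos p.2) + (ξ.2.1 * (p.1 * sin p.2) + ξ.2.2 * p.1 ^ 2)) *
          (((p.1⁻¹ : ℝ) : ℂ) * G p)) = ((p.1 : ℂ) * ((p.1⁻¹ : ℝ) : ℂ)) *
          (u (ξ.1 * (p.1 * cos p.2) + (ξ.2.1 * (p.1 * sin p.2) + ξ.2.2 * p.1 ^ 2)) * G p) := by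
          ring
      _ = _ := by rw [e3, one_mul]
  rw [e1, target_measure]
  refine setIntegral_eq_integral_of_forall_compl_eq_zero fun p hp => ?_
  rw [h.zero_compl hp, mul_zero]

theorem lint_toC {G : ℝ × ℝ → ℂ} (h : Adq G) :
    ∫⁻ y, ‖toC G y‖ₑ ^ 2 ≤ ENNReal.ofReal 4 * ∫⁻ p, ‖G p‖ₑ ^ 2 ∂μp := by
  rw [← lintegral_comp_polarCoord_symm]
  have hms : MeasurableSet polarCoord.target := polarCoord.open_target.measurableSet
  have e1 : ∫⁻ p in polarCoord.target, ENNReal.ofReal p.1 • ‖toC G (polarCoord.symm p)‖ₑ ^ 2 ≤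
      ∫⁻ p in polarCoord.target, ENNReal.ofReal 4 * ‖G p‖ₑ ^ 2 := by
    refine setLIntegral_mono' hms fun p hp => ?_
    have hp0 : 0 < p.1 := by
      rw [polarCoord_target] at hp
      exact hp.1
    rw [toC_symm hp, enorm_mul, mul_pow, smul_eq_mul, ← mul_assoc]
    by_cases hp1 : p.1 ∈ Icc (1 / 4 : ℝ) 4
    · gcongr
      rw [← ofReal_norm, Complex.norm_real, Real.norm_eq_abs, ← ENNReal.ofReal_pow (abs_nonneg _),
        ← ENNReal.ofReal_mul hp0.le]
      apply ENNReal.ofReal_le_ofReal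
      rw [sq_abs]
      have e2 : p.1 * p.1⁻¹ ^ 2 = p.1⁻¹ := by
        field_simp
      rw [e2, inv_le_comm₀ hp0 (by norm_num)]
      linarith [hp1.1]
    · have : G p = 0 := h.supp p.1 p.2 hp1
      rw [this]
      simp
  refine e1.trans ?_
  rw [target_measure]
  refine (setLIntegral_le_lintegral _ _).trans (le_of_eq ?_)
  exact lintegral_const_mul _ (h.meas.enorm.pow_const 2)

/-- Functions of the plane in polar coordinates. -/
theorem polar_le {F : ℝ × ℝ → ℝ≥0∞} (hs : ∀ y : ℝ × ℝ, y.1 ^ 2 + y.2 ^ 2 < 1 / 16 → F y = 0) :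
    ∫⁻ p in Ioi (0 : ℝ) ×ˢ univ, F (p.1 * cos p.2, p.1 * sin p.2) ∂μp ≤
      ENNReal.ofReal 4 * ∫⁻ y, F y := by
  have h0 := lintegral_comp_polarCoord_symm F
  rw [← h0, ← target_measure]
  have hms : MeasurableSet polarCoord.target := polarCoord.open_target.measurableSet
  rw [← lintegral_const_mul' _ _ ENNReal.ofReal_ne_top]
  refine setLIntegral_mono' hms fun p hp => ?_
  have hp0 : 0 < p.1 := by
    rw [polarCoord_target] at hp
    exact hp.1
  rw [polarCoord_symm_apply, smul_eq_mul, ← mul_assoc, ← ENNReal.ofReal_mul (by norm_num)]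
  by_cases hp1 : 1 / 4 ≤ p.1
  · calc F (p.1 * cos p.2, p.1 * sin p.2) = ENNReal.ofReal 1 * F (p.1 * cos p.2, p.1 * sin p.2) := by
          rw [ENNReal.ofReal_one, one_mul]
      _ ≤ _ := by
          gcongr
          linarith
  · have : F (p.1 * cos p.2, p.1 * sin p.2) = 0 := by
      apply hs
      simp only
      have h1 := Real.sin_sq_add_cos_sq p.2
      have e2 : (p.1 * cos p.2) ^ 2 + (p.1 * sin p.2) ^ 2 = p.1 ^ 2 := by
        calc (p.1 * cos p.2) ^ 2 + (p.1 * sin p.2) ^ 2 = (sin p.2 ^ 2 + cos p.2 ^ 2) * p.1 ^ 2 := by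
              ring
          _ = _ := by rw [h1, one_mul]
      rw [e2]
      have h3 := not_le.1 hp1
      nlinarith
    rw [this]
    exact bot_le

/-- The polar density of a function of the plane. -/
noncomputable def ofC (F : ℝ × ℝ → ℂ) (p : ℝ × ℝ) : ℂ :=
  if 0 < p.1 then (p.1 : ℂ) * F (p.1 * cos p.2, p.1 * sin p.2) else 0

theorem measurable_ofC {F : ℝ × ℝ → ℂ} (hF : Measurable F) : Measurable (ofC F) := by
  unfold ofC
  refine Measurable.ite (measurableSet_lt measurable_const measurable_fst) ?_ measurable_const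
  exact (Complex.measurable_ofReal.comp measurable_fst).mul (hF.comp (by fun_prop))

theorem toC_ofC {F : ℝ × ℝ → ℂ} (h0 : F 0 = 0) : toC (ofC F) = F := by
  funext y
  unfold toC ofC
  rw [polarCoord_apply]
  simp only [Complex.equivRealProd_symm_apply]
  by_cases hy : y = 0
  · subst hy
    simp [h0]
  · have hpos : 0 < y.1 ^ 2 + y.2 ^ 2 := by
      have h1 : y.1 ≠ 0 ∨ y.2 ≠ 0 := by
        by_contra hcon
        push Not at hcon
        exact hy (Prod.ext hcon.1 hcon.2)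
      rcases h1 with h1 | h1
      · have : 0 < y.1 ^ 2 := by positivity
        nlinarith [sq_nonneg y.2]
      · have : 0 < y.2 ^ 2 := by positivity
        nlinarith [sq_nonneg y.1]
    have hs := Real.sqrt_pos.2 hpos
    rw [if_pos hs]
    set z : ℂ := (y.1 : ℂ) + y.2 * Complex.I with hz
    have hn : ‖z‖ = √(y.1 ^ 2 + y.2 ^ 2) := by
      rw [Complex.norm_def, Complex.normSq_add_mul_I]
    have e1 : √(y.1 ^ 2 + y.2 ^ 2) * cos (Complex.arg z) = y.1 := by
      rw [← hn, Complex.norm_mul_cos_arg]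
      simp [hz]
    have e2 : √(y.1 ^ 2 + y.2 ^ 2) * sin (Complex.arg z) = y.2 := by
      rw [← hn, Complex.norm_mul_sin_arg]
      simp [hz]
    rw [e1, e2, ← mul_assoc, ← Complex.ofReal_mul, inv_mul_cancel₀ hs.ne', Complex.ofReal_one,
      one_mul]

end Pool.Agent.Ray
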