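import Pool.Agent.Ray.Pol1

/-!
# The radial smoothing operator
-/

open MeasureTheory Set Filter Real
open scoped ENNReal NNReal Topology

namespace Pool.Agent.Ray

open Pool.Agent.Restr

/-- a fixed bump function -/
noncomputable def bump0 : ContDiffBump (0 : ℝ) := ⟨1 / 2, 1, by norm_num, by norm_num⟩

/-- its normalisation -/
noncomputable def th : ℝ → ℝ := bump0.normed volume

theorem th_nonneg (s : ℝ) : 0 ≤ th s := bump0.nonneg_normed s

theorem th_int : ∫ s, th s = 1 := bump0.integral_normed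

theorem th_bmp : Bmp th where
  smooth := bump0.contDiff_normed
  supp := by
    intro s hs
    have h := bump0.support_normed_eq (μ := volume)
    by_contra hn
    have h1 : s ∈ Function.support (bump0.normed volume) := hn
    rw [h] at h1
    have h2 : |s| < 1 := by simpa [bump0] using h1
    linarith

/-- the smoothing measure -/
noncomputable def mθ : Measure ℝ := volume.withDensity (fun s => ENNReal.ofReal (th s))

theorem measurable_th : Measurable (fun s => ENNReal.ofReal (th s)) :=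
  ENNReal.measurable_ofReal.comp th_bmp.continuous.measurable

instance : IsProbabilityMeasure mθ := by
  unfold mθ
  refine ⟨?_⟩
  rw [withDensity_apply _ MeasurableSet.univ, Measure.restrict_univ,
    ← ofReal_integral_eq_lintegral_ofReal th_bmp.integrable (Eventually.of_forall th_nonneg),
    th_int, ENNReal.ofReal_one]

theorem int_mθ (f : ℝ → ℂ) : ∫ s, f s ∂mθ = ∫ s, (th s : ℂ) * f s := by
  unfold mθ
  rw [integral_withDensity_eq_integral_toReal_smul measurable_th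
    (Eventually.of_forall fun s => ENNReal.ofReal_lt_top)]
  refine integral_congr_ae (Eventually.of_forall fun s => ?_)
  simp only
  rw [ENNReal.toReal_ofReal (th_nonneg s), Complex.real_smul]

theorem ae_mθ : ∀ᵐ s ∂mθ, |s| < 1 := by
  unfold mθ
  rw [ae_withDensity_iff measurable_th]
  refine Eventually.of_forall fun s hs => ?_
  by_contra hcon
  apply hs
  rw [th_bmp.supp s (not_lt.1 hcon), ENNReal.ofReal_zero]

/-- radial smoothing at scale `1/N` -/
noncomputable def Sm (N : ℝ) (g : ℝ × ℝ → ℂ) (p : ℝ × ℝ) : ℂ := ∫ s, g (p.1 - s / N, p.2) ∂mθ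

theorem measurable_Sm (N : ℝ) {g : ℝ × ℝ → ℂ} (hg : Measurable g) : Measurable (Sm N g) := by
  have : StronglyMeasurable (fun p : ℝ × ℝ => ∫ s, g (p.1 - s / N, p.2) ∂mθ) := by
    apply StronglyMeasurable.integral_prod_right
      (f := fun (p : ℝ × ℝ) (s : ℝ) => g (p.1 - s / N, p.2))
    apply Measurable.stronglyMeasurable
    exact hg.comp (by fun_prop)
  exact this.measurable

theorem norm_Sm_le (N : ℝ) {g : ℝ × ℝ → ℂ} {M : ℝ} (hM : ∀ p, ‖g p‖ ≤ M) (p : ℝ × ℝ) :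
    ‖Sm N g p‖ ≤ M := by
  have h := norm_integral_le_of_norm_le_const (μ := mθ)
    (f := fun s => g (p.1 - s / N, p.2)) (C := M) (Eventually.of_forall fun s => hM _)
  unfold Sm
  simpa using h

theorem Sm_supp {N a b : ℝ} (hN : 64 ≤ N) {g : ℝ × ℝ → ℂ}
    (hs : ∀ r ω, r ∉ Icc a b → g (r, ω) = 0) (r ω : ℝ) (hr : r ∉ Icc (a - 1 / 64) (b + 1 / 64)) :
    Sm N g (r, ω) = 0 := by
  unfold Sm
  have : ∀ᵐ s ∂mθ, g (r - s / N, ω) = (fun _ => (0 : ℂ)) s := by
    filter_upwards [ae_mθ] with s hs1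
    apply hs
    intro hm
    apply hr
    have hN0 : 0 < N := by linarith
    have h1 : |s / N| ≤ 1 / 64 := by
      rw [abs_div, abs_of_pos hN0, div_le_div_iff₀ hN0 (by norm_num)]
      nlinarith
    have h2 := abs_le.1 h1
    exact ⟨by linarith [hm.1], by linarith [hm.2]⟩
  rw [integral_congr_ae this, integral_zero]

theorem Adm.Sm {g : ℝ × ℝ → ℂ} (h : Adm g) {N : ℝ} (hN : 64 ≤ N) : Adq (Sm N g) where
  meas := measurable_Sm N h.meas
  bdd := by
    obtain ⟨M, hM⟩ := h.bdd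
    exact ⟨M, norm_Sm_le N hM⟩
  supp := fun r ω hr => Sm_supp hN h.supp r ω fun hm => hr ⟨by linarith [hm.1], by linarith [hm.2]⟩

theorem intg_Sm (N : ℝ) {g : ℝ × ℝ → ℂ} (hg : Measurable g) {M : ℝ} (hM : ∀ p, ‖g p‖ ≤ M)
    (p : ℝ × ℝ) : Integrable (fun s => g (p.1 - s / N, p.2)) mθ :=
  Integrable.of_bound (C := M) (hg.comp (by fun_prop)).aestronglyMeasurable
    (Eventually.of_forall fun s => hM _)

theorem Sm_sub (N : ℝ) {f g : ℝ × ℝ → ℂ} (hf : Measurable f) (hg : Measurable g)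
    (hfb : ∃ M : ℝ, ∀ p, ‖f p‖ ≤ M) (hgb : ∃ M : ℝ, ∀ p, ‖g p‖ ≤ M) (p : ℝ × ℝ) :
    Sm N (fun p => f p - g p) p = Sm N f p - Sm N g p := by
  obtain ⟨M, hM⟩ := hfb
  obtain ⟨M', hM'⟩ := hgb
  unfold Sm
  rw [integral_sub (intg_Sm N hf hM p) (intg_Sm N hg hM' p)]

theorem Sm_add (N : ℝ) {f g : ℝ × ℝ → ℂ} (hf : Measurable f) (hg : Measurable g)
    (hfb : ∃ M : ℝ, ∀ p, ‖f p‖ ≤ M) (hgb : ∃ M : ℝ, ∀ p, ‖g p‖ ≤ M) (p : ℝ × ℝ) :
    Sm N (fun p => f p + g p) p = Sm N f p + Sm N g p := by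
  obtain ⟨M, hM⟩ := hfb
  obtain ⟨M', hM'⟩ := hgb
  unfold Sm
  rw [integral_add (intg_Sm N hf hM p) (intg_Sm N hg hM' p)]

theorem Sm_comm (N N' : ℝ) {g : ℝ × ℝ → ℂ} (hg : Measurable g) {M : ℝ} (hM : ∀ p, ‖g p‖ ≤ M) :
    Sm N (Sm N' g) = Sm N' (Sm N g) := by
  funext p
  unfold Sm
  simp only
  have h : Integrable (Function.uncurry fun (s s' : ℝ) => g (p.1 - s / N - s' / N', p.2))
      (mθ.prod mθ) :=
    Integrable.of_bound (C := M) (hg.comp (by fun_prop)).aestronglyMeasurable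
      (Eventually.of_forall fun s => hM _)
  rw [integral_integral_swap h]
  refine integral_congr_ae (Eventually.of_forall fun s' => ?_)
  refine integral_congr_ae (Eventually.of_forall fun s => ?_)
  simp only
  congr 2
  ring

/-- Smoothing contracts the norms. -/
theorem Sm_Lq (N : ℝ) {q : ℝ} (hq : 1 ≤ q) {g : ℝ × ℝ → ℂ} (hg : Measurable g) :
    ∫⁻ p, ‖Sm N g p‖ₑ ^ q ∂μp ≤ ∫⁻ p, ‖g p‖ₑ ^ q ∂μp := by
  have hm : Measurable (fun p : (ℝ × ℝ) × ℝ => g (p.1.1 - p.2 / N, p.1.2)) :=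
    hg.comp (by fun_prop)
  calc ∫⁻ p, ‖Sm N g p‖ₑ ^ q ∂μp
      ≤ ∫⁻ p, (∫⁻ s, ‖g (p.1 - s / N, p.2)‖ₑ ^ q ∂mθ) ∂μp := by
        refine lintegral_mono fun p => ?_
        calc ‖Sm N g p‖ₑ ^ q ≤ (∫⁻ s, ‖g (p.1 - s / N, p.2)‖ₑ ∂mθ) ^ q := by
              gcongr
              exact enorm_integral_le_lintegral_enorm _
          _ ≤ _ := rpow_lintegral_le hq (hm.comp measurable_prodMk_left).enorm.aemeasurable
    _ = ∫⁻ s, (∫⁻ p, ‖g (p.1 - s / N, p.2)‖ₑ ^ q ∂μp) ∂mθ :=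
        lintegral_lintegral_swap (hm.enorm.pow_const q).aemeasurable
    _ = ∫⁻ _, (∫⁻ p, ‖g p‖ₑ ^ q ∂μp) ∂mθ := by
        refine lintegral_congr fun s => ?_
        have hg' : Measurable (fun p : ℝ × ℝ => ‖g (p.1 - s / N, p.2)‖ₑ ^ q) :=
          (hg.comp (by fun_prop : Measurable fun p : ℝ × ℝ =>
          (p.1 - s / N, p.2))).enorm.pow_const q
        rw [lint_μp hg', lint_μp (hg.enorm.pow_const q)]
        refine lintegral_congr fun ω => ?_
        exact lintegral_sub_right_eq_self (fun r => ‖g (r, ω)‖ₑ ^ q) (s / N)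
    _ = _ := by rw [lintegral_const, measure_univ, mul_one]

theorem pow_eq_rpow {n : ℕ} (x : ℝ≥0∞) : x ^ n = x ^ (n : ℝ) := (ENNReal.rpow_natCast x n).symm

theorem Sm_L2 (N : ℝ) {g : ℝ × ℝ → ℂ} (hg : Measurable g) :
    ∫⁻ p, ‖Sm N g p‖ₑ ^ 2 ∂μp ≤ ∫⁻ p, ‖g p‖ₑ ^ 2 ∂μp := by
  have h := Sm_Lq N (q := ((2 : ℕ) : ℝ)) (by norm_num) hg
  simp only [ENNReal.rpow_natCast] at h
  exact h

end Pool.Agent.Ray
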