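import Pool.Agent.Ray.Pol2
import Pool.Agent.Restr.Global

/-!
# The extension of a smoothed density in terms of the frozen oscillatory integral
-/

open MeasureTheory Set Filter Real
open scoped ENNReal NNReal Topology

namespace Pool.Agent.Ray

open Pool.Agent.Restr

theorem inner_eq {g : ℝ × ℝ → ℂ} (hg : Adm g) {N : ℝ} (hN : 0 < N) (t v ω : ℝ) :
    ∫ r, u (t * (r - v) ^ 2) * Sm N g (r, ω) = Hf th (t / N ^ 2) N g v ω := by
  have hgs := hg.slice ω
  have hgm : Measurable (fun r : ℝ => g (r, ω)) := hg.meas.comp (by fun_prop)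
  have hum : Measurable (fun x : ℝ => u (t * (x - v) ^ 2)) := measurable_u.comp (by fun_prop)
  -- first swap
  have i1 : Integrable (Function.uncurry fun (s r : ℝ) =>
      u (t * (r - v) ^ 2) * g (r - s / N, ω)) (mθ.prod volume) := by
    have hmeas : Measurable (Function.uncurry fun (s r : ℝ) =>
        u (t * (r - v) ^ 2) * g (r - s / N, ω)) :=
      (measurable_u.comp (by fun_prop)).mul (hg.meas.comp (by fun_prop))
    rw [integrable_prod_iff hmeas.aestronglyMeasurable]
    have hn : ∀ s : ℝ, Integrable (fun r => g (r - s / N, ω)) := fun s => hgs.comp_sub_right _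
    refine ⟨Eventually.of_forall fun s => ?_, ?_⟩
    · simp only [Function.uncurry]
      exact (hn s).bdd_mul hum.aestronglyMeasurable (Eventually.of_forall fun r => (norm_u _).le)
    · simp only [Function.uncurry, norm_mul, norm_u, one_mul]
      have e : ∀ s : ℝ, ∫ r, ‖g (r - s / N, ω)‖ = ∫ r, ‖g (r, ω)‖ := fun s =>
        integral_sub_right_eq_self (fun r => ‖g (r, ω)‖) (s / N)
      simp only [e]
      exact integrable_const _
  have i2 : Integrable (Function.uncurry fun (s r : ℝ) =>
      u (t * (r + s / N - v) ^ 2) * g (r, ω)) (mθ.prod volume) := by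
    have h1 : Integrable (fun p : ℝ × ℝ => g (p.2, ω)) (mθ.prod volume) := hgs.comp_snd mθ
    have h2 : Measurable (fun p : ℝ × ℝ => u (t * (p.2 + p.1 / N - v) ^ 2)) :=
      measurable_u.comp (by fun_prop)
    exact h1.bdd_mul h2.aestronglyMeasurable (Eventually.of_forall fun r => (norm_u _).le)
  calc ∫ r, u (t * (r - v) ^ 2) * Sm N g (r, ω)
      = ∫ r, ∫ s, u (t * (r - v) ^ 2) * g (r - s / N, ω) ∂mθ := by
        refine integral_congr_ae (Eventually.of_forall fun r => ?_)
        simp only
        unfold Sm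
        rw [← integral_const_mul]
    _ = ∫ s, (∫ r, u (t * (r - v) ^ 2) * g (r - s / N, ω)) ∂mθ := (integral_integral_swap i1).symm
    _ = ∫ s, (∫ r, u (t * (r + s / N - v) ^ 2) * g (r, ω)) ∂mθ := by
        refine integral_congr_ae (Eventually.of_forall fun s => ?_)
        simp only
        rw [← integral_add_right_eq_self (fun r => u (t * (r - v) ^ 2) * g (r - s / N, ω)) (s / N)]
        simp only [add_sub_cancel_right]
    _ = ∫ r, ∫ s, u (t * (r + s / N - v) ^ 2) * g (r, ω) ∂mθ := integral_integral_swap i2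
    _ = _ := by
        unfold Hf
        refine integral_congr_ae (Eventually.of_forall fun r => ?_)
        simp only
        rw [integral_mul_const, mul_comm, int_mθ]
        unfold kk
        congr 1
        refine integral_congr_ae (Eventually.of_forall fun s => ?_)
        simp only
        congr 2
        field_simp
        ring

theorem rep {g : ℝ × ℝ → ℂ} (hg : Adm g) {N : ℝ} (hN : 64 ≤ N) (t : ℝ) (X : ℝ × ℝ) :
    E (toC (Sm N g)) (-(2 * t * X.1), -(2 * t * X.2), t) =
      u (-(t / 2) * (X.1 ^ 2 + X.2 ^ 2)) * Ph th (t / N ^ 2) N (-(t / 2)) g X := by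
  have hN0 : 0 < N := by linarith
  have hA := hg.Sm hN
  rw [E_toC hA]
  have hint : Integrable (fun p : ℝ × ℝ => u (phs (-(2 * t * X.1), -(2 * t * X.2), t) p) *
      Sm N g p) μp := by
    refine hA.integrable.bdd_mul (c := 1) ?_ (Eventually.of_forall fun p => (norm_u _).le)
    refine Measurable.aestronglyMeasurable (measurable_u.comp ?_)
    unfold phs
    fun_prop
  have e1 : ∫ p, u (phs (-(2 * t * X.1), -(2 * t * X.2), t) p) * Sm N g p ∂μp =
      ∫ ω, (∫ r, u (phs (-(2 * t * X.1), -(2 * t * X.2), t) (r, ω)) * Sm N g (r, ω)) ∂μc := by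
    unfold μp at hint ⊢
    exact integral_prod_symm _ hint
  rw [e1]
  unfold Ph U
  rw [← integral_const_mul]
  refine integral_congr_ae (Eventually.of_forall fun ω => ?_)
  simp only
  rw [← inner_eq hg hN0, ← mul_assoc, ← integral_const_mul]
  refine integral_congr_ae (Eventually.of_forall fun r => ?_)
  simp only
  rw [← mul_assoc, ← u_add, ← u_add]
  congr 2
  unfold phs sqm
  simp only
  have hc : cos (2 * ω) = cos ω ^ 2 - sin ω ^ 2 := Real.cos_two_mul' ω
  have hs : sin (2 * ω) = 2 * sin ω * cos ω := Real.sin_two_mul ω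
  have h1 : sin ω ^ 2 + cos ω ^ 2 = 1 := Real.sin_sq_add_cos_sq ω
  rw [hc, hs]
  linear_combination (-(t / 2) * (X.1 ^ 2 + X.2 ^ 2)) * h1

end Pool.Agent.Ray
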